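import Mathlib

set_option autoImplicit false

namespace OSX
open Filter Topology Complex Set MeasureTheory
open scoped ComplexConjugate

/-- the function `-i u` on `[0,6]` -/
noncomputable def gen : C(Icc (0:ℝ) 6, ℂ) := ⟨fun u => -(I * ((u : ℝ) : ℂ)), by fun_prop⟩

/-- `z ↦ e^{-izu}` -/
noncomputable def ph (z : ℂ) : C(Icc (0:ℝ) 6, ℂ) := NormedSpace.exp (z • gen)

theorem ph_apply (z : ℂ) (u : Icc (0:ℝ) 6) : ph z u = exp (-(I * z * ((u : ℝ) : ℂ))) := by
  unfold ph
  have h1 := NormedSpace.map_exp (ContinuousMap.evalAlgHom ℂ ℂ u) (by exact continuous_eval_const u) (z • gen)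
  have h2 : (ContinuousMap.evalAlgHom ℂ ℂ u) (NormedSpace.exp (z • gen)) = (NormedSpace.exp (z • gen)) u := rfl
  rw [← h2, h1, ← Complex.exp_eq_exp_ℂ]
  congr 1
  show (z • gen) u = _
  rw [ContinuousMap.smul_apply]
  unfold gen
  simp only [ContinuousMap.coe_mk, smul_eq_mul]
  ring

theorem ph_diff : Differentiable ℂ ph := by
  unfold ph
  have h : Differentiable ℂ (NormedSpace.exp : C(Icc (0:ℝ) 6, ℂ) → C(Icc (0:ℝ) 6, ℂ)) := by
    intro x
    exact (NormedSpace.exp_analytic x).differentiableAt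
  exact h.comp (by fun_prop)

/-- **Density**: exponentials with shifts in a set with an accumulation point. -/
theorem dense_exp {J : Set ℝ} {p : ℝ} (hp : AccPt p (𝓟 J)) (y : ℝ) {ε : ℝ} (hε : 0 < ε) :
    ∃ (m : ℕ) (x : Fin m → ℝ) (c : Fin m → ℂ), (∀ j, x j ∈ J) ∧ ∀ u : ℝ, 0 ≤ u → u ≤ 6 →
      ‖exp (-(I * y * u)) - ∑ j, c j * exp (-(I * x j * u))‖ ≤ ε := by
  set S : Submodule ℂ C(Icc (0:ℝ) 6, ℂ) := Submodule.span ℂ ((fun x : ℝ => ph x) '' J) with hS
  have hmem : ph y ∈ closure (S : Set C(Icc (0:ℝ) 6, ℂ)) := by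
    by_contra hcon
    have hconv : Convex ℝ (closure (S : Set C(Icc (0:ℝ) 6, ℂ))) := by
      exact (Submodule.convex (S.restrictScalars ℝ)).closure
    obtain ⟨f, u, h1, h2⟩ := RCLike.geometric_hahn_banach_closed_point (𝕜 := ℂ) hconv isClosed_closure hcon
    have hz : ∀ a ∈ S, f a = 0 := by
      intro a ha
      by_contra hne
      have h3 : ∀ t : ℝ, t * ‖f a‖ ^ 2 < u := by
        intro t
        have h4 := h1 (((t : ℂ) * conj (f a)) • a) (subset_closure (S.smul_mem _ ha))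
        rw [map_smul, smul_eq_mul, mul_assoc, mul_comm (conj (f a)), mul_conj, normSq_eq_norm_sq] at h4
        rw [← ofReal_mul] at h4
        exact h4
      have h5 : 0 < ‖f a‖ ^ 2 := by positivity
      have h6 := h3 (u / ‖f a‖ ^ 2)
      rw [div_mul_cancel₀ _ h5.ne'] at h6
      exact lt_irrefl _ h6
    have hu : 0 < u := by
      have := h1 0 (subset_closure S.zero_mem)
      simpa using this
    have hg : Differentiable ℂ fun z : ℂ => f (ph z) := f.differentiable.comp ph_diff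
    have hg0 : (fun z : ℂ => f (ph z)) = fun _ => 0 := by
      have ha : AnalyticOnNhd ℂ (fun z : ℂ => f (ph z)) univ := fun z _ => hg.analyticAt z
      have hb : AnalyticOnNhd ℂ (fun _ : ℂ => (0:ℂ)) univ := fun z _ => analyticAt_const
      refine AnalyticOnNhd.eq_of_frequently_eq (z₀ := (p : ℂ)) ha hb ?_
      rw [accPt_iff_frequently_nhdsNE] at hp
      have ht : Tendsto (fun x : ℝ => (x : ℂ)) (𝓝[≠] p) (𝓝[≠] (p : ℂ)) := by
        refine tendsto_nhdsWithin_iff.2 ⟨(Complex.continuous_ofReal.tendsto p).mono_left nhdsWithin_le_nhds, ?_⟩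
        filter_upwards [self_mem_nhdsWithin] with x hx
        simpa using hx
      refine ht.frequently (hp.mono fun x hx => ?_)
      exact hz _ (Submodule.subset_span ⟨x, hx, rfl⟩)
    have h7 : f (ph (y : ℂ)) = 0 := congrFun hg0 (y : ℂ)
    rw [h7] at h2
    simp at h2
    linarith
  obtain ⟨s, hs, hd⟩ := Metric.mem_closure_iff.1 hmem ε hε
  obtain ⟨m, c, g, hsum⟩ := Submodule.mem_span_set'.1 hs
  choose x hx1 hx2 using fun j => (g j).2
  refine ⟨m, x, c, hx1, fun u hu0 hu6 => ?_⟩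
  have h1 : (ph y - s) ⟨u, hu0, hu6⟩ = exp (-(I * y * u)) - ∑ j, c j * exp (-(I * x j * u)) := by
    rw [ContinuousMap.sub_apply, ph_apply, ← hsum, ContinuousMap.sum_apply]
    congr 1
    refine Finset.sum_congr rfl fun j _ => ?_
    rw [ContinuousMap.smul_apply, smul_eq_mul, ← hx2 j]
    simp only [ph_apply]
  rw [← h1]
  refine (ContinuousMap.norm_coe_le_norm _ _).trans ?_
  rw [← dist_eq_norm]
  exact hd.le

end OSX
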