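import Pool.Agent.Lib.MP_39df77_nt.OS.OSN
import Pool.Agent.Lib.MP_39df77_nt.OS.OSD

set_option autoImplicit false

namespace OSX
open Filter Topology Complex Set MeasureTheory OSV
open scoped ComplexConjugate ContDiff

variable {m : ℕ}

theorem KE_nonneg_on {H : ℝ → ℝ} (h : ∀ u, 0 ≤ u → u ≤ 6 → 0 ≤ H u) : 0 ≤ KE H := by
  unfold KE
  refine add_nonneg ?_ ?_
  · refine intervalIntegral.integral_nonneg zero_le_one fun y hy => ?_
    have h1 := hy.1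
    have h2 := hy.2
    have a1 := h (2 * y) (by linarith) (by linarith)
    have a2 := h (6 - 2 * y) (by linarith) (by linarith)
    positivity
  · refine setIntegral_nonneg Eu_meas fun u hu => ?_
    obtain ⟨-, -, -, -, a5, a6, -⟩ := hu
    have e : sg u = u.1 + u.2.1 + u.2.2 := rfl
    have a1 := h (2 * sg u) (by linarith) (by linarith)
    have a2 := h (6 - 2 * sg u) (by linarith) (by linarith)
    positivity

/-- `X(T) = M_3(T)/L⁹` -/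
noncomputable def Xf (T : ℝ) : ℝ := (MP069854.Qk 3 0 T).re

theorem one_side (hW : WeylB) (x : Fin m → ℝ) (c : Fin m → ℂ) {e : ℝ}
    (hP : ∀ u : ℝ, 0 ≤ u → u ≤ 6 → ‖∑ j, c j * exp (-(I * x j * u))‖ ≤ e) {w : ℂ} (hw : ‖w‖ = 1)
    {ε : ℝ} (hε : 0 < ε) :
    ∀ᶠ T : ℝ in atTop, -((e + ε) * (1 + Xf T)) ≤ (w * ∑ j, c j * MP069854.Qk 3 (x j) T).re := by
  have he : 0 ≤ e := (norm_nonneg _).trans (hP 0 le_rfl (by norm_num))
  have hDD : ∀ u : ℝ, DD (Fin.cons 0 x : Fin (m + 1) → ℝ) (Fin.cons (e : ℂ) fun j => w * c j) u =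
      e + (w * ∑ j, c j * exp (-(I * x j * u))).re := by
    intro u
    unfold DD
    rw [Fin.sum_univ_succ]
    simp only [Fin.cons_zero, Fin.cons_succ, ofReal_zero, mul_zero, zero_mul, neg_zero, Complex.exp_zero,
      mul_one, add_re, ofReal_re, Finset.mul_sum, mul_assoc]
  have hge : ∀ u : ℝ, 0 ≤ u → u ≤ 6 → 0 ≤ DD (Fin.cons 0 x : Fin (m + 1) → ℝ)
      (Fin.cons (e : ℂ) fun j => w * c j) u := by
    intro u hu0 hu6
    rw [hDD]
    have h1 := (abs_re_le_norm (w * ∑ j, c j * exp (-(I * x j * u))))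
    rw [norm_mul, hw, one_mul] at h1
    have h2 := (abs_le.1 (h1.trans (hP u hu0 hu6))).1
    linarith
  have hc := cone hW (Fin.cons 0 x : Fin (m + 1) → ℝ) (Fin.cons (e : ℂ) fun j => w * c j)
    (fun u hu1 hu2 => hge u (by linarith) (by linarith)) hε
  have hKE := KE_nonneg_on hge
  have hA := MP069854.arith_pos 3
  filter_upwards [hc, eventually_gt_atTop (1 : ℝ)] with T h1 hT
  have hX := X_nonneg hT
  rw [Fin.sum_univ_succ] at h1
  simp only [Fin.cons_zero, Fin.cons_succ, add_re, re_ofReal_mul, mul_assoc, ← Finset.mul_sum] at h1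
  have h2 : 0 ≤ MP069854.arith 3 * KE (DD (Fin.cons 0 x : Fin (m + 1) → ℝ)
      (Fin.cons (e : ℂ) fun j => w * c j)) := mul_nonneg hA.le hKE
  unfold Xf
  nlinarith

theorem approx_bound (hW : WeylB) (x : Fin m → ℝ) (c : Fin m → ℂ) {e : ℝ}
    (hP : ∀ u : ℝ, 0 ≤ u → u ≤ 6 → ‖∑ j, c j * exp (-(I * x j * u))‖ ≤ e)
    {ε : ℝ} (hε : 0 < ε) :
    ∀ᶠ T : ℝ in atTop, ‖∑ j, c j * MP069854.Qk 3 (x j) T‖ ≤ 2 * (e + ε) * (1 + Xf T) := by
  filter_upwards [one_side hW x c hP (w := 1) (by simp) hε, one_side hW x c hP (w := -1) (by simp) hε,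
    one_side hW x c hP (w := I) (by simp) hε, one_side hW x c hP (w := -I) (by simp) hε] with T h1 h2 h3 h4
  set z := ∑ j, c j * MP069854.Qk 3 (x j) T
  simp only [one_mul, neg_mul, neg_re, I_mul_re, neg_neg] at h1 h2 h3 h4
  refine (Complex.norm_le_abs_re_add_abs_im z).trans ?_
  have a1 : |z.re| ≤ (e + ε) * (1 + Xf T) := abs_le.2 ⟨by linarith, by linarith⟩
  have a2 : |z.im| ≤ (e + ε) * (1 + Xf T) := abs_le.2 ⟨by linarith, by linarith⟩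
  linarith

/-- approximation of `Q(y)` by `Q` on `J` -/
theorem approx_point (hW : WeylB) {J : Set ℝ} {p : ℝ} (hp : AccPt p (𝓟 J)) (y : ℝ) {ε : ℝ} (hε : 0 < ε) :
    ∃ (m : ℕ) (x : Fin m → ℝ) (c : Fin m → ℂ), (∀ j, x j ∈ J) ∧
      (∀ u : ℝ, 0 ≤ u → u ≤ 6 → ‖exp (-(I * y * u)) - ∑ j, c j * exp (-(I * x j * u))‖ ≤ ε) ∧
      ∀ᶠ T : ℝ in atTop, ‖MP069854.Qk 3 y T - ∑ j, c j * MP069854.Qk 3 (x j) T‖ ≤ 4 * ε * (1 + Xf T) := by
  obtain ⟨m, x, c, hx, hP⟩ := dense_exp hp y hε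
  refine ⟨m, x, c, hx, hP, ?_⟩
  have hsum : ∀ g : ℝ → ℂ, ∑ j : Fin (m + 1), (Fin.cons 1 fun j => -c j : Fin (m + 1) → ℂ) j *
      g ((Fin.cons y x : Fin (m + 1) → ℝ) j) = g y - ∑ j, c j * g (x j) := by
    intro g
    rw [Fin.sum_univ_succ]
    simp only [Fin.cons_zero, Fin.cons_succ, one_mul, neg_mul, Finset.sum_neg_distrib]
    ring
  have h := approx_bound hW (Fin.cons y x : Fin (m + 1) → ℝ) (Fin.cons 1 fun j => -c j) (e := ε)
    (fun u hu0 hu6 => by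
      rw [hsum (fun t => exp (-(I * t * u)))]
      exact hP u hu0 hu6) hε
  refine h.mono fun T hT => ?_
  rw [hsum (fun t => MP069854.Qk 3 t T)] at hT
  linarith

/-- **Upper bound by shifts in `J`** -/
theorem X_le (hW : WeylB) {J : Set ℝ} {p : ℝ} (hp : AccPt p (𝓟 J)) :
    ∃ (m : ℕ) (x : Fin m → ℝ) (C : ℝ), (∀ j, x j ∈ J) ∧ 0 < C ∧
      ∀ᶠ T : ℝ in atTop, Xf T ≤ C * (1 + ∑ j, ‖MP069854.Qk 3 (x j) T‖) := by
  obtain ⟨m, x, c, hx, -, hT⟩ := approx_point hW hp 0 (by norm_num : (0:ℝ) < 1 / 8)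
  have hC : 0 ≤ ∑ j, ‖c j‖ := Finset.sum_nonneg fun _ _ => norm_nonneg _
  refine ⟨m, x, 1 + 2 * ∑ j, ‖c j‖, hx, by positivity, ?_⟩
  filter_upwards [hT, eventually_gt_atTop (1 : ℝ)] with T h1 hT
  have hX : 0 ≤ Xf T := X_nonneg hT
  have h2 : Xf T ≤ ‖MP069854.Qk 3 0 T‖ := re_le_norm _
  have h3 : ‖MP069854.Qk 3 0 T‖ ≤ ‖MP069854.Qk 3 0 T - ∑ j, c j * MP069854.Qk 3 (x j) T‖ + ‖∑ j, c j * MP069854.Qk 3 (x j) T‖ := by
    have := norm_add_le (MP069854.Qk 3 0 T - ∑ j, c j * MP069854.Qk 3 (x j) T) (∑ j, c j * MP069854.Qk 3 (x j) T)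
    rwa [sub_add_cancel] at this
  have h4 : ‖∑ j, c j * MP069854.Qk 3 (x j) T‖ ≤ (∑ j, ‖c j‖) * ∑ j, ‖MP069854.Qk 3 (x j) T‖ := by
    refine (norm_sum_le _ _).trans ?_
    rw [Finset.sum_mul]
    refine Finset.sum_le_sum fun j _ => ?_
    rw [norm_mul]
    exact mul_le_mul_of_nonneg_left (Finset.single_le_sum (f := fun j => ‖MP069854.Qk 3 (x j) T‖)
      (fun _ _ => norm_nonneg _) (Finset.mem_univ j)) (norm_nonneg _)
  have h5 : 0 ≤ ∑ j, ‖MP069854.Qk 3 (x j) T‖ := Finset.sum_nonneg fun _ _ => norm_nonneg _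
  have h6 : 0 ≤ (∑ j, ‖c j‖) * ∑ j, ‖MP069854.Qk 3 (x j) T‖ := mul_nonneg hC h5
  generalize (∑ j, ‖c j‖) = S1 at *
  generalize (∑ j, ‖MP069854.Qk 3 (x j) T‖) = S2 at *
  have h7 : Xf T ≤ 4 * (1 / 8) * (1 + Xf T) + S1 * S2 := by linarith
  have h8 : (1 + 2 * S1) * (1 + S2) = 1 + S2 + 2 * S1 + 2 * (S1 * S2) := by ring
  rw [h8]
  linarith

theorem X_bdd (hW : WeylB) {J : Set ℝ} {p : ℝ} (hp : AccPt p (𝓟 J))
    (hJ : ∀ x ∈ J, ∃ l : ℂ, Tendsto (fun T => MP069854.Qk 3 x T) atTop (𝓝 l)) :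
    ∃ B : ℝ, 0 < B ∧ ∀ᶠ T : ℝ in atTop, Xf T ≤ B := by
  obtain ⟨m, x, C, hx, hC, hT⟩ := X_le hW hp
  choose l hl using fun j => hJ (x j) (hx j)
  have hlim : Tendsto (fun T : ℝ => C * (1 + ∑ j, ‖MP069854.Qk 3 (x j) T‖)) atTop (𝓝 (C * (1 + ∑ j, ‖l j‖))) :=
    (tendsto_const_nhds.add (tendsto_finsetSum _ fun j _ => (hl j).norm)).const_mul C
  have h0 : 0 ≤ ∑ j, ‖l j‖ := Finset.sum_nonneg fun _ _ => norm_nonneg _
  refine ⟨C * (1 + ∑ j, ‖l j‖) + 1, by positivity, ?_⟩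
  filter_upwards [hT, hlim.eventually (gt_mem_nhds (lt_add_one _))] with T h1 h2
  exact h1.trans h2.le

/-- **convergence on `J` implies convergence everywhere** -/
theorem conv_all (hW : WeylB) {J : Set ℝ} {p : ℝ} (hp : AccPt p (𝓟 J))
    (hJ : ∀ x ∈ J, ∃ l : ℂ, Tendsto (fun T => MP069854.Qk 3 x T) atTop (𝓝 l)) (y : ℝ) :
    ∃ l : ℂ, Tendsto (fun T => MP069854.Qk 3 y T) atTop (𝓝 l) := by
  obtain ⟨B, hB, hXB⟩ := X_bdd hW hp hJ
  have hc : CauchySeq fun T : ℝ => MP069854.Qk 3 y T := by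
    rw [Metric.cauchySeq_iff']
    intro ε hε
    set e := ε / (16 * (1 + B)) with he
    have he0 : 0 < e := by positivity
    obtain ⟨m, x, c, hx, -, hT⟩ := approx_point hW hp y he0
    choose l hl using fun j => hJ (x j) (hx j)
    have hlim : Tendsto (fun T : ℝ => ∑ j, c j * MP069854.Qk 3 (x j) T) atTop (𝓝 (∑ j, c j * l j)) :=
      tendsto_finsetSum _ fun j _ => (hl j).const_mul (c j)
    have hev : ∀ᶠ T : ℝ in atTop, dist (MP069854.Qk 3 y T) (∑ j, c j * l j) < ε / 2 := by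
      filter_upwards [hT, hXB, (Metric.tendsto_nhds.1 hlim) (ε / 4) (by positivity)] with T h1 h2 h3
      rw [dist_eq_norm] at h3 ⊢
      have h4 : ‖MP069854.Qk 3 y T - ∑ j, c j * l j‖ ≤ ‖MP069854.Qk 3 y T - ∑ j, c j * MP069854.Qk 3 (x j) T‖ +
          ‖∑ j, c j * MP069854.Qk 3 (x j) T - ∑ j, c j * l j‖ := norm_sub_le_norm_sub_add_norm_sub _ _ _
      have h5 : 4 * e * (1 + Xf T) ≤ ε / 4 := by
        have : 4 * e * (1 + Xf T) ≤ 4 * e * (1 + B) := by gcongr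
        refine this.trans (le_of_eq ?_)
        rw [he]; field_simp; norm_num
      linarith
    obtain ⟨N, hN⟩ := eventually_atTop.1 hev
    refine ⟨N, fun n hn => ?_⟩
    have a1 := hN n hn
    have a2 := hN N le_rfl
    have a3 := dist_triangle_right (MP069854.Qk 3 y n) (MP069854.Qk 3 y N) (∑ j, c j * l j)
    linarith
  exact cauchySeq_tendsto_of_complete hc

/-- **prediction on `J` implies prediction everywhere** -/
theorem conv_pred (hW : WeylB) {J : Set ℝ} {p : ℝ} (hp : AccPt p (𝓟 J)) {w : ℝ → ℂ} {B' : ℝ} (hB' : 0 ≤ B')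
    (hw : ∀ (m : ℕ) (x : Fin m → ℝ) (c : Fin m → ℂ) (y ε : ℝ),
      (∀ u : ℝ, 0 ≤ u → u ≤ 6 → ‖exp (-(I * y * u)) - ∑ j, c j * exp (-(I * x j * u))‖ ≤ ε) →
      ‖w y - ∑ j, c j * w (x j)‖ ≤ B' * ε)
    (hJ : ∀ x ∈ J, Tendsto (fun T => MP069854.Qk 3 x T) atTop (𝓝 (w x))) (y : ℝ) :
    Tendsto (fun T => MP069854.Qk 3 y T) atTop (𝓝 (w y)) := by
  obtain ⟨B, hB, hXB⟩ := X_bdd hW hp fun x hx => ⟨_, hJ x hx⟩
  rw [Metric.tendsto_nhds]
  intro ε hε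
  set e := ε / (16 * (1 + B + B')) with he
  have he0 : 0 < e := by positivity
  obtain ⟨m, x, c, hx, hP, hT⟩ := approx_point hW hp y he0
  have hlim : Tendsto (fun T : ℝ => ∑ j, c j * MP069854.Qk 3 (x j) T) atTop (𝓝 (∑ j, c j * w (x j))) :=
    tendsto_finsetSum _ fun j _ => (hJ (x j) (hx j)).const_mul (c j)
  have h0 := hw m x c y e hP
  filter_upwards [hT, hXB, (Metric.tendsto_nhds.1 hlim) (ε / 4) (by positivity)] with T h1 h2 h3
  rw [dist_eq_norm] at h3 ⊢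
  have h4 : ‖MP069854.Qk 3 y T - w y‖ ≤ ‖MP069854.Qk 3 y T - ∑ j, c j * MP069854.Qk 3 (x j) T‖ + ‖∑ j, c j * MP069854.Qk 3 (x j) T - w y‖ :=
    norm_sub_le_norm_sub_add_norm_sub _ _ _
  have h5 : ‖∑ j, c j * MP069854.Qk 3 (x j) T - w y‖ ≤ ‖∑ j, c j * MP069854.Qk 3 (x j) T - ∑ j, c j * w (x j)‖ +
      ‖∑ j, c j * w (x j) - w y‖ := norm_sub_le_norm_sub_add_norm_sub _ _ _
  rw [norm_sub_rev (∑ j, c j * w (x j)) (w y)] at h5
  have h6 : 4 * e * (1 + Xf T) + B' * e ≤ ε / 4 := by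
    have a1 : 4 * e * (1 + Xf T) ≤ 4 * e * (1 + B) := by gcongr
    have a2 : 4 * e * (1 + B + B') = ε / 4 := by rw [he]; field_simp; norm_num
    nlinarith
  linarith

end OSX
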