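import Pool.Agent.Lib.MP_39df77_nt.OS.OSP

set_option autoImplicit false

namespace MP069854
open Filter Topology Complex Set MeasureTheory
open scoped ContDiff FourierTransform

/-- `cos(x(u-3)) - cos x + ε` -/
noncomputable def Dx (x ε u : ℝ) : ℝ := Real.cos (x * (u - 3)) - Real.cos x + ε

lemma Dx_pos {x ε η : ℝ} (hx0 : 0 < x) (hx : x ≤ Real.pi) (hε : 0 < ε) (hη2 : 4 * η < ε)
    {u : ℝ} (hu : |u - 3| ≤ 1 + η) : 0 < Dx x ε u := by
  unfold Dx
  have habs : Real.cos (x * (u - 3)) = Real.cos (x * |u - 3|) := by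
    rw [← Real.cos_abs (x * (u - 3)), abs_mul, abs_of_pos hx0]
  rw [habs]
  rcases le_or_gt (x * |u - 3|) x with h | h
  · have := Real.cos_le_cos_of_nonneg_of_le_pi (by positivity) hx h
    linarith
  · have h1 := Real.abs_cos_sub_cos_le (x * |u - 3|) x
    rw [abs_of_pos (by linarith : 0 < x * |u - 3| - x)] at h1
    have h2 := (abs_le.1 h1).1
    have h3 : x * |u - 3| - x ≤ x * η := by nlinarith
    have h4 : 0 < η := by
      by_contra hcon
      push Not at hcon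
      nlinarith
    have h5 : x * η ≤ 4 * η := by
      have := Real.pi_lt_four
      nlinarith
    linarith

lemma Dx_smooth (x ε : ℝ) : ContDiff ℝ ∞ (Dx x ε) := by
  unfold Dx
  fun_prop

lemma exists_root {x ε : ℝ} (hx0 : 0 < x) (hx : x ≤ Real.pi) (hε : 0 < ε) :
    ∃ (h : ℤ → ℂ) (η : ℝ), 0 < η ∧ (∀ m : ℕ, Summable fun n : ℤ => |(n : ℝ)| ^ m * ‖h n‖) ∧
      ∀ u : ℝ, 2 - η ≤ u → u ≤ 4 + η → ‖FZ (x / 2) h u‖ ^ 2 = Dx x ε u := by
  obtain ⟨η, hη, hη2, hη3⟩ : ∃ η : ℝ, 0 < η ∧ 8 * η < ε ∧ η < 1 / 4 := by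
    refine ⟨min (ε / 16) (1 / 8), by positivity, ?_, ?_⟩
    · have := min_le_left (ε / 16) (1 / 8 : ℝ); linarith
    · have := min_le_right (ε / 16) (1 / 8 : ℝ); linarith
  let f : ContDiffBump (3 : ℝ) := ⟨1 + η, 1 + 2 * η, by linarith, by linarith⟩
  have hpos : ∀ u : ℝ, u ∈ Metric.closedBall (3 : ℝ) (1 + 2 * η) → 0 < Dx x ε u := by
    intro u hu
    rw [Metric.mem_closedBall, Real.dist_eq] at hu
    exact Dx_pos hx0 hx hε (η := 2 * η) (by linarith) hu
  set b0 : ℝ → ℝ := fun u => f u * √(Dx x ε u) with hb0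
  have hb0s : ContDiff ℝ ∞ b0 := by
    rw [contDiff_iff_contDiffAt]
    intro u
    by_cases hu : u ∈ Metric.closedBall (3 : ℝ) (1 + 2 * η)
    · exact f.contDiffAt.mul (((Dx_smooth x ε).contDiffAt).sqrt (hpos u hu).ne')
    · have : u ∉ tsupport f := by rw [f.tsupport_eq]; exact hu
      have h0 : b0 =ᶠ[𝓝 u] fun _ => 0 := by
        filter_upwards [notMem_tsupport_iff_eventuallyEq.1 this] with v hv
        rw [hb0]
        simp only
        rw [hv]
        simp
      exact contDiffAt_const.congr_of_eventuallyEq h0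
  set b : ℝ → ℂ := fun u => ((b0 u : ℝ) : ℂ) with hb
  have tb : TF b (2 - 2 * η) (4 + 2 * η) := by
    refine ⟨Complex.ofRealCLM.contDiff.comp hb0s, ?_⟩
    refine closure_minimal ?_ isClosed_Icc
    intro u hu
    have hu' : b u ≠ 0 := hu
    have : u ∈ tsupport f := by
      apply subset_tsupport
      intro h0
      apply hu'
      rw [hb, hb0]
      simp only
      rw [h0]
      simp
    rw [f.tsupport_eq, Real.closedBall_eq_Icc] at this
    have h1 : (3 : ℝ) - (1 + 2 * η) ≤ u := this.1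
    have h2 : u ≤ (3 : ℝ) + (1 + 2 * η) := this.2
    exact ⟨by linarith, by linarith⟩
  have hlen : (4 + 2 * η) - (2 - 2 * η) < 2 * Real.pi / (x / 2) := by
    rw [lt_div_iff₀ (by positivity)]
    nlinarith [Real.pi_pos]
  obtain ⟨h, h1, h2⟩ := poisson_coeff (by positivity : 0 < x / 2) tb hlen
  refine ⟨h, η, hη, h1, fun u hu1 hu2 => ?_⟩
  rw [h2 u (by linarith) (by linarith)]
  have hf : f u = 1 := f.one_of_mem_closedBall (by
    rw [Metric.mem_closedBall, Real.dist_eq, abs_le]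
    show -(1 + η) ≤ u - 3 ∧ u - 3 ≤ 1 + η
    exact ⟨by linarith, by linarith⟩)
  have hp : 0 < Dx x ε u := hpos u (by
    rw [Metric.mem_closedBall, Real.dist_eq, abs_le]
    exact ⟨by linarith, by linarith⟩)
  show ‖((f u * √(Dx x ε u) : ℝ) : ℂ)‖ ^ 2 = _
  rw [hf, one_mul, Complex.norm_real, Real.norm_eq_abs, sq_abs, Real.sq_sqrt hp.le]

end MP069854
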