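import Pool.Agent.Lib.MP_39df77_nt.Part23

set_option autoImplicit false

namespace OSV
open Filter Topology Complex Set MeasureTheory
open scoped ComplexConjugate

/-- rapidly decreasing -/
def RD (h : ℤ → ℂ) : Prop := ∀ m : ℕ, Summable fun n : ℤ => |(n : ℝ)| ^ m * ‖h n‖

/-- autocorrelation -/
noncomputable def cv (h : ℤ → ℂ) (n : ℤ) : ℂ := ∑' m : ℤ, h (m + n) * conj (h m)

/-- truncated trigonometric sum -/
noncomputable def FF (δ : ℝ) (s : Finset ℤ) (h : ℤ → ℂ) (u : ℝ) : ℂ :=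
  ∑ n ∈ s, h n * exp (-(((δ * n : ℝ) : ℂ) * u) * I)

variable {h : ℤ → ℂ}

lemma RD.one (hh : RD h) (k : ℕ) : Summable fun n : ℤ => (1 + |(n : ℝ)|) ^ k * ‖h n‖ := by
  have h1 := ((hh 0).add (hh k)).mul_left ((2 : ℝ) ^ k)
  refine Summable.of_nonneg_of_le (fun n => by positivity) (fun n => ?_) h1
  have ha : 0 ≤ |(n : ℝ)| := abs_nonneg _
  rw [pow_zero, one_mul, ← one_add_mul, ← mul_assoc]
  refine mul_le_mul_of_nonneg_right ?_ (norm_nonneg _)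
  rcases le_total |(n : ℝ)| 1 with h2 | h2
  · calc (1 + |(n : ℝ)|) ^ k ≤ 2 ^ k := by
          apply pow_le_pow_left₀ (by positivity); linarith
      _ ≤ 2 ^ k * (1 + |(n : ℝ)| ^ k) := by
          have : 0 ≤ (2 : ℝ) ^ k * |(n : ℝ)| ^ k := by positivity
          linarith
  · calc (1 + |(n : ℝ)|) ^ k ≤ (2 * |(n : ℝ)|) ^ k := by
          apply pow_le_pow_left₀ (by positivity); linarith
      _ = 2 ^ k * |(n : ℝ)| ^ k := mul_pow _ _ _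
      _ ≤ 2 ^ k * (1 + |(n : ℝ)| ^ k) := by
          have : 0 ≤ (2 : ℝ) ^ k := by positivity
          linarith

/-- the weight on pairs -/
noncomputable def W (h : ℤ → ℂ) (k : ℕ) (p : ℤ × ℤ) : ℝ :=
  (1 + |((p.1 - p.2 : ℤ) : ℝ)|) ^ k * (‖h p.1‖ * ‖h p.2‖)

lemma W_nonneg (k : ℕ) (p : ℤ × ℤ) : 0 ≤ W h k p := by unfold W; positivity

lemma RD.W_summable (hh : RD h) (k : ℕ) : Summable (W h k) := by
  have h1 := (hh.one k).mul_of_nonneg (hh.one k) (fun n => by positivity) (fun n => by positivity)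
  refine Summable.of_nonneg_of_le (W_nonneg k) (fun p => ?_) h1
  unfold W
  have h2 : 1 + |((p.1 - p.2 : ℤ) : ℝ)| ≤ (1 + |(p.1 : ℝ)|) * (1 + |(p.2 : ℝ)|) := by
    push_cast
    have := abs_sub (p.1 : ℝ) (p.2 : ℝ)
    nlinarith [abs_nonneg (p.1 : ℝ), abs_nonneg (p.2 : ℝ), mul_nonneg (abs_nonneg (p.1 : ℝ)) (abs_nonneg (p.2 : ℝ))]
  calc (1 + |((p.1 - p.2 : ℤ) : ℝ)|) ^ k * (‖h p.1‖ * ‖h p.2‖)
      ≤ ((1 + |(p.1 : ℝ)|) * (1 + |(p.2 : ℝ)|)) ^ k * (‖h p.1‖ * ‖h p.2‖) := by gcongr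
    _ = _ := by rw [mul_pow]; ring

/-- the general term -/
noncomputable def TT (h g : ℤ → ℂ) (p : ℤ × ℤ) : ℂ := h p.1 * conj (h p.2) * g (p.1 - p.2)

lemma TT_le {g : ℤ → ℂ} {K : ℝ} {k : ℕ} (hg : ∀ n : ℤ, ‖g n‖ ≤ K * (1 + |(n : ℝ)|) ^ k) (p : ℤ × ℤ) :
    ‖TT h g p‖ ≤ K * W h k p := by
  unfold TT W
  rw [norm_mul, norm_mul, RCLike.norm_conj]
  calc ‖h p.1‖ * ‖h p.2‖ * ‖g (p.1 - p.2)‖ ≤ ‖h p.1‖ * ‖h p.2‖ * (K * (1 + |((p.1 - p.2 : ℤ) : ℝ)|) ^ k) := by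
        gcongr; exact hg _
    _ = _ := by ring

lemma TT_summable (hh : RD h) {g : ℤ → ℂ} {K : ℝ} {k : ℕ} (hg : ∀ n : ℤ, ‖g n‖ ≤ K * (1 + |(n : ℝ)|) ^ k) :
    Summable fun p => ‖TT h g p‖ :=
  Summable.of_nonneg_of_le (fun _ => norm_nonneg _) (TT_le hg) ((hh.W_summable k).mul_left K)

/-- reindexing -/
def ee : ℤ × ℤ ≃ ℤ × ℤ where
  toFun q := (q.2 + q.1, q.2)
  invFun p := (p.1 - p.2, p.2)
  left_inv q := by simp
  right_inv p := by simp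

lemma TT_ee (g : ℤ → ℂ) (q : ℤ × ℤ) : TT h g (ee q) = h (q.2 + q.1) * conj (h q.2) * g q.1 := by
  unfold TT ee
  simp

lemma cv_tsum (hh : RD h) {g : ℤ → ℂ} {K : ℝ} {k : ℕ} (hg : ∀ n : ℤ, ‖g n‖ ≤ K * (1 + |(n : ℝ)|) ^ k) :
    ∑' n : ℤ, cv h n * g n = ∑' p, TT h g p := by
  have h1 := (TT_summable hh hg).of_norm
  rw [← ee.tsum_eq]
  have h2 : Summable fun q => TT h g (ee q) := (ee.summable_iff).2 h1
  rw [h2.tsum_prod]
  refine tsum_congr fun n => ?_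
  simp only [TT_ee]
  unfold cv
  rw [tsum_mul_right]

lemma cv_RD (hh : RD h) : RD (cv h) := by
  intro k
  have h1 : Summable fun q : ℤ × ℤ => W h k (ee q) := (ee.summable_iff).2 (hh.W_summable k)
  have h2 := h1.prod
  have hsec : ∀ n : ℤ, Summable fun m : ℤ => W h k (ee (n, m)) := fun n => h1.prod_factor n
  refine Summable.of_nonneg_of_le (fun n => by positivity) (fun n => ?_) h2
  have e : ∀ m : ℤ, W h k (ee (n, m)) = (1 + |(n : ℝ)|) ^ k * ‖h (m + n) * conj (h m)‖ := by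
    intro m
    unfold W ee
    simp only [Equiv.coe_fn_mk, add_sub_cancel_left, norm_mul, RCLike.norm_conj]
  simp only [e]
  have hpos : (0 : ℝ) < (1 + |(n : ℝ)|) ^ k := by positivity
  have h3 : Summable fun m : ℤ => ‖h (m + n) * conj (h m)‖ := by
    have := (hsec n).mul_left ((1 + |(n : ℝ)|) ^ k)⁻¹
    refine this.congr fun m => ?_
    rw [e, inv_mul_cancel_left₀ hpos.ne']
  rw [tsum_mul_left]
  have h4 : ‖cv h n‖ ≤ ∑' m : ℤ, ‖h (m + n) * conj (h m)‖ := norm_tsum_le_tsum_norm h3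
  have h5 : |(n : ℝ)| ^ k ≤ (1 + |(n : ℝ)|) ^ k := by
    apply pow_le_pow_left₀ (abs_nonneg _); linarith
  exact mul_le_mul h5 h4 (norm_nonneg _) hpos.le

/-- **truncation** -/
lemma cv_trunc (hh : RD h) (k : ℕ) {ε : ℝ} (hε : 0 < ε) : ∃ s : Finset ℤ, ∀ (g : ℤ → ℂ) (K : ℝ),
    (∀ n : ℤ, ‖g n‖ ≤ K * (1 + |(n : ℝ)|) ^ k) →
    ‖∑' n : ℤ, cv h n * g n - ∑ m ∈ s, ∑ n ∈ s, h m * conj (h n) * g (m - n)‖ ≤ ε * K := by
  have hW := hh.W_summable k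
  have hlim := tendsto_tsum_compl_atTop_zero (W h k)
  have hev := hlim.eventually (gt_mem_nhds hε)
  rw [eventually_atTop] at hev
  obtain ⟨t0, ht0⟩ := hev
  refine ⟨t0.image Prod.fst ∪ t0.image Prod.snd, fun g K hg => ?_⟩
  set s := t0.image Prod.fst ∪ t0.image Prod.snd with hs
  have hsub : t0 ⊆ s ×ˢ s := by
    intro p hp
    rw [Finset.mem_product]
    exact ⟨Finset.mem_union_left _ (Finset.mem_image_of_mem _ hp),
      Finset.mem_union_right _ (Finset.mem_image_of_mem _ hp)⟩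
  have hK : 0 ≤ K := by
    have := (norm_nonneg _).trans (hg 0)
    simpa using this
  have h1 := (TT_summable hh hg)
  rw [cv_tsum hh hg, ← Finset.sum_product' s s (fun m n => h m * conj (h n) * g (m - n)),
    ← h1.of_norm.sum_add_tsum_compl (s := s ×ˢ s)]
  have e : ∑ p ∈ s ×ˢ s, h p.1 * conj (h p.2) * g (p.1 - p.2) = ∑ p ∈ s ×ˢ s, TT h g p := rfl
  rw [e, add_sub_cancel_left]
  have h2 : Summable fun p : { p // p ∉ s ×ˢ s } => ‖TT h g p‖ := h1.subtype _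
  have h3 : Summable fun p : { p // p ∉ s ×ˢ s } => W h k p := hW.subtype _
  calc ‖∑' p : { p // p ∉ s ×ˢ s }, TT h g p‖ ≤ ∑' p : { p // p ∉ s ×ˢ s }, ‖TT h g p‖ :=
        norm_tsum_le_tsum_norm h2
    _ ≤ ∑' p : { p // p ∉ s ×ˢ s }, K * W h k p := h2.tsum_le_tsum (fun p => TT_le hg p) (h3.mul_left K)
    _ = K * ∑' p : { p // p ∉ s ×ˢ s }, W h k p := tsum_mul_left
    _ ≤ K * ε := by
        gcongr
        exact (ht0 _ hsub).le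
    _ = ε * K := mul_comm _ _

lemma ph_norm (δ : ℝ) (n : ℤ) (u : ℝ) : ‖exp (-(((δ * n : ℝ) : ℂ) * u) * I)‖ = 1 := by
  have : (-(((δ * n : ℝ) : ℂ) * u) * I) = ((-(δ * n * u) : ℝ) : ℂ) * I := by push_cast; ring
  rw [this, norm_exp_ofReal_mul_I]

lemma ph_mul (δ : ℝ) (m n : ℤ) (u : ℝ) : exp (-(((δ * (m - n : ℤ) : ℝ) : ℂ) * u) * I) =
    exp (-(((δ * m : ℝ) : ℂ) * u) * I) * conj (exp (-(((δ * n : ℝ) : ℂ) * u) * I)) := by
  rw [← exp_conj, ← Complex.exp_add]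
  congr 1
  simp only [map_neg, map_mul, conj_ofReal, conj_I]
  push_cast
  ring

lemma ph_bd (δ u : ℝ) (k : ℕ) (n : ℤ) : ‖exp (-(((δ * n : ℝ) : ℂ) * u) * I)‖ ≤ 1 * (1 + |(n : ℝ)|) ^ k := by
  rw [ph_norm, one_mul]
  exact one_le_pow₀ (by linarith [abs_nonneg (n : ℝ)])

lemma FZ_cv (hh : RD h) (δ u : ℝ) : MP069854.FZ δ (cv h) u = ((‖MP069854.FZ δ h u‖ ^ 2 : ℝ) : ℂ) := by
  unfold MP069854.FZ
  rw [cv_tsum hh (k := 0) (ph_bd δ u 0)]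
  have h0 : Summable fun n : ℤ => ‖h n * exp (-(((δ * n : ℝ) : ℂ) * u) * I)‖ := by
    refine (hh 0).congr fun n => ?_
    rw [norm_mul, ph_norm]; simp
  have h1 : Summable fun n : ℤ => ‖conj (h n * exp (-(((δ * n : ℝ) : ℂ) * u) * I))‖ := by
    simpa only [RCLike.norm_conj] using h0
  have h2 := tsum_mul_tsum_of_summable_norm h0 h1
  rw [← conj_tsum, mul_conj, normSq_eq_norm_sq] at h2
  rw [h2]
  refine tsum_congr fun p => ?_
  unfold TT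
  simp only
  rw [ph_mul, map_mul]
  ring

lemma FF_sq (δ : ℝ) (s : Finset ℤ) (h : ℤ → ℂ) (u : ℝ) :
    ∑ m ∈ s, ∑ n ∈ s, h m * conj (h n) * exp (-(((δ * (m - n : ℤ) : ℝ) : ℂ) * u) * I) =
      ((‖FF δ s h u‖ ^ 2 : ℝ) : ℂ) := by
  rw [← normSq_eq_norm_sq, ← mul_conj]
  unfold FF
  rw [map_sum, Finset.sum_mul_sum]
  refine Finset.sum_congr rfl fun m _ => Finset.sum_congr rfl fun n _ => ?_
  rw [ph_mul, map_mul]
  ring

/-- **truncation of the trigonometric series**, uniform in `u` -/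
lemma FZ_trunc (hh : RD h) (k : ℕ) {ε : ℝ} (hε : 0 < ε) : ∃ s : Finset ℤ, (∀ (g : ℤ → ℂ) (K : ℝ),
    (∀ n : ℤ, ‖g n‖ ≤ K * (1 + |(n : ℝ)|) ^ k) →
    ‖∑' n : ℤ, cv h n * g n - ∑ m ∈ s, ∑ n ∈ s, h m * conj (h n) * g (m - n)‖ ≤ ε * K) ∧
    ∀ δ u : ℝ, |‖MP069854.FZ δ h u‖ ^ 2 - ‖FF δ s h u‖ ^ 2| ≤ ε := by
  obtain ⟨s, hs⟩ := cv_trunc hh k hε
  refine ⟨s, hs, fun δ u => ?_⟩
  have h1 := hs _ 1 (ph_bd δ u k)
  rw [FF_sq] at h1
  have h2 := FZ_cv hh δ u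
  unfold MP069854.FZ at h2 ⊢
  rw [h2, ← ofReal_sub, Complex.norm_real, Real.norm_eq_abs, mul_one] at h1
  exact h1

end OSV
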