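import Pool.Agent.Lib.MP_39df77_nt.OS.OSX_A

set_option autoImplicit false

namespace OSX
open Filter Topology Complex Set MeasureTheory
open scoped ComplexConjugate

/-- two windows -/
theorem window {E : Type*} [NormedAddCommGroup E] [NormedSpace ℝ E] [CompleteSpace E] {g : ℝ → E} (hg : Continuous g) {T Y v K : ℝ}
    (hT : 0 ≤ T) (hv : |v| ≤ Y) (hK : ∀ t : ℝ, |t| ≤ T + Y → ‖g t‖ ≤ K) :
    ‖(∫ t in v..(T + v), g t) - ∫ t in (0:ℝ)..T, g t‖ ≤ 2 * Y * K := by
  have hi : ∀ a b : ℝ, IntervalIntegrable g volume a b := fun a b => hg.intervalIntegrable a b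
  have h1 : (∫ t in v..(T + v), g t) - ∫ t in (0:ℝ)..T, g t =
      (∫ t in T..(T + v), g t) - ∫ t in (0:ℝ)..v, g t := by
    have e1 := intervalIntegral.integral_add_adjacent_intervals (hi 0 v) (hi v (T + v))
    have e2 := intervalIntegral.integral_add_adjacent_intervals (hi 0 T) (hi T (T + v))
    have e3 : (∫ t in v..(T + v), g t) = (∫ t in (0:ℝ)..(T + v), g t) - ∫ t in (0:ℝ)..v, g t := by
      rw [← e1]; abel
    rw [e3, ← e2]; abel
  have hY : 0 ≤ Y := (abs_nonneg v).trans hv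
  have hK0 : 0 ≤ K := (norm_nonneg _).trans (hK 0 (by rw [abs_zero]; linarith))
  have hv' := abs_le.1 hv
  have b1 : ‖∫ t in T..(T + v), g t‖ ≤ K * |T + v - T| := by
    refine intervalIntegral.norm_integral_le_of_norm_le_const fun t ht => hK t ?_
    rw [abs_le]
    rcases le_total v 0 with h | h
    · rw [uIoc_of_ge (by linarith)] at ht
      exact ⟨by linarith [ht.1], by linarith [ht.2]⟩
    · rw [uIoc_of_le (by linarith)] at ht
      exact ⟨by linarith [ht.1], by linarith [ht.2]⟩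
  have b2 : ‖∫ t in (0:ℝ)..v, g t‖ ≤ K * |v - 0| := by
    refine intervalIntegral.norm_integral_le_of_norm_le_const fun t ht => hK t ?_
    rw [abs_le]
    rcases le_total v 0 with h | h
    · rw [uIoc_of_ge (by linarith)] at ht
      exact ⟨by linarith [ht.1], by linarith [ht.2]⟩
    · rw [uIoc_of_le (by linarith)] at ht
      exact ⟨by linarith [ht.1], by linarith [ht.2]⟩
  rw [h1]
  have e4 : T + v - T = v := by ring
  rw [e4] at b1
  rw [sub_zero] at b2
  have b3 : K * |v| ≤ K * Y := mul_le_mul_of_nonneg_left hv hK0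
  calc ‖(∫ t in T..(T + v), g t) - ∫ t in (0:ℝ)..v, g t‖ ≤
        ‖∫ t in T..(T + v), g t‖ + ‖∫ t in (0:ℝ)..v, g t‖ := norm_sub_le _ _
    _ ≤ 2 * Y * K := by linarith

theorem log_ge_one {T : ℝ} (hT : 3 ≤ T) : 1 ≤ Real.log T := by
  rw [Real.le_log_iff_exp_le (by linarith)]
  linarith [Real.exp_one_lt_d9]

theorem shift_int {g : ℝ → ℂ} (T v : ℝ) : ∫ t in (0:ℝ)..T, g (t + v) = ∫ t in v..(T + v), g t := by
  rw [intervalIntegral.integral_comp_add_right]; simp

theorem shift_int' {g : ℝ → ℝ} (T v : ℝ) : ∫ t in (0:ℝ)..T, g (t + v) = ∫ t in v..(T + v), g t := by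
  rw [intervalIntegral.integral_comp_add_right]; simp

theorem Qk_bound (hW : WeylB) : ∃ C : ℝ, 0 < C ∧ ∀ T α : ℝ, 3 ≤ T →
    ‖MP069854.Qk 3 α T‖ ≤ (1 + |α|) ^ 8 * ((MP069854.Qk 3 0 T).re + C * (Real.log T)⁻¹ ^ 3) := by
  obtain ⟨C, hC, hF⟩ := F3_sq_le hW
  refine ⟨2 * C, by positivity, fun T α hT => ?_⟩
  have hL1 := log_ge_one hT
  set L := Real.log T with hL
  have hL0 : 0 < L := by linarith
  have hT0 : 0 < T := by linarith
  set v := α / L with hv
  have hvα : |v| ≤ |α| := by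
    rw [hv, abs_div, abs_of_pos hL0]
    exact div_le_self (abs_nonneg _) hL1
  set K := C * T * (1 + |α|) ^ 7 * L ^ 6 with hK
  have hFK : ∀ t : ℝ, |t| ≤ T + |α| → ‖F3 t‖ ^ 2 ≤ K := fun t ht => hF T |α| t hT (abs_nonneg _) ht
  have hc2 : Continuous fun t : ℝ => ‖F3 t‖ ^ 2 := F3_cont.norm.pow 2
  set I0 := ∫ t in (0:ℝ)..T, ‖F3 t‖ ^ 2 with hI0
  have w1 := window hc2 hT0.le hvα (fun t ht => by
    rw [Real.norm_eq_abs, abs_of_nonneg (by positivity)]; exact hFK t ht)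
  have w2 := window (v := -v) (Y := |α|) hc2 hT0.le (by rwa [abs_neg]) (fun t ht => by
    rw [Real.norm_eq_abs, abs_of_nonneg (by positivity)]; exact hFK t ht)
  rw [Real.norm_eq_abs] at w1 w2
  have w1' := (abs_le.1 w1).2
  have w2' := (abs_le.1 w2).2
  rw [← shift_int' (g := fun t => ‖F3 t‖ ^ 2)] at w1' w2'
  have hcv : ∀ v : ℝ, Continuous fun t : ℝ => ‖F3 (t + v)‖ ^ 2 := fun v =>
    (F3_cont.comp (by fun_prop : Continuous fun t : ℝ => t + v)).norm.pow 2
  have hmain : ‖∫ t in (0:ℝ)..T, F3 (t + v) * conj (F3 (t - v))‖ ≤ I0 + 2 * |α| * K := by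
    have h1 : ‖∫ t in (0:ℝ)..T, F3 (t + v) * conj (F3 (t - v))‖ ≤
        ∫ t in (0:ℝ)..T, (1 / 2) * (‖F3 (t + v)‖ ^ 2 + ‖F3 (t + -v)‖ ^ 2) := by
      refine (intervalIntegral.norm_integral_le_integral_norm hT0.le).trans ?_
      refine intervalIntegral.integral_mono_on hT0.le ?_ ?_ fun t _ => ?_
      · apply Continuous.intervalIntegrable
        have a1 : Continuous fun t : ℝ => F3 (t + v) := F3_cont.comp (by fun_prop)
        have a2 : Continuous fun t : ℝ => F3 (t - v) := F3_cont.comp (by fun_prop)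
        exact (a1.mul (continuous_conj.comp a2)).norm
      · exact (continuous_const.mul ((hcv v).add (hcv (-v)))).intervalIntegrable _ _
      · rw [norm_mul, RCLike.norm_conj, ← sub_eq_add_neg]
        nlinarith [sq_nonneg (‖F3 (t + v)‖ - ‖F3 (t - v)‖)]
    refine h1.trans ?_
    rw [intervalIntegral.integral_const_mul, intervalIntegral.integral_add
      ((hcv v).intervalIntegrable _ _) ((hcv (-v)).intervalIntegrable _ _)]
    linarith
  rw [Qk_eq, Qk_zero, ofReal_re, ← hL, ← hv, ← hI0, norm_mul, norm_inv, Complex.norm_real,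
    Real.norm_eq_abs, abs_of_pos (by positivity)]
  have hTL : 0 < T * L ^ 9 := by positivity
  have hI : 0 ≤ I0 := intervalIntegral.integral_nonneg hT0.le fun _ _ => by positivity
  have h8 : (1 : ℝ) ≤ (1 + |α|) ^ 8 := one_le_pow₀ (by linarith [abs_nonneg α])
  calc (T * L ^ 9)⁻¹ * ‖∫ t in (0:ℝ)..T, F3 (t + v) * conj (F3 (t - v))‖
      ≤ (T * L ^ 9)⁻¹ * (I0 + 2 * |α| * K) := by gcongr
    _ = (T * L ^ 9)⁻¹ * I0 + |α| * (1 + |α|) ^ 7 * (2 * C * L⁻¹ ^ 3) := by
        rw [hK]; field_simp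
    _ ≤ (1 + |α|) ^ 8 * ((T * L ^ 9)⁻¹ * I0) + (1 + |α|) ^ 8 * (2 * C * L⁻¹ ^ 3) := by
        refine add_le_add ?_ ?_
        · have : 0 ≤ (T * L ^ 9)⁻¹ * I0 := by positivity
          nlinarith
        · have h9 : |α| * (1 + |α|) ^ 7 ≤ (1 + |α|) ^ 8 := by
            rw [pow_succ' (1 + |α|) 7]
            gcongr
            linarith
          have : 0 ≤ 2 * C * L⁻¹ ^ 3 := by positivity
          exact mul_le_mul_of_nonneg_right h9 this
    _ = _ := by ring

theorem cross (hW : WeylB) : ∃ C : ℝ, 0 < C ∧ ∀ T a b : ℝ, 3 ≤ T →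
    ‖((T * Real.log T ^ 9 : ℝ) : ℂ)⁻¹ * (∫ t in (0:ℝ)..T, F3 (t + a / Real.log T) *
      conj (F3 (t + b / Real.log T))) - MP069854.Qk 3 ((a - b) / 2) T‖ ≤
    C * (1 + |a| + |b|) ^ 8 * (Real.log T)⁻¹ ^ 3 := by
  obtain ⟨C, hC, hF⟩ := F3_sq_le hW
  refine ⟨2 * C, by positivity, fun T a b hT => ?_⟩
  have hL1 := log_ge_one hT
  set L := Real.log T with hL
  have hL0 : 0 < L := by linarith
  have hT0 : 0 < T := by linarith
  set Y := |a| + |b| with hY
  have hY0 : 0 ≤ Y := by positivity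
  have ha : |a / L| ≤ |a| := by
    rw [abs_div, abs_of_pos hL0]; exact div_le_self (abs_nonneg _) hL1
  have hb : |b / L| ≤ |b| := by
    rw [abs_div, abs_of_pos hL0]; exact div_le_self (abs_nonneg _) hL1
  -- centred function
  set w := (a - b) / 2 / L with hw
  set v := (a + b) / 2 / L with hv
  have hwb : |w| ≤ Y / 2 := by
    rw [hw, abs_div, abs_div, abs_of_pos hL0, abs_two]
    have h1 : |a - b| ≤ Y := abs_sub a b
    calc |a - b| / 2 / L ≤ |a - b| / 2 := div_le_self (by positivity) hL1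
      _ ≤ Y / 2 := by linarith
  have hvb : |v| ≤ Y / 2 := by
    rw [hv, abs_div, abs_div, abs_of_pos hL0, abs_two]
    have h1 : |a + b| ≤ Y := abs_add_le a b
    calc |a + b| / 2 / L ≤ |a + b| / 2 := div_le_self (by positivity) hL1
      _ ≤ Y / 2 := by linarith
  set g : ℝ → ℂ := fun t => F3 (t + w) * conj (F3 (t - w)) with hg
  have hgc : Continuous g := by
    have a1 : Continuous fun t : ℝ => F3 (t + w) := F3_cont.comp (by fun_prop)
    have a2 : Continuous fun t : ℝ => F3 (t - w) := F3_cont.comp (by fun_prop)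
    exact a1.mul (continuous_conj.comp a2)
  set K := C * T * (1 + Y) ^ 7 * L ^ 6 with hK
  have hgK : ∀ t : ℝ, |t| ≤ T + Y / 2 → ‖g t‖ ≤ K := by
    intro t ht
    have h1 := hF T Y (t + w) hT hY0 (by
      have := abs_add_le t w
      linarith)
    have h2 := hF T Y (t - w) hT hY0 (by
      have := abs_sub t w
      linarith)
    rw [hg]
    simp only
    rw [norm_mul, RCLike.norm_conj]
    nlinarith [sq_nonneg (‖F3 (t + w)‖ - ‖F3 (t - w)‖)]
  have hwin := window hgc hT0.le hvb hgK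
  rw [← shift_int] at hwin
  have e1 : ∀ t : ℝ, g (t + v) = F3 (t + a / L) * conj (F3 (t + b / L)) := by
    intro t
    rw [hg]
    simp only
    have e2 : t + v + w = t + a / L := by rw [hv, hw]; field_simp; ring
    have e3 : t + v - w = t + b / L := by rw [hv, hw]; field_simp; ring
    rw [e2, e3]
  simp only [e1] at hwin
  rw [Qk_eq, ← hL, ← mul_sub, norm_mul, norm_inv, Complex.norm_real,
    Real.norm_eq_abs, abs_of_pos (by positivity)]
  calc (T * L ^ 9)⁻¹ * ‖(∫ t in (0:ℝ)..T, F3 (t + a / L) * conj (F3 (t + b / L))) -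
        ∫ t in (0:ℝ)..T, F3 (t + (a - b) / 2 / L) * conj (F3 (t - (a - b) / 2 / L))‖
      ≤ (T * L ^ 9)⁻¹ * (2 * (Y / 2) * K) := by gcongr
    _ = Y * (1 + Y) ^ 7 * (C * L⁻¹ ^ 3) := by rw [hK]; field_simp
    _ ≤ (1 + Y) ^ 8 * (2 * C * L⁻¹ ^ 3) := by
        have h9 : Y * (1 + Y) ^ 7 ≤ (1 + Y) ^ 8 := by
          rw [pow_succ' (1 + Y) 7]
          gcongr
          linarith
        have h10 : 0 ≤ C * L⁻¹ ^ 3 := by positivity
        have h11 : (0:ℝ) ≤ (1 + Y) ^ 8 := by positivity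
        calc Y * (1 + Y) ^ 7 * (C * L⁻¹ ^ 3) ≤ (1 + Y) ^ 8 * (C * L⁻¹ ^ 3) :=
              mul_le_mul_of_nonneg_right h9 h10
          _ ≤ (1 + Y) ^ 8 * (2 * C * L⁻¹ ^ 3) := by
              gcongr
              linarith
    _ = 2 * C * (1 + |a| + |b|) ^ 8 * L⁻¹ ^ 3 := by rw [hY, add_assoc]; ring

end OSX
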