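import Pool.Agent.Lib.MP_069854_nt.Part11
import Pool.Agent.Lib.MP_39df77_nt.OS.OSV
import Pool.Agent.Lib.MP_39df77_nt.OS.OSR
import Pool.Agent.Lib.MP_39df77_nt.OS.OSX_B

set_option autoImplicit false

namespace OSX
open Filter Topology Complex Set MeasureTheory OSV
open scoped ComplexConjugate

/-- the sum of coordinates -/
def sg (u : ℝ × ℝ × ℝ) : ℝ := u.1 + u.2.1 + u.2.2

/-- the density functional (without `a_3`) -/
noncomputable def KE (H : ℝ → ℝ) : ℝ :=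
  (∫ y in (0 : ℝ)..1, (H (2 * y) + H (6 - 2 * y)) * (y ^ 8 / Nat.factorial 8)) +
    ∫ u in K3.Eu, (H (2 * sg u) + H (6 - 2 * sg u)) * K3.Vd u ^ 2

theorem sum_fin (s : Finset ℤ) {E : Type*} [AddCommMonoid E] (g : ℤ → E) :
    ∑ j : Fin s.card, g (s.equivFin.symm j) = ∑ n ∈ s, g n := by
  rw [← Finset.sum_coe_sort s g]
  exact (s.equivFin.symm).sum_comp (fun n : s => g n)

theorem mom_expand (δ : ℝ) (s : Finset ℤ) (h : ℤ → ℂ) (T : ℝ) :
    ((((T * Real.log T ^ 9)⁻¹ * ∫ t in (0 : ℝ)..T,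
      ‖∑ n ∈ s, h n * F3 (t + 2 * δ * n / Real.log T)‖ ^ 2 : ℝ)) : ℂ) =
    ∑ m ∈ s, ∑ n ∈ s, h m * conj (h n) * (((T * Real.log T ^ 9 : ℝ) : ℂ)⁻¹ *
      ∫ t in (0:ℝ)..T, F3 (t + 2 * δ * m / Real.log T) * conj (F3 (t + 2 * δ * n / Real.log T))) := by
  have hc := F3_cont
  have e1 : ∀ t : ℝ, ((‖∑ n ∈ s, h n * F3 (t + 2 * δ * n / Real.log T)‖ ^ 2 : ℝ) : ℂ) =
      ∑ m ∈ s, ∑ n ∈ s, h m * conj (h n) *
        (F3 (t + 2 * δ * m / Real.log T) * conj (F3 (t + 2 * δ * n / Real.log T))) := by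
    intro t
    rw [← normSq_eq_norm_sq, ← mul_conj, map_sum, Finset.sum_mul_sum]
    refine Finset.sum_congr rfl fun m _ => Finset.sum_congr rfl fun n _ => ?_
    rw [map_mul]; ring
  rw [ofReal_mul, ← intervalIntegral.integral_ofReal, ofReal_inv]
  simp only [e1]
  have hi : ∀ m n : ℤ, IntervalIntegrable (fun t : ℝ => h m * conj (h n) *
      (F3 (t + 2 * δ * m / Real.log T) * conj (F3 (t + 2 * δ * n / Real.log T)))) volume 0 T := by
    intro m n
    apply Continuous.intervalIntegrable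
    have h1 : Continuous fun t : ℝ => F3 (t + 2 * δ * m / Real.log T) := hc.comp (by fun_prop)
    have h2 : Continuous fun t : ℝ => F3 (t + 2 * δ * n / Real.log T) := hc.comp (by fun_prop)
    exact continuous_const.mul (h1.mul (continuous_conj.comp h2))
  rw [intervalIntegral.integral_finsetSum (fun m _ => by
    have : (fun t : ℝ => ∑ n ∈ s, h m * conj (h n) *
      (F3 (t + 2 * δ * m / Real.log T) * conj (F3 (t + 2 * δ * n / Real.log T)))) =
      ∑ n ∈ s, fun t : ℝ => h m * conj (h n) *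
      (F3 (t + 2 * δ * m / Real.log T) * conj (F3 (t + 2 * δ * n / Real.log T))) := by
        funext t; rw [Finset.sum_apply]
    rw [this]
    exact IntervalIntegrable.sum _ fun n _ => hi m n), Finset.mul_sum]
  refine Finset.sum_congr rfl fun m _ => ?_
  rw [intervalIntegral.integral_finsetSum (fun n _ => hi m n), Finset.mul_sum]
  refine Finset.sum_congr rfl fun n _ => ?_
  rw [intervalIntegral.integral_const_mul]
  ring

theorem invlog_pow_tendsto : Tendsto (fun T : ℝ => (Real.log T)⁻¹ ^ 3) atTop (𝓝 0) := by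
  have := (Real.tendsto_log_atTop.inv_tendsto_atTop).pow 3
  simpa using this

theorem posFin (hW : WeylB) (δ : ℝ) (s : Finset ℤ) (h : ℤ → ℂ) {ε : ℝ} (hε : 0 < ε) : ∀ᶠ T : ℝ in atTop,
    MP069854.arith 3 * KE (fun u => ‖FF δ s h u‖ ^ 2) - ε ≤
      (∑ m ∈ s, ∑ n ∈ s, h m * conj (h n) * MP069854.Qk 3 (δ * (m - n : ℤ)) T).re := by
  obtain ⟨C, hC, hcr⟩ := cross hW
  have hfin := K3.final0 K3.goodRG (fun j : Fin s.card => 2 * δ * ((s.equivFin.symm j : ℤ) : ℝ))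
    (fun j : Fin s.card => h (s.equivFin.symm j)) (half_pos hε)
  set Kc : ℝ := ∑ m ∈ s, ∑ n ∈ s, ‖h m‖ * ‖h n‖ * (C * (1 + |2 * δ * (m : ℝ)| + |2 * δ * (n : ℝ)|) ^ 8) with hKc
  have hlim : Tendsto (fun T : ℝ => Kc * (Real.log T)⁻¹ ^ 3) atTop (𝓝 0) := by
    simpa using invlog_pow_tendsto.const_mul Kc
  have hev := hlim.eventually (gt_mem_nhds (half_pos hε))
  filter_upwards [hfin, hev, eventually_ge_atTop (3 : ℝ)] with T h1 h2 hT
  have hP : ∀ y : ℝ, K3.Pf (fun j : Fin s.card => 2 * δ * ((s.equivFin.symm j : ℤ) : ℝ))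
      (fun j : Fin s.card => h (s.equivFin.symm j)) y = FF δ s h (2 * y) := by
    intro y
    unfold K3.Pf FF
    rw [← sum_fin s (fun n : ℤ => h n * exp (-(((δ * n : ℝ) : ℂ) * ((2 * y : ℝ) : ℂ)) * I))]
    refine Finset.sum_congr rfl fun j _ => ?_
    congr 2
    push_cast; ring
  have h36 : ∀ y : ℝ, 2 * (3 - y) = 6 - 2 * y := fun y => by ring
  have hS : ∀ t : ℝ, ∑ j : Fin s.card, h (s.equivFin.symm j) * riemannZeta (1 / 2 +
      I * ((2 * δ * ((s.equivFin.symm j : ℤ) : ℝ) : ℝ) : ℂ) / Real.log T + I * t) ^ 3 =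
      ∑ n ∈ s, h n * F3 (t + 2 * δ * n / Real.log T) := by
    intro t
    rw [← sum_fin s (fun n : ℤ => h n * F3 (t + 2 * δ * n / Real.log T))]
    refine Finset.sum_congr rfl fun j _ => ?_
    unfold F3
    congr 3
    push_cast; ring
  simp only [hP, h36] at h1
  have h1' : MP069854.arith 3 * KE (fun u => ‖FF δ s h u‖ ^ 2) - ε / 2 ≤
      (T * Real.log T ^ 9)⁻¹ * ∫ t in (0 : ℝ)..T, ‖∑ n ∈ s, h n * F3 (t + 2 * δ * n / Real.log T)‖ ^ 2 := by
    have e : ∫ t in (0 : ℝ)..T, ‖∑ n ∈ s, h n * F3 (t + 2 * δ * n / Real.log T)‖ ^ 2 =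
        ∫ t in (0 : ℝ)..T, ‖∑ j : Fin s.card, h (s.equivFin.symm j) * riemannZeta (1 / 2 +
      I * ((2 * δ * ((s.equivFin.symm j : ℤ) : ℝ) : ℝ) : ℂ) / Real.log T + I * t) ^ 3‖ ^ 2 := by
      refine intervalIntegral.integral_congr fun t _ => ?_
      show ‖∑ n ∈ s, h n * F3 (t + 2 * δ * n / Real.log T)‖ ^ 2 = _
      rw [← hS]
    rw [e]
    exact h1
  have h3 := mom_expand δ s h T
  have h4 : ‖((((T * Real.log T ^ 9)⁻¹ * ∫ t in (0 : ℝ)..T,
      ‖∑ n ∈ s, h n * F3 (t + 2 * δ * n / Real.log T)‖ ^ 2 : ℝ)) : ℂ) -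
      ∑ m ∈ s, ∑ n ∈ s, h m * conj (h n) * MP069854.Qk 3 (δ * (m - n : ℤ)) T‖ ≤
      Kc * (Real.log T)⁻¹ ^ 3 := by
    rw [h3, ← Finset.sum_sub_distrib, hKc, Finset.sum_mul]
    refine (norm_sum_le _ _).trans (Finset.sum_le_sum fun m _ => ?_)
    rw [← Finset.sum_sub_distrib, Finset.sum_mul]
    refine (norm_sum_le _ _).trans (Finset.sum_le_sum fun n _ => ?_)
    rw [← mul_sub, norm_mul, norm_mul, RCLike.norm_conj, mul_assoc (‖h m‖ * ‖h n‖)]
    have h5 := hcr T (2 * δ * m) (2 * δ * n) hT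
    have e : ((2 * δ * m - 2 * δ * n) / 2 : ℝ) = δ * ((m - n : ℤ) : ℝ) := by push_cast; ring
    rw [e] at h5
    gcongr
  have h6 := (abs_re_le_norm _).trans h4
  rw [sub_re, ofReal_re] at h6
  have h7 := (abs_le.1 h6).2
  linarith

end OSX
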