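import Pool.Agent.Lib.MP_39df77_nt.OS.OSF

set_option autoImplicit false

namespace OSX
open Filter Topology Complex Set MeasureTheory OSV
open scoped ComplexConjugate

theorem sg_cont : Continuous sg := by unfold sg; fun_prop

theorem Vd_cont : Continuous K3.Vd := by unfold K3.Vd; fun_prop

theorem int1 {H : ℝ → ℝ} (hH : Continuous H) : IntervalIntegrable
    (fun y : ℝ => (H (2 * y) + H (6 - 2 * y)) * (y ^ 8 / Nat.factorial 8)) volume 0 1 := by
  apply Continuous.intervalIntegrable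
  have h1 : Continuous fun y : ℝ => H (2 * y) := hH.comp (by fun_prop)
  have h2 : Continuous fun y : ℝ => H (6 - 2 * y) := hH.comp (by fun_prop)
  exact (h1.add h2).mul (by fun_prop)

theorem int2 {H : ℝ → ℝ} (hH : Continuous H) : IntegrableOn
    (fun u : ℝ × ℝ × ℝ => (H (2 * sg u) + H (6 - 2 * sg u)) * K3.Vd u ^ 2) K3.Eu := by
  have hs := sg_cont
  have h1 : Continuous fun u : ℝ × ℝ × ℝ => H (2 * sg u) := hH.comp (by fun_prop)
  have h2 : Continuous fun u : ℝ × ℝ × ℝ => H (6 - 2 * sg u) := hH.comp (by fun_prop)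
  have h3 : Continuous fun u : ℝ × ℝ × ℝ => (H (2 * sg u) + H (6 - 2 * sg u)) * K3.Vd u ^ 2 :=
    (h1.add h2).mul (Vd_cont.pow 2)
  have h4 : IsCompact (Icc ((0 : ℝ), (0 : ℝ), (0 : ℝ)) (1, 1, 1)) := isCompact_Icc
  refine (h3.continuousOn.integrableOn_compact h4).mono_set ?_
  intro u hu
  obtain ⟨a1, a2, a3, a4, -⟩ := hu
  exact ⟨⟨a1.le, (a1.trans a2).le, (a1.trans (a2.trans a3)).le⟩,
    ⟨(a2.trans (a3.trans a4)).le, (a3.trans a4).le, a4.le⟩⟩

theorem Eu_meas : MeasurableSet K3.Eu := by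
  have e : K3.Eu = {u : ℝ × ℝ × ℝ | 0 < u.1} ∩ {u | u.1 < u.2.1} ∩ {u | u.2.1 < u.2.2} ∩ {u | u.2.2 < 1} ∩
      {u | 1 < u.1 + u.2.1 + u.2.2} ∩ {u | u.1 + u.2.1 + u.2.2 < 3 / 2} ∩
      ({u | 3 * (u.1 + u.2.1) < 2 * u.2.2} ∪
        ({u | 1 / 2 < u.2.2 - u.1} ∩ {u | 4 * (u.1 + u.2.1) < 2 * u.2.2 + 1})) := by
    ext u
    simp only [K3.Eu, mem_ofPred_eq, mem_inter_iff, mem_union]
    tauto
  rw [e]
  refine MeasurableSet.inter (MeasurableSet.inter (MeasurableSet.inter (MeasurableSet.inter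
    (MeasurableSet.inter (MeasurableSet.inter ?_ ?_) ?_) ?_) ?_) ?_) (MeasurableSet.union ?_
      (MeasurableSet.inter ?_ ?_))
  all_goals exact measurableSet_lt (by fun_prop) (by fun_prop)

theorem KE_mono {H1 H2 : ℝ → ℝ} (h1 : Continuous H1) (h2 : Continuous H2) (h : ∀ u, H1 u ≤ H2 u) :
    KE H1 ≤ KE H2 := by
  unfold KE
  refine add_le_add ?_ ?_
  · refine intervalIntegral.integral_mono_on zero_le_one (int1 h1) (int1 h2) fun y hy => ?_
    have hy0 : 0 ≤ y := hy.1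
    refine mul_le_mul_of_nonneg_right (add_le_add (h _) (h _)) (by positivity)
  · refine setIntegral_mono (int2 h1) (int2 h2) fun u => ?_
    exact mul_le_mul_of_nonneg_right (add_le_add (h _) (h _)) (by positivity)

theorem KE_add {H1 H2 : ℝ → ℝ} (h1 : Continuous H1) (h2 : Continuous H2) :
    KE (fun u => H1 u + H2 u) = KE H1 + KE H2 := by
  unfold KE
  have e1 := intervalIntegral.integral_add (int1 h1) (int1 h2)
  have e2 := integral_add (int2 h1) (int2 h2)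
  have a1 : (∫ y in (0 : ℝ)..1, ((H1 (2 * y) + H2 (2 * y)) + (H1 (6 - 2 * y) + H2 (6 - 2 * y))) *
      (y ^ 8 / Nat.factorial 8)) = ∫ y in (0 : ℝ)..1, ((H1 (2 * y) + H1 (6 - 2 * y)) *
      (y ^ 8 / Nat.factorial 8) + (H2 (2 * y) + H2 (6 - 2 * y)) * (y ^ 8 / Nat.factorial 8)) := by
    refine intervalIntegral.integral_congr fun y _ => ?_
    try simp only
    ring
  have a2 : (∫ u in K3.Eu, ((H1 (2 * sg u) + H2 (2 * sg u)) + (H1 (6 - 2 * sg u) + H2 (6 - 2 * sg u))) *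
      K3.Vd u ^ 2) = ∫ u in K3.Eu, ((H1 (2 * sg u) + H1 (6 - 2 * sg u)) * K3.Vd u ^ 2 +
      (H2 (2 * sg u) + H2 (6 - 2 * sg u)) * K3.Vd u ^ 2) := by
    refine integral_congr_ae (Eventually.of_forall fun u => ?_)
    try simp only
    ring
  rw [a1, a2, e1, e2]
  ring

theorem KE_smul (r : ℝ) (H : ℝ → ℝ) : KE (fun u => r * H u) = r * KE H := by
  unfold KE
  have a1 : (∫ y in (0 : ℝ)..1, (r * H (2 * y) + r * H (6 - 2 * y)) *
      (y ^ 8 / Nat.factorial 8)) = r * ∫ y in (0 : ℝ)..1, (H (2 * y) + H (6 - 2 * y)) *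
      (y ^ 8 / Nat.factorial 8) := by
    rw [← intervalIntegral.integral_const_mul]
    refine intervalIntegral.integral_congr fun y _ => ?_
    try simp only
    ring
  have a2 : (∫ u in K3.Eu, (r * H (2 * sg u) + r * H (6 - 2 * sg u)) * K3.Vd u ^ 2) =
      r * ∫ u in K3.Eu, (H (2 * sg u) + H (6 - 2 * sg u)) * K3.Vd u ^ 2 := by
    rw [← integral_const_mul]
    refine integral_congr_ae (Eventually.of_forall fun u => ?_)
    try simp only
    ring
  rw [a1, a2]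
  ring

theorem KE_le_add {H1 H2 : ℝ → ℝ} (h1 : Continuous H1) (h2 : Continuous H2) {ε : ℝ}
    (h : ∀ u, H1 u ≤ H2 u + ε) : KE H1 ≤ KE H2 + ε * KE (fun _ => 1) := by
  have e : KE H2 + ε * KE (fun _ => 1) = KE (fun u => H2 u + ε * 1) := by
    rw [KE_add h2 (by fun_prop : Continuous fun _ : ℝ => ε * 1), KE_smul]
  rw [e]
  exact KE_mono h1 (by fun_prop) (fun u => by simpa using h u)

theorem KE_one_nonneg : 0 ≤ KE (fun _ => 1) := by
  have h := KE_mono (H1 := fun _ => (0:ℝ)) (H2 := fun _ => 1) continuous_const continuous_const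
    (fun _ => zero_le_one)
  refine le_trans (le_of_eq ?_) h
  unfold KE
  simp

theorem FZ_cont {h : ℤ → ℂ} (hh : RD h) (δ : ℝ) : Continuous (MP069854.FZ δ h) := by
  unfold MP069854.FZ
  have h0 : Summable fun n : ℤ => ‖h n‖ := by simpa using hh 0
  refine continuous_tsum (u := fun n : ℤ => ‖h n‖) (fun n => ?_) h0 (fun n u => ?_)
  · fun_prop
  · rw [norm_mul, ph_norm, mul_one]

theorem FF_cont (δ : ℝ) (s : Finset ℤ) (h : ℤ → ℂ) : Continuous (FF δ s h) := by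
  unfold FF
  fun_prop

/-- **Positivity** for infinite combinations. -/
theorem posInf (hW : WeylB) {δ : ℝ} (hδ : 0 < δ) {h : ℤ → ℂ} (hh : RD h) {ε : ℝ} (hε : 0 < ε) :
    ∀ᶠ T : ℝ in atTop,
    MP069854.arith 3 * KE (fun u => ‖MP069854.FZ δ h u‖ ^ 2) - ε * (1 + (MP069854.Qk 3 0 T).re) ≤
      (∑' n : ℤ, cv h n * MP069854.Qk 3 (δ * n) T).re := by
  obtain ⟨C, hC, hQ⟩ := Qk_bound hW
  have hA := MP069854.arith_pos 3
  have hB := KE_one_nonneg
  -- choice of the truncation parameter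
  obtain ⟨ε1, hε1, h1a, h1b⟩ : ∃ ε1 : ℝ, 0 < ε1 ∧ ε1 * (MP069854.arith 3 * KE (fun _ => 1)) ≤ ε / 4 ∧
      ε1 * (1 + δ) ^ 8 ≤ ε / 4 := by
    set K1 := MP069854.arith 3 * KE (fun _ => 1) with hK1
    have hK1' : 0 ≤ K1 := by positivity
    have hD : 0 < (1 + δ) ^ 8 := by positivity
    refine ⟨ε / 4 / (K1 + (1 + δ) ^ 8), by positivity, ?_, ?_⟩
    · rw [div_mul_eq_mul_div, div_le_iff₀ (by positivity)]
      nlinarith
    · rw [div_mul_eq_mul_div, div_le_iff₀ (by positivity)]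
      nlinarith
  obtain ⟨s, hs1, hs2⟩ := FZ_trunc hh 8 hε1
  have hpos := posFin hW δ s h (by positivity : 0 < ε / 4)
  have hlim : Tendsto (fun T : ℝ => C * (Real.log T)⁻¹ ^ 3) atTop (𝓝 0) := by
    simpa using invlog_pow_tendsto.const_mul C
  have hev := hlim.eventually (gt_mem_nhds (zero_lt_one))
  filter_upwards [hpos, hev, eventually_ge_atTop (3 : ℝ)] with T h1 h2 hT
  set X := (MP069854.Qk 3 0 T).re with hX
  have hX0 : 0 ≤ X := by
    rw [hX, Qk_zero, ofReal_re]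
    have hL : 0 < Real.log T := Real.log_pos (by linarith)
    have : 0 ≤ ∫ t in (0:ℝ)..T, ‖F3 t‖ ^ 2 :=
      intervalIntegral.integral_nonneg (by linarith) fun _ _ => by positivity
    positivity
  have hg : ∀ n : ℤ, ‖MP069854.Qk 3 (δ * n) T‖ ≤ ((1 + δ) ^ 8 * (1 + X)) * (1 + |(n : ℝ)|) ^ 8 := by
    intro n
    have h3 := hQ T (δ * n) hT
    have h4 : 1 + |δ * (n : ℝ)| ≤ (1 + δ) * (1 + |(n : ℝ)|) := by
      rw [abs_mul, abs_of_pos hδ]
      nlinarith [abs_nonneg (n : ℝ)]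
    have h5 : X + C * (Real.log T)⁻¹ ^ 3 ≤ 1 + X := by linarith
    have h6 : 0 ≤ X + C * (Real.log T)⁻¹ ^ 3 := by
      have hL : 0 < Real.log T := Real.log_pos (by linarith)
      positivity
    calc ‖MP069854.Qk 3 (δ * n) T‖ ≤ (1 + |δ * (n : ℝ)|) ^ 8 * (X + C * (Real.log T)⁻¹ ^ 3) := h3
      _ ≤ ((1 + δ) * (1 + |(n : ℝ)|)) ^ 8 * (1 + X) := by gcongr
      _ = _ := by rw [mul_pow]; ring
  have h3 := hs1 (fun n => MP069854.Qk 3 (δ * n) T) _ hg
  have h4 : KE (fun u => ‖MP069854.FZ δ h u‖ ^ 2) ≤ KE (fun u => ‖FF δ s h u‖ ^ 2) +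
      ε1 * KE (fun _ => 1) := by
    have c1 : Continuous fun u : ℝ => ‖MP069854.FZ δ h u‖ ^ 2 := (FZ_cont hh δ).norm.pow 2
    have c2 : Continuous fun u : ℝ => ‖FF δ s h u‖ ^ 2 := (FF_cont δ s h).norm.pow 2
    refine KE_le_add c1 c2 fun u => ?_
    have := (abs_le.1 (hs2 δ u)).2
    linarith
  have h5 : MP069854.arith 3 * KE (fun u => ‖MP069854.FZ δ h u‖ ^ 2) ≤
      MP069854.arith 3 * KE (fun u => ‖FF δ s h u‖ ^ 2) + ε / 4 := by
    have := mul_le_mul_of_nonneg_left h4 hA.le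
    nlinarith
  have h6 := (abs_re_le_norm _).trans h3
  rw [sub_re] at h6
  have h7 := (abs_le.1 h6).1
  have h8 : ε1 * ((1 + δ) ^ 8 * (1 + X)) ≤ ε / 4 * (1 + X) := by
    rw [← mul_assoc]
    exact mul_le_mul_of_nonneg_right h1b (by linarith)
  have h9 : (∑ m ∈ s, ∑ n ∈ s, h m * conj (h n) * (fun n : ℤ => MP069854.Qk 3 (δ * n) T) (m - n)).re =
    (∑ m ∈ s, ∑ n ∈ s, h m * conj (h n) * MP069854.Qk 3 (δ * (m - n : ℤ)) T).re := rfl
  rw [h9] at h7
  nlinarith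

end OSX
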