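import Pool.Agent.Lib.MP_39df77_nt.OS.OSG

set_option autoImplicit false

namespace OSX
open Filter Topology Complex Set MeasureTheory OSV
open scoped ComplexConjugate

/-- coefficients of `cos(x(u-3)) - cos x + ε` with respect to `e^{-i(x/2)nu}` -/
noncomputable def cD (x ε : ℝ) (n : ℤ) : ℂ :=
  if n = 2 then exp (3 * x * I) / 2 else if n = -2 then exp (-(3 * x * I)) / 2 else
    if n = 0 then -((Real.cos x - ε : ℝ) : ℂ) else 0

theorem cD_zero (x ε : ℝ) (n : ℤ) (hn : n ∉ ({2, -2, 0} : Finset ℤ)) : cD x ε n = 0 := by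
  simp only [Finset.mem_insert, Finset.mem_singleton, not_or] at hn
  unfold cD
  rw [if_neg hn.1, if_neg hn.2.1, if_neg hn.2.2]

theorem cD_hasSum (x ε : ℝ) (g : ℤ → ℂ) : HasSum (fun n => cD x ε n * g n)
    (exp (3 * x * I) / 2 * g 2 + exp (-(3 * x * I)) / 2 * g (-2) - ((Real.cos x - ε : ℝ) : ℂ) * g 0) := by
  have h : HasSum (fun n => cD x ε n * g n) (∑ n ∈ ({2, -2, 0} : Finset ℤ), cD x ε n * g n) :=
    hasSum_sum_of_ne_finset_zero (by
      intro n hn
      rw [cD_zero x ε n hn, zero_mul])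
  have e : ∑ n ∈ ({2, -2, 0} : Finset ℤ), cD x ε n * g n = exp (3 * x * I) / 2 * g 2 +
      exp (-(3 * x * I)) / 2 * g (-2) - ((Real.cos x - ε : ℝ) : ℂ) * g 0 := by
    rw [Finset.sum_insert (by decide), Finset.sum_insert (by decide), Finset.sum_singleton]
    unfold cD
    simp only [if_true, show ((-2 : ℤ) = 2) = False by simp, show ((0 : ℤ) = 2) = False by simp,
      show ((0 : ℤ) = -2) = False by simp, if_false]
    ring
  rwa [e] at h

theorem cD_RD (x ε : ℝ) : RD (cD x ε) := by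
  intro m
  refine summable_of_ne_finset_zero (s := {2, -2, 0}) fun n hn => ?_
  rw [cD_zero x ε n hn, norm_zero, mul_zero]

theorem FZ_cD (x ε u : ℝ) : MP069854.FZ (x / 2) (cD x ε) u = ((MP069854.Dx x ε u : ℝ) : ℂ) := by
  unfold MP069854.FZ
  rw [(cD_hasSum x ε _).tsum_eq]
  unfold MP069854.Dx
  push_cast
  have h1 : exp (3 * (x : ℂ) * I) / 2 * exp (-((x : ℂ) / 2 * 2 * u) * I) =
      exp ((-(x * (u - 3)) : ℂ) * I) / 2 := by
    rw [div_mul_eq_mul_div, ← Complex.exp_add]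
    congr 2; ring
  have h2 : exp (-(3 * (x : ℂ) * I)) / 2 * exp (-((x : ℂ) / 2 * -2 * u) * I) =
      exp (((x * (u - 3)) : ℂ) * I) / 2 := by
    rw [div_mul_eq_mul_div, ← Complex.exp_add]
    congr 2; ring
  rw [h1, h2, mul_zero, zero_mul, neg_zero, zero_mul, Complex.exp_zero, mul_one]
  unfold Complex.cos
  ring

theorem RD.sub {c d : ℤ → ℂ} (hc : RD c) (hd : RD d) : RD (fun n => c n - d n) := by
  intro m
  refine Summable.of_nonneg_of_le (fun n => by positivity) (fun n => ?_) ((hc m).add (hd m))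
  rw [← mul_add]
  exact mul_le_mul_of_nonneg_left (norm_sub_le _ _) (by positivity)

theorem FZ_summable {c : ℤ → ℂ} (hc : RD c) (δ u : ℝ) :
    Summable fun n : ℤ => c n * exp (-(((δ * n : ℝ) : ℂ) * u) * I) := by
  refine Summable.of_norm ?_
  refine (hc 0).congr fun n => ?_
  rw [norm_mul, ph_norm]; simp

/-- `∫₀¹ (H(2y) + H(6-2y)) y⁸/8! dy` -/
noncomputable def K1 (H : ℝ → ℝ) : ℝ :=
  ∫ y in (0 : ℝ)..1, (H (2 * y) + H (6 - 2 * y)) * (y ^ 8 / Nat.factorial 8)

/-- the part over `E` -/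
noncomputable def K2 (H : ℝ → ℝ) : ℝ :=
  ∫ u in K3.Eu, (H (2 * sg u) + H (6 - 2 * sg u)) * K3.Vd u ^ 2

theorem KE_eq (H : ℝ → ℝ) : KE H = K1 H + K2 H := rfl

theorem K1_sub {H1 H2 : ℝ → ℝ} (h1 : Continuous H1) (h2 : Continuous H2) :
    K1 (fun u => H1 u - H2 u) = K1 H1 - K1 H2 := by
  unfold K1
  rw [← intervalIntegral.integral_sub (int1 h1) (int1 h2)]
  refine intervalIntegral.integral_congr fun y _ => ?_
  simp only; ring

theorem K2_congr {H1 H2 : ℝ → ℝ} (h : ∀ u : ℝ, 2 ≤ u → u ≤ 4 → H1 u = H2 u) : K2 H1 = K2 H2 := by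
  unfold K2
  refine setIntegral_congr_fun Eu_meas fun u hu => ?_
  obtain ⟨-, -, -, -, a5, a6, -⟩ := hu
  have : sg u = u.1 + u.2.1 + u.2.2 := rfl
  rw [h _ (by linarith) (by linarith), h _ (by linarith) (by linarith)]

theorem limit_re {δ : ℝ} (hδ : 0 < δ) {c : ℤ → ℂ} (hc : RD c) {H : ℝ → ℝ} (hH : Continuous H)
    (hcH : ∀ u : ℝ, MP069854.FZ δ c u = ((H u : ℝ) : ℂ)) {η : ℝ} (hη : 0 < η)
    (hz : ∀ u : ℝ, 2 - η < u → u < 4 + η → H u = 0) :
    Tendsto (fun T : ℝ => (∑' n : ℤ, c n * MP069854.Qk 3 (δ * n) T).re) atTop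
      (𝓝 (MP069854.arith 3 * K1 H)) := by
  have key := (MP069854.discrete_lim (k := 3) (by norm_num) hδ hc hη (fun u hu1 hu2 => by
    rw [hcH, hz u hu1 (by push_cast at hu2; linarith)]; simp)).2
  have hre := (Complex.continuous_re.tendsto _).comp key
  have e : (MP069854.arith 3 : ℂ) * ((∫ y in (0:ℝ)..1, MP069854.FZ δ c (2 * y) *
        MP069854.wt (3 ^ 2) y) +
        ∫ y in (0:ℝ)..1, MP069854.FZ δ c (2 * (3:ℕ) - 2 * y) * MP069854.wt (3 ^ 2) y) =
      ((MP069854.arith 3 * K1 H : ℝ) : ℂ) := by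
    have a1 : (∫ y in (0:ℝ)..1, MP069854.FZ δ c (2 * y) * MP069854.wt (3 ^ 2) y) =
        ((∫ y in (0:ℝ)..1, H (2 * y) * (y ^ 8 / Nat.factorial 8) : ℝ) : ℂ) := by
      rw [← intervalIntegral.integral_ofReal]
      refine intervalIntegral.integral_congr fun y _ => ?_
      simp only [hcH, MP069854.wt]
      norm_num
    have a2 : (∫ y in (0:ℝ)..1, MP069854.FZ δ c (2 * (3:ℕ) - 2 * y) * MP069854.wt (3 ^ 2) y) =
        ((∫ y in (0:ℝ)..1, H (6 - 2 * y) * (y ^ 8 / Nat.factorial 8) : ℝ) : ℂ) := by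
      rw [← intervalIntegral.integral_ofReal]
      refine intervalIntegral.integral_congr fun y _ => ?_
      simp only [hcH, MP069854.wt]
      norm_num
    rw [a1, a2, ← ofReal_add, ← ofReal_mul]
    congr 2
    unfold K1
    rw [← intervalIntegral.integral_add]
    · refine intervalIntegral.integral_congr fun y _ => ?_
      ring
    · apply Continuous.intervalIntegrable
      have h1 : Continuous fun y : ℝ => H (2 * y) := hH.comp (by fun_prop)
      exact h1.mul (by fun_prop)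
    · apply Continuous.intervalIntegrable
      have h2 : Continuous fun y : ℝ => H (6 - 2 * y) := hH.comp (by fun_prop)
      exact h2.mul (by fun_prop)
  rw [e, ofReal_re] at hre
  exact hre

/-- the constant `A(x)/a_3` -/
noncomputable def AA (x : ℝ) : ℝ := KE (fun u => 1 - Real.cos (x * (u - 3)))

/-- **Upper bound**, `0 < x ≤ π`. -/
theorem upper_pos (hW : WeylB) {x : ℝ} (hx0 : 0 < x) (hx : x ≤ Real.pi) {ε : ℝ} (hε : 0 < ε) :
    ∀ᶠ T : ℝ in atTop,
    (MP069854.Qk 3 0 T).re - (exp (3 * x * I) * MP069854.Qk 3 x T).re ≤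
      MP069854.arith 3 * AA x + (1 - Real.cos x) * ((MP069854.Qk 3 0 T).re -
        MP069854.arith 3 * KE (fun _ => 1)) + ε * (1 + (MP069854.Qk 3 0 T).re) := by
  obtain ⟨h, η, hη, hh, hroot⟩ := MP069854.exists_root hx0 hx (by positivity : 0 < ε / 4)
  have hA := MP069854.arith_pos 3
  have hδ : 0 < x / 2 := by positivity
  set H : ℝ → ℝ := fun u => ‖MP069854.FZ (x / 2) h u‖ ^ 2 with hH
  have hHc : Continuous H := (FZ_cont hh (x / 2)).norm.pow 2
  set D : ℝ → ℝ := MP069854.Dx x (ε / 4) with hD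
  have hDc : Continuous D := (MP069854.Dx_smooth x (ε / 4)).continuous
  have hcR : RD (fun n => cD x (ε / 4) n - cv h n) := RD.sub (cD_RD x (ε / 4)) (cv_RD hh)
  have hcF : ∀ u : ℝ, MP069854.FZ (x / 2) (fun n => cD x (ε / 4) n - cv h n) u =
      ((D u - H u : ℝ) : ℂ) := by
    intro u
    rw [ofReal_sub, hH, ← FZ_cv hh, hD, ← FZ_cD]
    unfold MP069854.FZ
    rw [← (FZ_summable (cD_RD x (ε / 4)) (x / 2) u).tsum_sub (FZ_summable (cv_RD hh) (x / 2) u)]
    refine tsum_congr fun n => ?_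
    ring
  have hDH : ∀ u : ℝ, 2 - η < u → u < 4 + η → D u - H u = 0 := by
    intro u hu1 hu2
    have := hroot u hu1.le hu2.le
    show D u - ‖MP069854.FZ (x / 2) h u‖ ^ 2 = 0
    rw [this, sub_self]
  have hlim := limit_re hδ hcR (hDc.sub hHc) hcF hη hDH
  have hev := hlim.eventually (lt_mem_nhds (by linarith : MP069854.arith 3 * K1 (D - H) - ε / 4 <
    MP069854.arith 3 * K1 (D - H)))
  have hposi := posInf hW hδ hh (by positivity : 0 < ε / 4)
  have hKD : KE D = (1 - Real.cos x) * KE (fun _ => 1) - AA x + ε / 4 * KE (fun _ => 1) := by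
    have e1 : KE D + AA x = (1 - Real.cos x + ε / 4) * KE (fun _ => 1) := by
      unfold AA
      rw [← KE_add hDc (by fun_prop), ← KE_smul]
      congr 1
      funext u
      rw [hD]
      unfold MP069854.Dx
      ring
    linarith
  have hK1 : K1 (D - H) = K1 D - K1 H := K1_sub hDc hHc
  have hK2 : K2 H = K2 D := K2_congr fun u hu1 hu2 => hroot u (by linarith) (by linarith)
  have hB := KE_one_nonneg
  filter_upwards [hev, hposi, eventually_gt_atTop (1 : ℝ)] with T h1 h2 hT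
  set X := (MP069854.Qk 3 0 T).re with hX
  have hX0 : 0 ≤ X := by
    rw [hX, Qk_zero, ofReal_re]
    have hL : 0 < Real.log T := Real.log_pos (by linarith)
    have : 0 ≤ ∫ t in (0:ℝ)..T, ‖F3 t‖ ^ 2 :=
      intervalIntegral.integral_nonneg (by linarith) fun _ _ => by positivity
    positivity
  -- the three sums
  have hs1 := (MP069854.discrete_lim (k := 3) (by norm_num) hδ hcR hη (fun u hu1 hu2 => by
    rw [hcF, hDH u hu1 (by push_cast at hu2; linarith)]
    simp)).1 T hT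
  have hs2 := cD_hasSum x (ε / 4) (fun n => MP069854.Qk 3 (x / 2 * n) T)
  have hs3 : Summable fun n : ℤ => cv h n * MP069854.Qk 3 (x / 2 * n) T := by
    refine (hs2.summable.sub hs1.of_norm).congr fun n => ?_
    ring
  have hsum : (∑' n : ℤ, (cD x (ε / 4) n - cv h n) * MP069854.Qk 3 (x / 2 * n) T) =
      (∑' n : ℤ, cD x (ε / 4) n * MP069854.Qk 3 (x / 2 * n) T) -
        ∑' n : ℤ, cv h n * MP069854.Qk 3 (x / 2 * n) T := by
    rw [← hs2.summable.tsum_sub hs3]
    refine tsum_congr fun n => ?_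
    ring
  rw [hsum, sub_re, hs2.tsum_eq] at h1
  have e2 : (x / 2 * ((2 : ℤ) : ℝ)) = x := by push_cast; ring
  have e3 : (x / 2 * ((-2 : ℤ) : ℝ)) = -x := by push_cast; ring
  have e4 : (x / 2 * ((0 : ℤ) : ℝ)) = 0 := by push_cast; ring
  have e5 : exp (-(3 * (x : ℂ) * I)) = conj (exp (3 * (x : ℂ) * I)) := by
    rw [← exp_conj]
    congr 1
    have h3 : (conj (3 : ℂ)) = 3 := by
      rw [show (3 : ℂ) = ((3 : ℝ) : ℂ) by norm_num, conj_ofReal]
    rw [map_mul, map_mul, conj_ofReal, conj_I, h3]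
    ring
  have e6 : (exp (3 * (x : ℂ) * I) / 2 * MP069854.Qk 3 x T +
      conj (exp (3 * (x : ℂ) * I)) / 2 * conj (MP069854.Qk 3 x T) -
      ((Real.cos x - ε / 4 : ℝ) : ℂ) * MP069854.Qk 3 0 T).re =
      (exp (3 * (x : ℂ) * I) * MP069854.Qk 3 x T).re - (Real.cos x - ε / 4) * X := by
    rw [sub_re, re_ofReal_mul, ← hX]
    congr 1
    have : exp (3 * (x : ℂ) * I) / 2 * MP069854.Qk 3 x T +
      conj (exp (3 * (x : ℂ) * I)) / 2 * conj (MP069854.Qk 3 x T) =
      (exp (3 * (x : ℂ) * I) * MP069854.Qk 3 x T +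
        conj (exp (3 * (x : ℂ) * I) * MP069854.Qk 3 x T)) / 2 := by
      rw [map_mul]; ring
    rw [this, add_conj]
    simp
  simp only [e2, e3, e4, e5, Qk_neg] at h1
  rw [e6, hK1] at h1
  have h2' : MP069854.arith 3 * KE H - ε / 4 * (1 + X) ≤
      (∑' n : ℤ, cv h n * MP069854.Qk 3 (x / 2 * n) T).re := h2
  rw [KE_eq, hK2] at h2'
  have h3 : KE D = K1 D + K2 D := rfl
  have h4 : 0 ≤ MP069854.arith 3 * (ε / 4 * KE (fun _ => 1)) := by positivity
  have h5 : MP069854.arith 3 * KE D = MP069854.arith 3 * ((1 - Real.cos x) * KE (fun _ => 1) - AA x +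
    ε / 4 * KE (fun _ => 1)) := by rw [hKD]
  rw [h3] at h5
  nlinarith

end OSX
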