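import Pool.Agent.Lib.MP_39df77_nt.OS.OSH

set_option autoImplicit false

namespace OSX
open Filter Topology Complex Set MeasureTheory OSV
open scoped ComplexConjugate ContDiff

/-- a smooth function positive on `[2,4]` is a square of a trigonometric series near `[2,4]` -/
theorem exists_root_gen {δ : ℝ} (hδ : 0 < δ) (hδπ : δ < Real.pi) {D : ℝ → ℝ} (hD : ContDiff ℝ ∞ D)
    (hpos : ∀ u : ℝ, 2 ≤ u → u ≤ 4 → 0 < D u) :
    ∃ (h : ℤ → ℂ) (η : ℝ), 0 < η ∧ RD h ∧
      ∀ u : ℝ, 2 - η ≤ u → u ≤ 4 + η → ‖MP069854.FZ δ h u‖ ^ 2 = D u := by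
  have hopen : IsOpen {u : ℝ | 0 < D u} := isOpen_lt continuous_const hD.continuous
  obtain ⟨r1, hr1, hb1⟩ := Metric.isOpen_iff.1 hopen 2 (hpos 2 le_rfl (by norm_num))
  obtain ⟨r2, hr2, hb2⟩ := Metric.isOpen_iff.1 hopen 4 (hpos 4 (by norm_num) le_rfl)
  have hP : 2 < 2 * Real.pi / δ := by
    rw [lt_div_iff₀ hδ]; linarith
  set P := 2 * Real.pi / δ with hPdef
  obtain ⟨η, hη, h1, h2, h3⟩ : ∃ η : ℝ, 0 < η ∧ 2 * η < r1 ∧ 2 * η < r2 ∧ 4 * η < P - 2 := by
    refine ⟨min (min (r1 / 4) (r2 / 4)) ((P - 2) / 8), ?_, ?_, ?_, ?_⟩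
    · have : 0 < P - 2 := by linarith
      positivity
    · have := (min_le_left (min (r1 / 4) (r2 / 4)) ((P - 2) / 8)).trans (min_le_left _ _); linarith
    · have := (min_le_left (min (r1 / 4) (r2 / 4)) ((P - 2) / 8)).trans (min_le_right _ _); linarith
    · have := min_le_right (min (r1 / 4) (r2 / 4)) ((P - 2) / 8); linarith
  let f : ContDiffBump (3 : ℝ) := ⟨1 + η, 1 + 2 * η, by linarith, by linarith⟩
  have hpos' : ∀ u : ℝ, u ∈ Metric.closedBall (3 : ℝ) (1 + 2 * η) → 0 < D u := by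
    intro u hu
    rw [Metric.mem_closedBall, Real.dist_eq, abs_le] at hu
    rcases lt_or_ge u 2 with h4 | h4
    · exact hb1 (by rw [Metric.mem_ball, Real.dist_eq, abs_lt]; exact ⟨by linarith [hu.1], by linarith⟩)
    rcases le_or_gt u 4 with h5 | h5
    · exact hpos u h4 h5
    · exact hb2 (by rw [Metric.mem_ball, Real.dist_eq, abs_lt]; exact ⟨by linarith, by linarith [hu.2]⟩)
  set b0 : ℝ → ℝ := fun u => f u * √(D u) with hb0
  have hb0s : ContDiff ℝ ∞ b0 := by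
    rw [contDiff_iff_contDiffAt]
    intro u
    by_cases hu : u ∈ Metric.closedBall (3 : ℝ) (1 + 2 * η)
    · exact f.contDiffAt.mul ((hD.contDiffAt).sqrt (hpos' u hu).ne')
    · have : u ∉ tsupport f := by rw [f.tsupport_eq]; exact hu
      have h0 : b0 =ᶠ[𝓝 u] fun _ => 0 := by
        filter_upwards [notMem_tsupport_iff_eventuallyEq.1 this] with v hv
        rw [hb0]
        simp only
        rw [hv]
        simp
      exact contDiffAt_const.congr_of_eventuallyEq h0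
  set b : ℝ → ℂ := fun u => ((b0 u : ℝ) : ℂ) with hb
  have tb : MP069854.TF b (2 - 2 * η) (4 + 2 * η) := by
    refine ⟨Complex.ofRealCLM.contDiff.comp hb0s, ?_⟩
    refine closure_minimal ?_ isClosed_Icc
    intro u hu
    have hu' : b u ≠ 0 := hu
    have : u ∈ tsupport f := by
      apply subset_tsupport
      intro h0
      apply hu'
      rw [hb, hb0]
      simp only
      rw [h0]
      simp
    rw [f.tsupport_eq, Real.closedBall_eq_Icc] at this
    have h1 : (3 : ℝ) - (1 + 2 * η) ≤ u := this.1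
    have h2 : u ≤ (3 : ℝ) + (1 + 2 * η) := this.2
    exact ⟨by linarith, by linarith⟩
  have hlen : (4 + 2 * η) - (2 - 2 * η) < 2 * Real.pi / δ := by
    rw [← hPdef]; linarith
  obtain ⟨h, e1, e2⟩ := MP069854.poisson_coeff hδ tb hlen
  refine ⟨h, η, hη, e1, fun u hu1 hu2 => ?_⟩
  rw [e2 u (by linarith) (by linarith)]
  have hf : f u = 1 := f.one_of_mem_closedBall (by
    rw [Metric.mem_closedBall, Real.dist_eq, abs_le]
    show -(1 + η) ≤ u - 3 ∧ u - 3 ≤ 1 + η
    exact ⟨by linarith, by linarith⟩)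
  have hp : 0 < D u := hpos' u (by
    rw [Metric.mem_closedBall, Real.dist_eq, abs_le]
    exact ⟨by linarith, by linarith⟩)
  show ‖((f u * √(D u) : ℝ) : ℂ)‖ ^ 2 = _
  rw [hf, one_mul, Complex.norm_real, Real.norm_eq_abs, sq_abs, Real.sq_sqrt hp.le]

theorem X_nonneg {T : ℝ} (hT : 1 < T) : 0 ≤ (MP069854.Qk 3 0 T).re := by
  rw [Qk_zero, ofReal_re]
  have hL : 0 < Real.log T := Real.log_pos (by linarith)
  have : 0 ≤ ∫ t in (0:ℝ)..T, ‖F3 t‖ ^ 2 :=
    intervalIntegral.integral_nonneg (by linarith) fun _ _ => by positivity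
  positivity

theorem finsupp_RD {d : ℤ → ℂ} {s : Finset ℤ} (hs : ∀ n, n ∉ s → d n = 0) : RD d := by
  intro m
  refine summable_of_ne_finset_zero (s := s) fun n hn => ?_
  rw [hs n hn, norm_zero, mul_zero]

theorem finsupp_hasSum {d : ℤ → ℂ} {s : Finset ℤ} (hs : ∀ n, n ∉ s → d n = 0) (g : ℤ → ℂ) :
    HasSum (fun n => d n * g n) (∑ n ∈ s, d n * g n) :=
  hasSum_sum_of_ne_finset_zero (by
    intro n hn
    rw [hs n hn, zero_mul])

/-- **Cone theorem, arithmetic progression of shifts.** -/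
theorem cone_disc (hW : WeylB) {δ : ℝ} (hδ : 0 < δ) (hδπ : δ < Real.pi) {d : ℤ → ℂ} {s : Finset ℤ}
    (hs : ∀ n, n ∉ s → d n = 0) {D : ℝ → ℝ} (hDs : ContDiff ℝ ∞ D)
    (hdD : ∀ u : ℝ, MP069854.FZ δ d u = ((D u : ℝ) : ℂ)) (hpos : ∀ u : ℝ, 2 ≤ u → u ≤ 4 → 0 ≤ D u)
    {ε : ℝ} (hε : 0 < ε) :
    ∀ᶠ T : ℝ in atTop, MP069854.arith 3 * KE D - ε * (1 + (MP069854.Qk 3 0 T).re) ≤
      (∑ n ∈ s, d n * MP069854.Qk 3 (δ * n) T).re := by
  have hA := MP069854.arith_pos 3
  set D' : ℝ → ℝ := fun u => D u + ε / 4 with hD'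
  have hD's : ContDiff ℝ ∞ D' := hDs.add contDiff_const
  obtain ⟨h, η, hη, hh, hroot⟩ := exists_root_gen hδ hδπ hD's (fun u hu1 hu2 => by
    have := hpos u hu1 hu2
    rw [hD']; simp only; linarith)
  set H : ℝ → ℝ := fun u => ‖MP069854.FZ δ h u‖ ^ 2 with hH
  have hHc : Continuous H := (FZ_cont hh δ).norm.pow 2
  have hDc : Continuous D' := hD's.continuous
  set d' : ℤ → ℂ := fun n => d n + if n = 0 then ((ε / 4 : ℝ) : ℂ) else 0 with hd'
  have hs' : ∀ n, n ∉ insert 0 s → d' n = 0 := by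
    intro n hn
    rw [Finset.mem_insert, not_or] at hn
    rw [hd']
    simp only
    rw [hs n hn.2, if_neg hn.1, add_zero]
  have hsplit : ∀ g : ℤ → ℂ, HasSum (fun n => d' n * g n) ((∑ n ∈ s, d n * g n) + ((ε / 4 : ℝ) : ℂ) * g 0) := by
    intro g
    have h1 := finsupp_hasSum hs g
    have h2 : HasSum (fun n : ℤ => (if n = 0 then ((ε / 4 : ℝ) : ℂ) * g 0 else 0)) (((ε / 4 : ℝ) : ℂ) * g 0) :=
      hasSum_ite_eq 0 _
    have h3 := h1.add h2
    have e : (fun n => d' n * g n) = fun n => d n * g n + if n = 0 then ((ε / 4 : ℝ) : ℂ) * g 0 else 0 := by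
      funext n
      rw [hd']
      simp only
      rcases eq_or_ne n 0 with hn | hn
      · rw [if_pos hn, if_pos hn, hn]; ring
      · rw [if_neg hn, if_neg hn]; ring
    rw [e]
    exact h3
  have hd'R : RD d' := finsupp_RD hs'
  have hcR : RD (fun n => d' n - cv h n) := RD.sub hd'R (cv_RD hh)
  have hFd' : ∀ u : ℝ, MP069854.FZ δ d' u = ((D' u : ℝ) : ℂ) := by
    intro u
    have h1 := (hsplit (fun n => exp (-(((δ * n : ℝ) : ℂ) * u) * I))).tsum_eq
    have h2 := (finsupp_hasSum hs (fun n => exp (-(((δ * n : ℝ) : ℂ) * u) * I))).tsum_eq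
    have h3 := hdD u
    unfold MP069854.FZ at h3 ⊢
    rw [h1, ← h2, h3, hD']
    simp
  have hcF : ∀ u : ℝ, MP069854.FZ δ (fun n => d' n - cv h n) u = ((D' u - H u : ℝ) : ℂ) := by
    intro u
    rw [ofReal_sub, hH, ← FZ_cv hh, ← hFd']
    unfold MP069854.FZ
    rw [← (FZ_summable hd'R δ u).tsum_sub (FZ_summable (cv_RD hh) δ u)]
    refine tsum_congr fun n => ?_
    ring
  have hDH : ∀ u : ℝ, 2 - η < u → u < 4 + η → D' u - H u = 0 := by
    intro u hu1 hu2
    have := hroot u hu1.le hu2.le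
    show D' u - ‖MP069854.FZ δ h u‖ ^ 2 = 0
    rw [this, sub_self]
  have hlim := limit_re hδ hcR (hDc.sub hHc) hcF hη hDH
  have hev := hlim.eventually (lt_mem_nhds (by linarith : MP069854.arith 3 * K1 (D' - H) - ε / 4 <
    MP069854.arith 3 * K1 (D' - H)))
  have hposi := posInf hW hδ hh (by positivity : 0 < ε / 4)
  have hKD : KE D' = KE D + ε / 4 * KE (fun _ => 1) := by
    rw [← KE_smul, ← KE_add hDs.continuous (by fun_prop)]
    congr 1
    funext u
    rw [hD']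
    simp
  have hK1 : K1 (D' - H) = K1 D' - K1 H := K1_sub hDc hHc
  have hK2 : K2 H = K2 D' := K2_congr fun u hu1 hu2 => hroot u (by linarith) (by linarith)
  have hB := KE_one_nonneg
  filter_upwards [hev, hposi, eventually_gt_atTop (1 : ℝ)] with T h1 h2 hT
  have hX0 := X_nonneg hT
  set X := (MP069854.Qk 3 0 T).re with hX
  have hs1 := (MP069854.discrete_lim (k := 3) (by norm_num) hδ hcR hη (fun u hu1 hu2 => by
    rw [hcF, hDH u hu1 (by push_cast at hu2; linarith)]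
    simp)).1 T hT
  have hs2 := hsplit (fun n => MP069854.Qk 3 (δ * n) T)
  have hs3 : Summable fun n : ℤ => cv h n * MP069854.Qk 3 (δ * n) T := by
    refine (hs2.summable.sub hs1.of_norm).congr fun n => ?_
    ring
  have hsum : (∑' n : ℤ, (d' n - cv h n) * MP069854.Qk 3 (δ * n) T) =
      (∑' n : ℤ, d' n * MP069854.Qk 3 (δ * n) T) -
        ∑' n : ℤ, cv h n * MP069854.Qk 3 (δ * n) T := by
    rw [← hs2.summable.tsum_sub hs3]
    refine tsum_congr fun n => ?_
    ring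
  rw [hsum, sub_re, hs2.tsum_eq, add_re, re_ofReal_mul, Int.cast_zero, mul_zero, ← hX, hK1] at h1
  have h2' : MP069854.arith 3 * KE H - ε / 4 * (1 + X) ≤
      (∑' n : ℤ, cv h n * MP069854.Qk 3 (δ * n) T).re := h2
  rw [KE_eq, hK2] at h2'
  have h3 : KE D' = K1 D' + K2 D' := rfl
  have h4 : 0 ≤ MP069854.arith 3 * (ε / 4 * KE (fun _ => 1)) := by positivity
  have h5 : MP069854.arith 3 * KE D' = MP069854.arith 3 * (KE D + ε / 4 * KE (fun _ => 1)) := by rw [hKD]
  rw [h3] at h5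
  nlinarith

end OSX
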