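import Pool.Agent.Lib.MP_39df77_nt.OS.OSK

set_option autoImplicit false

namespace OSX
open Filter Topology Complex Set MeasureTheory OSV
open scoped ComplexConjugate ContDiff

/-- normalised inner product of two shifts of `ζ³` -/
noncomputable def IP (a b T : ℝ) : ℂ := ((T * Real.log T ^ 9 : ℝ) : ℂ)⁻¹ *
  ∫ t in (0:ℝ)..T, F3 (t + a / Real.log T) * conj (F3 (t + b / Real.log T))

theorem Fs_cont (v : ℝ) : Continuous fun t : ℝ => F3 (t + v) := F3_cont.comp (by fun_prop)

theorem IP_re (a b T : ℝ) : (IP a b T).re = (T * Real.log T ^ 9)⁻¹ *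
    ∫ t in (0:ℝ)..T, (F3 (t + a / Real.log T) * conj (F3 (t + b / Real.log T))).re := by
  unfold IP
  rw [← ofReal_inv, re_ofReal_mul]
  congr 1
  have hc : Continuous fun t : ℝ => F3 (t + a / Real.log T) * conj (F3 (t + b / Real.log T)) :=
    (Fs_cont _).mul (continuous_conj.comp (Fs_cont _))
  have := Complex.reCLM.intervalIntegral_comp_comm (hc.intervalIntegrable (μ := volume) 0 T)
  simpa using this.symm

theorem ip_ineq {T : ℝ} (hT : 1 < T) (a b c : ℝ) {l : ℝ} (hl : 0 < l) :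
    ‖IP a c T - IP b c T‖ ≤ (2 * l)⁻¹ * ((IP a a T).re + (IP b b T).re - 2 * (IP a b T).re) +
      l / 2 * (IP c c T).re := by
  have hL : 0 < Real.log T := Real.log_pos hT
  have hT0 : 0 < T := by linarith
  set L := Real.log T with hLdef
  have hk : 0 < T * L ^ 9 := by positivity
  have ca := Fs_cont (a / L)
  have cb := Fs_cont (b / L)
  have cc := Fs_cont (c / L)
  have cre : ∀ {f g : ℝ → ℂ}, Continuous f → Continuous g → Continuous fun t => (f t * conj (g t)).re :=
    fun hf hg => Complex.continuous_re.comp (hf.mul (continuous_conj.comp hg))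
  rw [IP_re, IP_re, IP_re, IP_re]
  unfold IP
  have cac : Continuous fun t : ℝ => F3 (t + a / L) * conj (F3 (t + c / L)) :=
    ca.mul (continuous_conj.comp cc)
  have cbc : Continuous fun t : ℝ => F3 (t + b / L) * conj (F3 (t + c / L)) :=
    cb.mul (continuous_conj.comp cc)
  rw [← hLdef, ← mul_sub, ← intervalIntegral.integral_sub (cac.intervalIntegrable _ _)
    (cbc.intervalIntegrable _ _), norm_mul, norm_inv, Complex.norm_real,
    Real.norm_eq_abs, abs_of_pos hk]
  have h1 : ‖∫ t in (0:ℝ)..T, (F3 (t + a / L) * conj (F3 (t + c / L)) -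
      F3 (t + b / L) * conj (F3 (t + c / L)))‖ ≤
      ∫ t in (0:ℝ)..T, ((2 * l)⁻¹ * ((F3 (t + a / L) * conj (F3 (t + a / L))).re +
        (F3 (t + b / L) * conj (F3 (t + b / L))).re - 2 * (F3 (t + a / L) * conj (F3 (t + b / L))).re) +
        l / 2 * (F3 (t + c / L) * conj (F3 (t + c / L))).re) := by
    refine (intervalIntegral.norm_integral_le_integral_norm hT0.le).trans ?_
    refine intervalIntegral.integral_mono_on hT0.le ?_ ?_ fun t _ => ?_
    · exact ((cac.sub cbc).norm).intervalIntegrable _ _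
    · exact ((continuous_const.mul (((cre ca ca).add (cre cb cb)).sub (continuous_const.mul (cre ca cb)))).add
        (continuous_const.mul (cre cc cc))).intervalIntegrable _ _
    · set A := F3 (t + a / L)
      set B := F3 (t + b / L)
      set C := F3 (t + c / L)
      have e1 : (A * conj A).re + (B * conj B).re - 2 * (A * conj B).re = ‖A - B‖ ^ 2 := by
        rw [← normSq_eq_norm_sq, normSq_sub, mul_conj, mul_conj, ofReal_re, ofReal_re]
      have e2 : (C * conj C).re = ‖C‖ ^ 2 := by rw [mul_conj, ofReal_re, normSq_eq_norm_sq]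
      rw [e1, e2, ← sub_mul, norm_mul, RCLike.norm_conj]
      have h3 : 0 ≤ (2 * l)⁻¹ * (‖A - B‖ - l * ‖C‖) ^ 2 := by positivity
      have h4 : (2 * l)⁻¹ * (‖A - B‖ - l * ‖C‖) ^ 2 = (2 * l)⁻¹ * ‖A - B‖ ^ 2 - ‖A - B‖ * ‖C‖ +
          l / 2 * ‖C‖ ^ 2 := by
        field_simp
        ring
      linarith
  have h2 : (∫ t in (0:ℝ)..T, ((2 * l)⁻¹ * ((F3 (t + a / L) * conj (F3 (t + a / L))).re +
        (F3 (t + b / L) * conj (F3 (t + b / L))).re - 2 * (F3 (t + a / L) * conj (F3 (t + b / L))).re) +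
        l / 2 * (F3 (t + c / L) * conj (F3 (t + c / L))).re)) =
      (2 * l)⁻¹ * ((∫ t in (0:ℝ)..T, (F3 (t + a / L) * conj (F3 (t + a / L))).re) +
        (∫ t in (0:ℝ)..T, (F3 (t + b / L) * conj (F3 (t + b / L))).re) -
        2 * ∫ t in (0:ℝ)..T, (F3 (t + a / L) * conj (F3 (t + b / L))).re) +
        l / 2 * ∫ t in (0:ℝ)..T, (F3 (t + c / L) * conj (F3 (t + c / L))).re := by
    rw [intervalIntegral.integral_add, intervalIntegral.integral_const_mul,
      intervalIntegral.integral_const_mul, intervalIntegral.integral_sub, intervalIntegral.integral_add,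
      intervalIntegral.integral_const_mul]
    · exact (cre ca ca).intervalIntegrable _ _
    · exact (cre cb cb).intervalIntegrable _ _
    · exact ((cre ca ca).add (cre cb cb)).intervalIntegrable _ _
    · exact (continuous_const.mul (cre ca cb)).intervalIntegrable _ _
    · exact (continuous_const.mul (((cre ca ca).add (cre cb cb)).sub
        (continuous_const.mul (cre ca cb)))).intervalIntegrable _ _
    · exact (continuous_const.mul (cre cc cc)).intervalIntegrable _ _
  rw [h2] at h1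
  calc (T * L ^ 9)⁻¹ * _ ≤ (T * L ^ 9)⁻¹ * _ := mul_le_mul_of_nonneg_left h1 (by positivity)
    _ = _ := by ring

theorem cross_ev (hW : WeylB) (a b : ℝ) {e : ℝ} (he : 0 < e) : ∀ᶠ T : ℝ in atTop,
    ‖IP a b T - MP069854.Qk 3 ((a - b) / 2) T‖ ≤ e := by
  obtain ⟨C, hC, hcr⟩ := cross hW
  have hlim : Tendsto (fun T : ℝ => C * (1 + |a| + |b|) ^ 8 * (Real.log T)⁻¹ ^ 3) atTop (𝓝 0) := by
    simpa using invlog_pow_tendsto.const_mul (C * (1 + |a| + |b|) ^ 8)
  filter_upwards [hlim.eventually (gt_mem_nhds he), eventually_ge_atTop (3 : ℝ)] with T h1 hT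
  exact (hcr T a b hT).trans h1.le

theorem AA_le (x : ℝ) : AA x ≤ x ^ 2 / 2 * KE (fun u => (u - 3) ^ 2) := by
  unfold AA
  rw [← KE_smul]
  refine KE_mono (by fun_prop) (by fun_prop) fun u => ?_
  have := Real.one_sub_sq_div_two_le_cos (x := x * (u - 3))
  nlinarith

/-- `Q(h)` is close to `Q(0)` for small `h` -/
theorem small_h (hW : WeylB) {ε : ℝ} (hε : 0 < ε) : ∃ ρ : ℝ, 0 < ρ ∧ ∀ h : ℝ, |h| < ρ →
    ∀ᶠ T : ℝ in atTop, (MP069854.Qk 3 0 T).re - (MP069854.Qk 3 h T).re ≤
      ε * (1 + (MP069854.Qk 3 0 T).re) := by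
  obtain ⟨C, hC, hQ⟩ := Qk_bound hW
  have hA := MP069854.arith_pos 3
  set K' := KE (fun u => (u - 3) ^ 2) with hK'
  have hK'0 : 0 ≤ K' := by
    have h := KE_mono (H1 := fun _ => (0:ℝ)) (H2 := fun u => (u - 3) ^ 2) continuous_const (by fun_prop)
      (fun _ => by positivity)
    refine le_trans (le_of_eq ?_) h
    unfold KE
    simp
  set M := MP069854.arith 3 * K' + 1 + 768 with hM
  have hM0 : 0 < M := by positivity
  -- positive `h` first
  have key : ∀ h : ℝ, 0 < h → h < min 1 (ε / (2 * M)) → ∀ᶠ T : ℝ in atTop,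
      (MP069854.Qk 3 0 T).re - (MP069854.Qk 3 h T).re ≤ ε * (1 + (MP069854.Qk 3 0 T).re) := by
    intro h h0 hlt
    have h1 : h < 1 := hlt.trans_le (min_le_left _ _)
    have h2 : h < ε / (2 * M) := hlt.trans_le (min_le_right _ _)
    have h2' : h * M ≤ ε / 2 := by
      rw [lt_div_iff₀ (by positivity)] at h2
      linarith
    have hup := upper_pos hW h0 (by linarith [Real.pi_gt_three]) (by positivity : 0 < ε / 2)
    have hlim : Tendsto (fun T : ℝ => C * (Real.log T)⁻¹ ^ 3) atTop (𝓝 0) := by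
      simpa using invlog_pow_tendsto.const_mul C
    filter_upwards [hup, hlim.eventually (gt_mem_nhds zero_lt_one), eventually_ge_atTop (3 : ℝ)] with T u1 u2 hT
    have hX0 := X_nonneg (by linarith : 1 < T)
    set X := (MP069854.Qk 3 0 T).re with hX
    have h3 := hQ T h hT
    rw [abs_of_pos h0, ← hX] at h3
    have h4 : ‖MP069854.Qk 3 h T‖ ≤ 256 * (1 + X) := by
      refine h3.trans ?_
      have : (1 + h) ^ 8 ≤ 256 := by
        calc (1 + h) ^ 8 ≤ 2 ^ 8 := by gcongr; linarith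
          _ = 256 := by norm_num
      have hL : 0 < Real.log T := Real.log_pos (by linarith)
      have h5 : 0 ≤ X + C * (Real.log T)⁻¹ ^ 3 := by positivity
      calc (1 + h) ^ 8 * (X + C * (Real.log T)⁻¹ ^ 3) ≤ 256 * (X + C * (Real.log T)⁻¹ ^ 3) := by gcongr
        _ ≤ 256 * (1 + X) := by linarith
    have h5 : ‖exp (3 * h * I) - 1‖ ≤ 3 * h := by
      have := Real.norm_exp_I_mul_ofReal_sub_one_le (x := 3 * h)
      rw [Real.norm_eq_abs, abs_of_pos (by positivity)] at this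
      rw [show (3 * (h : ℂ) * I) = I * ((3 * h : ℝ) : ℂ) by push_cast; ring]
      exact this
    have h6 : |(exp (3 * h * I) * MP069854.Qk 3 h T).re - (MP069854.Qk 3 h T).re| ≤ 768 * h * (1 + X) := by
      rw [← sub_re]
      refine (abs_re_le_norm _).trans ?_
      have : exp (3 * h * I) * MP069854.Qk 3 h T - MP069854.Qk 3 h T =
        (exp (3 * h * I) - 1) * MP069854.Qk 3 h T := by ring
      rw [this, norm_mul]
      calc ‖exp (3 * h * I) - 1‖ * ‖MP069854.Qk 3 h T‖ ≤ (3 * h) * (256 * (1 + X)) := by gcongr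
        _ = 768 * h * (1 + X) := by ring
    have h7 := (abs_le.1 h6).2
    have h8 := AA_le h
    have h9 : 1 - Real.cos h ≤ h ^ 2 / 2 := by linarith [Real.one_sub_sq_div_two_le_cos (x := h)]
    have h10 : 0 ≤ 1 - Real.cos h := by linarith [Real.cos_le_one h]
    have h11 : 0 ≤ MP069854.arith 3 * KE (fun _ => 1) := mul_nonneg hA.le KE_one_nonneg
    have h12 : (1 - Real.cos h) * (X - MP069854.arith 3 * KE (fun _ => 1)) ≤ h ^ 2 / 2 * X := by
      nlinarith
    have h13 : MP069854.arith 3 * AA h ≤ MP069854.arith 3 * (h ^ 2 / 2 * K') :=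
      mul_le_mul_of_nonneg_left h8 hA.le
    have h14 : h ^ 2 ≤ h := by nlinarith
    have h15 : MP069854.arith 3 * (h ^ 2 / 2 * K') ≤ h * (MP069854.arith 3 * K') := by
      have : 0 ≤ MP069854.arith 3 * K' := by positivity
      nlinarith
    have h16 : h ^ 2 / 2 * X ≤ h * X := by nlinarith
    have h17 : h * M * (1 + X) ≤ ε / 2 * (1 + X) := mul_le_mul_of_nonneg_right h2' (by linarith)
    have h18 : h * (MP069854.arith 3 * K') ≤ h * (MP069854.arith 3 * K') * (1 + X) := by
      have : 0 ≤ h * (MP069854.arith 3 * K') * X := by positivity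
      linarith
    rw [hM] at h17
    nlinarith
  refine ⟨min 1 (ε / (2 * M)), by positivity, fun h hh => ?_⟩
  rcases lt_trichotomy h 0 with h0 | h0 | h0
  · rw [abs_of_neg h0] at hh
    refine (key (-h) (by linarith) hh).mono fun T hT => ?_
    rw [Qk_neg, conj_re] at hT
    exact hT
  · subst h0
    filter_upwards [eventually_gt_atTop (1 : ℝ)] with T hT
    have := X_nonneg hT
    rw [sub_self]; positivity
  · rw [abs_of_pos h0] at hh
    exact key h h0 hh

/-- **Equicontinuity**. -/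
theorem equi (hW : WeylB) {ε : ℝ} (hε : 0 < ε) : ∃ ρ : ℝ, 0 < ρ ∧ ∀ x y : ℝ, |x - y| < ρ →
    ∀ᶠ T : ℝ in atTop, ‖MP069854.Qk 3 x T - MP069854.Qk 3 y T‖ ≤ ε * (1 + (MP069854.Qk 3 0 T).re) := by
  -- `l = ε`, small_h with `ε² / 4`
  obtain ⟨ρ, hρ, hsm⟩ := small_h hW (by positivity : 0 < ε ^ 2 / 4)
  refine ⟨ρ, hρ, fun x y hxy => ?_⟩
  set e := min (min (ε / 16) (ε ^ 2 / 16)) (1 / 8) with he
  have he0 : 0 < e := by positivity
  have he1 : e ≤ ε / 16 := (min_le_left _ _).trans (min_le_left _ _)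
  have he2 : e ≤ ε ^ 2 / 16 := (min_le_left _ _).trans (min_le_right _ _)
  have he3 : e ≤ 1 / 8 := min_le_right _ _
  filter_upwards [hsm (x - y) hxy, cross_ev hW (2 * x) 0 he0, cross_ev hW (2 * y) 0 he0,
    cross_ev hW (2 * x) (2 * x) he0, cross_ev hW (2 * y) (2 * y) he0, cross_ev hW (2 * x) (2 * y) he0,
    cross_ev hW 0 0 he0, eventually_gt_atTop (1 : ℝ)] with T s1 c1 c2 c3 c4 c5 c6 hT
  have hX0 := X_nonneg hT
  rw [show (2 * x - 0) / 2 = x by ring] at c1
  rw [show (2 * y - 0) / 2 = y by ring] at c2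
  rw [show (2 * x - 2 * x) / 2 = 0 by ring] at c3
  rw [show (2 * y - 2 * y) / 2 = 0 by ring] at c4
  rw [show (2 * x - 2 * y) / 2 = x - y by ring] at c5
  rw [show ((0:ℝ) - 0) / 2 = 0 by ring] at c6
  set X := (MP069854.Qk 3 0 T).re with hX
  have r3 := (abs_le.1 ((abs_re_le_norm _).trans c3)).2
  have r4 := (abs_le.1 ((abs_re_le_norm _).trans c4)).2
  have r5 := (abs_le.1 ((abs_re_le_norm _).trans c5)).1
  have r6 := (abs_le.1 ((abs_re_le_norm _).trans c6)).2
  rw [sub_re, ← hX] at r3 r4 r6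
  rw [sub_re] at r5
  have h1 := ip_ineq hT (2 * x) (2 * y) 0 hε
  have h2 : ‖MP069854.Qk 3 x T - MP069854.Qk 3 y T‖ ≤ ‖IP (2 * x) 0 T - IP (2 * y) 0 T‖ + 2 * e := by
    have : MP069854.Qk 3 x T - MP069854.Qk 3 y T = (IP (2 * x) 0 T - IP (2 * y) 0 T) -
      (IP (2 * x) 0 T - MP069854.Qk 3 x T) + (IP (2 * y) 0 T - MP069854.Qk 3 y T) := by ring
    rw [this]
    refine (norm_add_le _ _).trans ?_
    have := norm_sub_le (IP (2 * x) 0 T - IP (2 * y) 0 T) (IP (2 * x) 0 T - MP069854.Qk 3 x T)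
    linarith
  have h3 : (2 * ε)⁻¹ * ((IP (2 * x) (2 * x) T).re + (IP (2 * y) (2 * y) T).re -
      2 * (IP (2 * x) (2 * y) T).re) ≤ (2 * ε)⁻¹ * (ε ^ 2 / 2 * (1 + X) + 4 * e) := by
    apply mul_le_mul_of_nonneg_left _ (by positivity)
    linarith
  have h4 : (2 * ε)⁻¹ * (ε ^ 2 / 2 * (1 + X) + 4 * e) ≤ ε / 4 * (1 + X) + ε / 8 := by
    rw [inv_mul_le_iff₀ (by positivity)]
    nlinarith
  have h5 : ε / 2 * (IP 0 0 T).re ≤ ε / 2 * (X + e) := by
    apply mul_le_mul_of_nonneg_left _ (by positivity)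
    linarith
  have h6 : ε / 2 * e ≤ ε / 16 * (1 + X) := by
    nlinarith [mul_nonneg hε.le hX0]
  nlinarith

end OSX
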