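import Pool.Agent.Lib.MP_39df77_nt.OS.OSM

set_option autoImplicit false

namespace OSX
open Filter Topology Complex Set MeasureTheory OSV
open scoped ComplexConjugate ContDiff

variable {m : ℕ}

/-- `Re ∑ c_j e^{-i x_j u}` -/
noncomputable def DD (x : Fin m → ℝ) (c : Fin m → ℂ) (u : ℝ) : ℝ :=
  (∑ j, c j * exp (-(I * x j * u))).re

theorem DD_smooth (x : Fin m → ℝ) (c : Fin m → ℂ) : ContDiff ℝ ∞ (DD x c) := by
  unfold DD
  have h1 : ContDiff ℝ ∞ fun u : ℝ => ∑ j, c j * exp (-(I * x j * u)) := by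
    refine ContDiff.sum fun j _ => contDiff_const.mul ?_
    have : ContDiff ℝ ∞ fun u : ℝ => -(I * x j * (u : ℂ)) :=
      (contDiff_const.mul Complex.ofRealCLM.contDiff).neg
    exact this.cexp
  exact Complex.reCLM.contDiff.comp h1

theorem DD_diff (x y : Fin m → ℝ) (c : Fin m → ℂ) {r : ℝ} (hr : ∀ j, |x j - y j| ≤ r) (u : ℝ) :
    |DD x c u - DD y c u| ≤ (∑ j, ‖c j‖) * r * |u| := by
  unfold DD
  rw [← sub_re, ← Finset.sum_sub_distrib]
  refine (abs_re_le_norm _).trans ((norm_sum_le _ _).trans ?_)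
  rw [mul_assoc, Finset.sum_mul]
  refine Finset.sum_le_sum fun j _ => ?_
  rw [← mul_sub, norm_mul]
  refine mul_le_mul_of_nonneg_left ?_ (norm_nonneg _)
  have e : exp (-(I * x j * u)) - exp (-(I * y j * u)) =
      exp (-(I * y j * u)) * (exp (I * ((-((x j - y j) * u) : ℝ) : ℂ)) - 1) := by
    rw [mul_sub, mul_one, ← Complex.exp_add]
    congr 2
    push_cast; ring
  have e2 : ‖exp (-(I * (y j : ℂ) * u))‖ = 1 := by
    rw [show -(I * (y j : ℂ) * u) = ((-(y j * u) : ℝ) : ℂ) * I by push_cast; ring, norm_exp_ofReal_mul_I]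
  rw [e, norm_mul, e2, one_mul]
  refine (Real.norm_exp_I_mul_ofReal_sub_one_le).trans ?_
  rw [Real.norm_eq_abs, abs_neg, abs_mul]
  exact mul_le_mul_of_nonneg_right (hr j) (abs_nonneg _)

/-- integer coefficients of a family -/
noncomputable def dd (n : Fin m → ℤ) (c : Fin m → ℂ) (κ : ℝ) (k : ℤ) : ℂ :=
  (∑ j, ((if k = n j then c j / 2 else 0) + if k = -n j then conj (c j) / 2 else 0)) +
    if k = 0 then (κ : ℂ) else 0

/-- its support -/
def supp (n : Fin m → ℤ) : Finset ℤ := insert 0 (Finset.univ.image n ∪ Finset.univ.image fun j => -n j)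

theorem dd_zero (n : Fin m → ℤ) (c : Fin m → ℂ) (κ : ℝ) (k : ℤ) (hk : k ∉ supp n) : dd n c κ k = 0 := by
  unfold supp at hk
  rw [Finset.mem_insert, Finset.mem_union, not_or, not_or] at hk
  obtain ⟨h0, h1, h2⟩ := hk
  unfold dd
  rw [if_neg h0, add_zero]
  refine Finset.sum_eq_zero fun j _ => ?_
  rw [if_neg, if_neg, add_zero]
  · intro h; exact h2 (Finset.mem_image.2 ⟨j, Finset.mem_univ _, h.symm⟩)
  · intro h; exact h1 (Finset.mem_image.2 ⟨j, Finset.mem_univ _, h.symm⟩)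

theorem dd_hasSum (n : Fin m → ℤ) (c : Fin m → ℂ) (κ : ℝ) (g : ℤ → ℂ) :
    HasSum (fun k => dd n c κ k * g k)
      ((∑ j, (c j / 2 * g (n j) + conj (c j) / 2 * g (-n j))) + κ * g 0) := by
  have h1 : HasSum (fun k : ℤ => ∑ j, ((if k = n j then c j / 2 * g (n j) else 0) +
      if k = -n j then conj (c j) / 2 * g (-n j) else 0))
      (∑ j, (c j / 2 * g (n j) + conj (c j) / 2 * g (-n j))) :=
    hasSum_sum fun j _ => (hasSum_ite_eq (n j) _).add (hasSum_ite_eq (-n j) _)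
  have h2 : HasSum (fun k : ℤ => if k = 0 then (κ : ℂ) * g 0 else 0) ((κ : ℂ) * g 0) := hasSum_ite_eq 0 _
  have h3 := h1.add h2
  have e : (fun k => dd n c κ k * g k) = fun k : ℤ => (∑ j, ((if k = n j then c j / 2 * g (n j) else 0) +
      if k = -n j then conj (c j) / 2 * g (-n j) else 0)) + if k = 0 then (κ : ℂ) * g 0 else 0 := by
    funext k
    unfold dd
    rw [add_mul, Finset.sum_mul]
    congr 1
    · refine Finset.sum_congr rfl fun j _ => ?_
      rw [add_mul]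
      congr 1
      · split_ifs with h
        · rw [h]
        · rw [zero_mul]
      · split_ifs with h
        · rw [h]
        · rw [zero_mul]
    · split_ifs with h
      · rw [h]
      · rw [zero_mul]
  rw [e]
  exact h3

theorem FZ_dd (δ : ℝ) (n : Fin m → ℤ) (c : Fin m → ℂ) (κ : ℝ) (u : ℝ) :
    MP069854.FZ δ (dd n c κ) u = ((DD (fun j => δ * n j) c u + κ : ℝ) : ℂ) := by
  unfold MP069854.FZ
  rw [(dd_hasSum n c κ _).tsum_eq]
  unfold DD
  rw [ofReal_add]
  congr 1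
  · rw [Complex.re_eq_add_conj, map_sum, ← Finset.sum_add_distrib, Finset.sum_div]
    refine Finset.sum_congr rfl fun j _ => ?_
    have e1 : exp (-(((δ * (n j) : ℝ) : ℂ) * u) * I) = exp (-(I * ((δ * n j : ℝ) : ℂ) * u)) := by
      congr 1; ring
    have e2 : exp (-(((δ * ((-n j : ℤ) : ℝ) : ℝ) : ℂ) * u) * I) =
        conj (exp (-(I * ((δ * n j : ℝ) : ℂ) * u))) := by
      rw [← exp_conj]
      congr 1
      simp only [map_neg, map_mul, conj_I, conj_ofReal]
      push_cast; ring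
    rw [e1, e2, map_mul]
    ring
  · simp

/-- **Cone theorem.** -/
theorem cone (hW : WeylB) (x : Fin m → ℝ) (c : Fin m → ℂ) (hpos : ∀ u : ℝ, 2 ≤ u → u ≤ 4 → 0 ≤ DD x c u)
    {ε : ℝ} (hε : 0 < ε) :
    ∀ᶠ T : ℝ in atTop, MP069854.arith 3 * KE (DD x c) - ε * (1 + (MP069854.Qk 3 0 T).re) ≤
      (∑ j, c j * MP069854.Qk 3 (x j) T).re := by
  have hA := MP069854.arith_pos 3
  set Cs := ∑ j, ‖c j‖ with hCs
  have hCs0 : 0 ≤ Cs := Finset.sum_nonneg fun _ _ => norm_nonneg _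
  obtain ⟨ρ, hρ, heq⟩ := equi hW (by positivity : 0 < ε / 4 / (Cs + 1))
  set Ka := KE (fun u => |u|) with hKa
  have hKa0 : 0 ≤ Ka := by
    have h := KE_mono (H1 := fun _ => (0:ℝ)) (H2 := fun u => |u|) continuous_const (by fun_prop)
      (fun _ => abs_nonneg _)
    refine le_trans (le_of_eq ?_) h
    unfold KE
    simp
  obtain ⟨δ, hδ, hδ1, hδρ, hδM⟩ : ∃ δ : ℝ, 0 < δ ∧ δ ≤ 1 ∧ δ < ρ ∧
      δ * (MP069854.arith 3 * (Cs * Ka) + 4 * Cs) ≤ ε / 4 := by
    set M := MP069854.arith 3 * (Cs * Ka) + 4 * Cs with hM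
    have hM0 : 0 ≤ M := by positivity
    refine ⟨min (min 1 (ρ / 2)) (ε / 4 / (M + 1)), by positivity, (min_le_left _ _).trans (min_le_left _ _),
      ((min_le_left _ _).trans (min_le_right _ _)).trans_lt (by linarith), ?_⟩
    have h1 : min (min 1 (ρ / 2)) (ε / 4 / (M + 1)) ≤ ε / 4 / (M + 1) := min_le_right _ _
    calc min (min 1 (ρ / 2)) (ε / 4 / (M + 1)) * M ≤ ε / 4 / (M + 1) * (M + 1) := by
          gcongr; linarith
      _ = ε / 4 := by field_simp
  set n : Fin m → ℤ := fun j => round (x j / δ) with hn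
  set y : Fin m → ℝ := fun j => δ * n j with hy
  have hxy : ∀ j, |x j - y j| ≤ δ := by
    intro j
    have h1 := abs_sub_round (x j / δ)
    have h2 : x j - y j = δ * (x j / δ - n j) := by
      rw [hy]; simp only; field_simp
    rw [h2, abs_mul, abs_of_pos hδ]
    have : |x j / δ - n j| ≤ 1 := h1.trans (by norm_num)
    nlinarith
  set κ : ℝ := 4 * Cs * δ with hκ
  have hκ0 : 0 ≤ κ := by positivity
  have hdiff := DD_diff x y c hxy
  have hposy : ∀ u : ℝ, 2 ≤ u → u ≤ 4 → 0 ≤ DD y c u + κ := by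
    intro u hu1 hu2
    have h1 := hpos u hu1 hu2
    have h2 := (abs_le.1 (hdiff u)).2
    rw [abs_of_nonneg (by linarith : 0 ≤ u)] at h2
    have h3 : Cs * δ * u ≤ Cs * δ * 4 := by gcongr
    rw [hκ]; linarith
  have hdisc := cone_disc hW hδ (by linarith [Real.pi_gt_three]) (dd_zero n c κ)
    ((DD_smooth y c).add contDiff_const) (FZ_dd δ n c κ) hposy (by positivity : 0 < ε / 4)
  have hKE : KE (DD x c) ≤ KE (fun u => DD y c u + κ) + Cs * δ * Ka := by
    have cy : Continuous fun u : ℝ => DD y c u + κ := (DD_smooth y c).continuous.add continuous_const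
    have cu : Continuous fun u : ℝ => Cs * δ * |u| := by fun_prop
    rw [hKa, ← KE_smul, ← KE_add cy cu]
    refine KE_mono (DD_smooth x c).continuous (cy.add cu) fun u => ?_
    have h2 := (abs_le.1 (hdiff u)).2
    linarith
  have hev : ∀ᶠ T : ℝ in atTop, ∀ j : Fin m, ‖MP069854.Qk 3 (x j) T - MP069854.Qk 3 (y j) T‖ ≤
      ε / 4 / (Cs + 1) * (1 + (MP069854.Qk 3 0 T).re) :=
    eventually_all.2 fun j => heq (x j) (y j) ((hxy j).trans_lt hδρ)
  filter_upwards [hdisc, hev, eventually_gt_atTop (1 : ℝ)] with T h1 h2 hT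
  have hX0 := X_nonneg hT
  set X := (MP069854.Qk 3 0 T).re with hX
  have h3 := ((finsupp_hasSum (dd_zero n c κ) (fun k => MP069854.Qk 3 (δ * k) T)).unique
    (dd_hasSum n c κ (fun k => MP069854.Qk 3 (δ * k) T)))
  rw [h3] at h1
  have h4 : ((∑ j, (c j / 2 * MP069854.Qk 3 (δ * (n j : ℤ)) T +
      conj (c j) / 2 * MP069854.Qk 3 (δ * ((-n j : ℤ) : ℝ)) T)) + (κ : ℂ) * MP069854.Qk 3 (δ * ((0 : ℤ) : ℝ)) T).re =
      (∑ j, c j * MP069854.Qk 3 (y j) T).re + κ * X := by
    rw [add_re, re_ofReal_mul, Int.cast_zero, mul_zero, ← hX]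
    congr 1
    rw [re_sum, re_sum]
    refine Finset.sum_congr rfl fun j _ => ?_
    have e1 : δ * ((-n j : ℤ) : ℝ) = -(y j) := by rw [hy]; push_cast; ring
    have e2 : δ * ((n j : ℤ) : ℝ) = y j := rfl
    rw [e1, e2, Qk_neg]
    have : c j / 2 * MP069854.Qk 3 (y j) T + conj (c j) / 2 * conj (MP069854.Qk 3 (y j) T) =
        (c j * MP069854.Qk 3 (y j) T + conj (c j * MP069854.Qk 3 (y j) T)) / 2 := by
      rw [map_mul]; ring
    rw [this, add_conj]
    simp
  rw [h4] at h1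
  have h5 : |(∑ j, c j * MP069854.Qk 3 (x j) T).re - (∑ j, c j * MP069854.Qk 3 (y j) T).re| ≤
      ε / 4 * (1 + X) := by
    rw [← sub_re, ← Finset.sum_sub_distrib]
    refine (abs_re_le_norm _).trans ((norm_sum_le _ _).trans ?_)
    calc ∑ j, ‖c j * MP069854.Qk 3 (x j) T - c j * MP069854.Qk 3 (y j) T‖
        ≤ ∑ j, ‖c j‖ * (ε / 4 / (Cs + 1) * (1 + X)) := by
          refine Finset.sum_le_sum fun j _ => ?_
          rw [← mul_sub, norm_mul]
          exact mul_le_mul_of_nonneg_left (h2 j) (norm_nonneg _)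
      _ = Cs * (ε / 4 / (Cs + 1)) * (1 + X) := by rw [← Finset.sum_mul]; ring
      _ ≤ ε / 4 * (1 + X) := by
          gcongr
          rw [mul_div_assoc', div_le_iff₀ (by positivity)]
          nlinarith
  have h6 := (abs_le.1 h5).1
  have h7 : MP069854.arith 3 * KE (DD x c) ≤ MP069854.arith 3 * KE (fun u => DD y c u + κ) +
      MP069854.arith 3 * (Cs * δ * Ka) := by
    rw [← mul_add]
    exact mul_le_mul_of_nonneg_left hKE hA.le
  have h8 : δ * (MP069854.arith 3 * (Cs * Ka) + 4 * Cs) * (1 + X) ≤ ε / 4 * (1 + X) :=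
    mul_le_mul_of_nonneg_right hδM (by linarith)
  have h9 : 0 ≤ MP069854.arith 3 * (Cs * δ * Ka) * X := by positivity
  have h10 : κ = 4 * Cs * δ := rfl
  nlinarith

end OSX
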