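import Pool.Agent.Lib.MP_39df77_nt.Part23

set_option autoImplicit false

namespace MP069854
open Filter Topology Complex Set MeasureTheory
open scoped ContDiff FourierTransform

/-- Fourier coefficients of a smooth function supported in an interval shorter than the period. -/
lemma poisson_coeff {δ x y : ℝ} (hδ : 0 < δ) {b : ℝ → ℂ} (tb : TF b x y)
    (hxy : y - x < 2 * Real.pi / δ) :
    ∃ c : ℤ → ℂ, (∀ m : ℕ, Summable fun n : ℤ => |(n : ℝ)| ^ m * ‖c n‖) ∧
      ∀ u : ℝ, x ≤ u → u ≤ y → FZ δ c u = b u := by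
  set P : ℝ := 2 * Real.pi / δ with hP
  have hP0 : 0 < P := by have := Real.pi_pos; (clear * - hδ; positivity)
  have hδP : δ * P = 2 * Real.pi := by rw [hP]; field_simp
  refine ⟨fun n => (P : ℂ)⁻¹ * G b (((δ * n : ℝ) : ℂ) * I), ?_, ?_⟩
  · intro m
    obtain ⟨C, hC, hd⟩ := tb.decay_strip (m + 2)
    have hg := (Real.summable_abs_int_rpow (show (1:ℝ) < 2 by norm_num)).mul_left
      (P⁻¹ * C * (δ ^ (m + 2))⁻¹)
    refine hg.of_norm_bounded_eventually ?_
    have hne : ∀ᶠ n : ℤ in cofinite, n ≠ 0 := by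
      rw [eventually_cofinite]
      refine (finite_singleton (0:ℤ)).subset fun n hn => ?_
      simpa using hn
    filter_upwards [hne] with n hn
    have hn0 : 0 < |(n : ℝ)| := abs_pos.2 (by exact_mod_cast hn)
    have e1 := hd (((δ * n : ℝ) : ℂ) * I) (by simp)
    have him : ((((δ * n : ℝ)) : ℂ) * I).im = δ * n := by simp
    rw [him] at e1
    have e2 : (δ * |(n : ℝ)|) ^ (m + 2) ≤ (1 + |δ * n|) ^ (m + 2) := by
      apply pow_le_pow_left₀ (by (clear * - hδ hn; positivity))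
      rw [abs_mul, abs_of_pos hδ]; linarith only []
    have e3 : ‖G b (((δ * n : ℝ) : ℂ) * I)‖ * (δ ^ (m + 2) * |(n : ℝ)| ^ (m + 2)) ≤ C := by
      rw [← mul_pow]
      exact (mul_le_mul_of_nonneg_left e2 (norm_nonneg _)).trans e1
    rw [Real.norm_eq_abs, abs_of_nonneg (by (clear * - hn; positivity)), norm_mul, norm_inv, Complex.norm_real,
      Real.norm_eq_abs, abs_of_pos hP0, Real.rpow_neg hn0.le, Real.rpow_two]
    have e4 : |(n : ℝ)| ^ m * ‖G b (((δ * n : ℝ) : ℂ) * I)‖ ≤ C * (δ ^ (m + 2))⁻¹ * (|(n : ℝ)| ^ 2)⁻¹ := by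
      rw [← div_eq_mul_inv, ← div_eq_mul_inv, div_div, le_div_iff₀ (by (clear * - hδ hn; positivity))]
      calc |(n : ℝ)| ^ m * ‖G b (((δ * n : ℝ) : ℂ) * I)‖ * (δ ^ (m + 2) * |(n : ℝ)| ^ 2)
          = ‖G b (((δ * n : ℝ) : ℂ) * I)‖ * (δ ^ (m + 2) * |(n : ℝ)| ^ (m + 2)) := by ring
        _ ≤ C := e3
    calc |(n : ℝ)| ^ m * (P⁻¹ * ‖G b (((δ * n : ℝ) : ℂ) * I)‖)
        = P⁻¹ * (|(n : ℝ)| ^ m * ‖G b (((δ * n : ℝ) : ℂ) * I)‖) := by ring
      _ ≤ P⁻¹ * (C * (δ ^ (m + 2))⁻¹ * (|(n : ℝ)| ^ 2)⁻¹) := by (clear * - hδ e4; gcongr)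
      _ = _ := by ring
  · intro u hu1 hu2
    -- Poisson summation
    have hF : ∀ n : ℤ, 𝓕 (fun x : ℝ => b (P * x)) (n : ℝ) =
        (P : ℂ)⁻¹ * G b (((δ * (-n : ℤ) : ℝ) : ℂ) * I) := by
      intro n
      rw [Real.fourier_eq']
      have h1 := Measure.integral_comp_mul_left
        (fun v : ℝ => b v * exp ((v : ℂ) * (((δ * (-n : ℤ) : ℝ) : ℂ) * I))) P
      rw [abs_of_pos (inv_pos.2 hP0), Complex.real_smul, ofReal_inv] at h1
      unfold G
      rw [← h1]
      refine integral_congr_ae (Eventually.of_forall fun v => ?_)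
      simp only [smul_eq_mul]
      rw [mul_comm]
      congr 2
      have h2 : (-2 * Real.pi * inner ℝ v (n : ℝ) : ℝ) = P * v * (δ * (-n : ℤ)) := by
        simp only [RCLike.inner_apply, conj_trivial]
        push_cast
        linear_combination (-(v * n)) * hδP.symm
      rw [h2]; push_cast; ring
    have hsum0 : Summable fun n : ℤ => 𝓕 (fun x : ℝ => b (P * x)) (n : ℝ) := by
      simp_rw [hF]
      obtain ⟨C, hC, hd⟩ := tb.decay_strip 2
      have hg := (Real.summable_abs_int_rpow (show (1:ℝ) < 2 by norm_num)).mul_left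
        (P⁻¹ * C * (δ ^ 2)⁻¹)
      refine hg.of_norm_bounded_eventually ?_
      have hne : ∀ᶠ n : ℤ in cofinite, n ≠ 0 := by
        rw [eventually_cofinite]
        refine (finite_singleton (0:ℤ)).subset fun n hn => ?_
        simpa using hn
      filter_upwards [hne] with n hn
      have hn0 : 0 < |(n : ℝ)| := abs_pos.2 (by exact_mod_cast hn)
      have e1 := hd (((δ * (-n : ℤ) : ℝ) : ℂ) * I) (by simp)
      have him : ((((δ * (-n : ℤ) : ℝ)) : ℂ) * I).im = δ * (-n : ℤ) := by simp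
      rw [him] at e1
      have e2 : (δ * |(n : ℝ)|) ^ 2 ≤ (1 + |δ * (-n : ℤ)|) ^ 2 := by
        apply pow_le_pow_left₀ (by (clear * - hδ hn; positivity))
        rw [abs_mul, abs_of_pos hδ]; push_cast; rw [abs_neg]; linarith only []
      rw [norm_mul, norm_inv, Complex.norm_real,
        Real.norm_eq_abs, abs_of_pos hP0, Real.rpow_neg hn0.le, Real.rpow_two]
      have e4 : ‖G b (((δ * (-n : ℤ) : ℝ) : ℂ) * I)‖ ≤ C * (δ ^ 2)⁻¹ * (|(n : ℝ)| ^ 2)⁻¹ := by
        rw [← div_eq_mul_inv, ← div_eq_mul_inv, div_div, le_div_iff₀ (by (clear * - hδ hn; positivity)), ← mul_pow]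
        exact (mul_le_mul_of_nonneg_left e2 (norm_nonneg _)).trans e1
      calc P⁻¹ * ‖G b (((δ * (-n : ℤ) : ℝ) : ℂ) * I)‖
          ≤ P⁻¹ * (C * (δ ^ 2)⁻¹ * (|(n : ℝ)| ^ 2)⁻¹) := by (clear * - hδ e4; gcongr)
        _ = _ := by ring
    have hpois := Real.tsum_eq_tsum_fourier_of_rpow_decay_of_summable
      (f := fun x : ℝ => b (P * x)) (tb.cont.comp (by fun_prop)) (show (1:ℝ) < 2 by norm_num)
      (tb.isBigO hP0) hsum0 (u / P)
    have hzero : ∀ n : ℤ, n ≠ 0 → b (P * (u / P + n)) = 0 := by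
      intro n hn0
      have e1 : P * (u / P + n) = u + P * n := by field_simp
      rw [e1]
      apply tb.zero_of
      rintro ⟨h1, h2⟩
      rcases lt_or_gt_of_ne hn0 with hn | hn
      · have hn' : (n : ℝ) ≤ -1 := by exact_mod_cast (by omega : n ≤ -1)
        nlinarith only [hP0, hu2, h1, hn', hxy]
      · have hn' : (1 : ℝ) ≤ n := by exact_mod_cast hn
        nlinarith only [hP0, hu1, h2, hn', hxy]
    rw [tsum_eq_single (0 : ℤ) hzero] at hpois
    simp only [hF] at hpois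
    have e0 : P * (u / P + ((0 : ℤ) : ℝ)) = u := by
      rw [Int.cast_zero, add_zero]; field_simp
    rw [e0] at hpois
    have hre : FZ δ (fun n => (P : ℂ)⁻¹ * G b (((δ * n : ℝ) : ℂ) * I)) u =
        ∑' n : ℤ, (P : ℂ)⁻¹ * G b (((δ * (-n : ℤ) : ℝ) : ℂ) * I) *
          fourier n ((u / P : ℝ) : UnitAddCircle) := by
      unfold FZ
      rw [← (Equiv.neg ℤ).tsum_eq]
      refine tsum_congr fun n => ?_
      simp only [Equiv.neg_apply]
      congr 1
      rw [fourier_coe_apply]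
      congr 1
      have hδ' : (δ : ℂ) ≠ 0 := by exact_mod_cast hδ.ne'
      have hpi : (Real.pi : ℂ) ≠ 0 := by exact_mod_cast Real.pi_ne_zero
      rw [hP]
      push_cast
      field_simp
    rw [hre, ← hpois]

end MP069854
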