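import Mathlib

set_option autoImplicit false

namespace OSX
open Filter Topology Complex Set MeasureTheory
open scoped ComplexConjugate

/-- the ordered simplex -/
def Del : Set (ℝ × ℝ × ℝ) := {u | 0 < u.1 ∧ u.1 < u.2.1 ∧ u.2.1 < u.2.2 ∧ u.2.2 < 1}

theorem Del_meas : MeasurableSet Del := by
  have e : Del = {u : ℝ × ℝ × ℝ | 0 < u.1} ∩ {u | u.1 < u.2.1} ∩ {u | u.2.1 < u.2.2} ∩ {u | u.2.2 < 1} := by
    ext u
    simp only [Del, mem_ofPred_eq, mem_inter_iff]
    tauto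
  rw [e]
  refine MeasurableSet.inter (MeasurableSet.inter (MeasurableSet.inter ?_ ?_) ?_) ?_
  all_goals exact measurableSet_lt (by fun_prop) (by fun_prop)

theorem Del_sub : Del ⊆ Icc ((0 : ℝ), (0 : ℝ), (0 : ℝ)) (1, 1, 1) := by
  rintro u ⟨a1, a2, a3, a4⟩
  exact ⟨⟨a1.le, (a1.trans a2).le, (a1.trans (a2.trans a3)).le⟩,
    ⟨(a2.trans (a3.trans a4)).le, (a3.trans a4).le, a4.le⟩⟩

theorem Del_int {E : Type*} [NormedAddCommGroup E] {f : ℝ × ℝ × ℝ → E} (hf : Continuous f) :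
    IntegrableOn f Del :=
  (hf.continuousOn.integrableOn_compact isCompact_Icc).mono_set Del_sub

theorem ii_eq {g : ℝ → ℝ} {a b : ℝ} (hab : a ≤ b) : ∫ t in a..b, g t = ∫ t, (Ioo a b).indicator g t := by
  rw [integral_indicator measurableSet_Ioo, intervalIntegral.integral_of_le hab, integral_Ioc_eq_integral_Ioo]

/-- Fubini -/
theorem Del_fubini {f : ℝ × ℝ × ℝ → ℝ} (hf : Continuous f) :
    ∫ u in Del, f u = ∫ a in (0:ℝ)..1, ∫ b in a..1, ∫ c in b..1, f (a, b, c) := by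
  have hi : Integrable (Del.indicator f) := (integrable_indicator_iff Del_meas).2 (Del_int hf)
  rw [← integral_indicator Del_meas]
  have hv : (volume : Measure (ℝ × ℝ × ℝ)) = (volume : Measure ℝ).prod volume := rfl
  rw [hv] at hi ⊢
  rw [integral_prod _ hi, ii_eq zero_le_one]
  refine integral_congr_ae (Eventually.of_forall fun a => ?_)
  show ∫ y : ℝ × ℝ, Del.indicator f (a, y) = (Ioo (0:ℝ) 1).indicator
    (fun a => ∫ b in a..1, ∫ c in b..1, f (a, b, c)) a
  by_cases ha : a ∈ Ioo (0:ℝ) 1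
  swap
  · rw [indicator_of_notMem ha]
    have h0 : ∀ y : ℝ × ℝ, Del.indicator f (a, y) = 0 := by
      intro y
      apply indicator_of_notMem
      rintro ⟨a1, a2, a3, a4⟩
      exact ha ⟨a1, a2.trans (a3.trans a4)⟩
    simp only [h0, integral_zero]
  rw [indicator_of_mem ha]
  -- second step
  have hfa : Continuous fun y : ℝ × ℝ => f (a, y) := hf.comp (by fun_prop)
  set D2 : Set (ℝ × ℝ) := {y | a < y.1 ∧ y.1 < y.2 ∧ y.2 < 1} with hD2
  have hD2m : MeasurableSet D2 := by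
    have e : D2 = {y : ℝ × ℝ | a < y.1} ∩ {y | y.1 < y.2} ∩ {y | y.2 < 1} := by
      ext y
      simp only [hD2, mem_ofPred_eq, mem_inter_iff]
      tauto
    rw [e]
    refine MeasurableSet.inter (MeasurableSet.inter ?_ ?_) ?_
    all_goals exact measurableSet_lt (by fun_prop) (by fun_prop)
  have e2 : ∀ y : ℝ × ℝ, Del.indicator f (a, y) = D2.indicator (fun y => f (a, y)) y := by
    intro y
    by_cases hy : y ∈ D2
    · rw [indicator_of_mem hy, indicator_of_mem]
      exact ⟨ha.1, hy.1, hy.2.1, hy.2.2⟩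
    · rw [indicator_of_notMem hy, indicator_of_notMem]
      rintro ⟨a1, a2, a3, a4⟩
      exact hy ⟨a2, a3, a4⟩
  simp only [e2]
  have hi2 : Integrable (D2.indicator fun y => f (a, y)) := by
    refine (integrable_indicator_iff hD2m).2 ((hfa.continuousOn.integrableOn_compact
      (isCompact_Icc (a := ((a : ℝ), (a : ℝ))) (b := (1, 1)))).mono_set ?_)
    rintro y ⟨a2, a3, a4⟩
    exact ⟨⟨a2.le, (a2.trans a3).le⟩, ⟨(a3.trans a4).le, a4.le⟩⟩
  have hv2 : (volume : Measure (ℝ × ℝ)) = (volume : Measure ℝ).prod volume := rfl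
  rw [hv2] at hi2 ⊢
  rw [integral_prod _ hi2, ii_eq ha.2.le]
  refine integral_congr_ae (Eventually.of_forall fun b => ?_)
  show ∫ c : ℝ, D2.indicator (fun y => f (a, y)) (b, c) = (Ioo a 1).indicator
    (fun b => ∫ c in b..1, f (a, b, c)) b
  by_cases hb : b ∈ Ioo a 1
  swap
  · rw [indicator_of_notMem hb]
    have h0 : ∀ c : ℝ, D2.indicator (fun y => f (a, y)) (b, c) = 0 := by
      intro c
      apply indicator_of_notMem
      rintro ⟨a2, a3, a4⟩
      exact hb ⟨a2, a3.trans a4⟩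
    simp only [h0, integral_zero]
  rw [indicator_of_mem hb, ii_eq hb.2.le]
  refine integral_congr_ae (Eventually.of_forall fun c => ?_)
  simp only
  by_cases hc : c ∈ Ioo b 1
  · rw [indicator_of_mem hc, indicator_of_mem]
    exact ⟨hb.1, hc.1, hc.2⟩
  · rw [indicator_of_notMem hc, indicator_of_notMem]
    rintro ⟨a2, a3, a4⟩
    exact hc ⟨a3, a4⟩

/-- half the Vandermonde determinant -/
noncomputable def Vv (u : ℝ × ℝ × ℝ) : ℝ := (u.2.1 - u.1) * (u.2.2 - u.1) * (u.2.2 - u.2.1) / 2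

theorem pw (n : ℕ) (a x : ℝ) : HasDerivAt (fun x => (x - a) ^ n) (n * (x - a) ^ (n - 1)) x := by
  have h := ((hasDerivAt_id' x).sub_const a).fun_pow n
  rw [mul_one] at h
  exact h

theorem step1 (a b : ℝ) : ∫ c in b..1, ((b - a) * (c - a) * (c - b) / 2) ^ 2 =
    (b - a) ^ 2 / 4 * ((1 - b) ^ 5 / 5 + (b - a) * (1 - b) ^ 4 / 2 + (b - a) ^ 2 * (1 - b) ^ 3 / 3) := by
  have h := intervalIntegral.integral_eq_sub_of_hasDerivAt (a := b) (b := 1)
    (f := fun c : ℝ => (b - a) ^ 2 / 4 * ((c - b) ^ 5 / 5 + (b - a) * (c - b) ^ 4 / 2 +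
      (b - a) ^ 2 * (c - b) ^ 3 / 3))
    (f' := fun c : ℝ => ((b - a) * (c - a) * (c - b) / 2) ^ 2) (fun c _ => by
      have h1 := (((pw 5 b c).div_const 5).add (((pw 4 b c).const_mul (b - a)).div_const 2)).add
        (((pw 3 b c).const_mul ((b - a) ^ 2)).div_const 3)
      have h2 := h1.const_mul ((b - a) ^ 2 / 4)
      refine h2.congr_deriv ?_
      push_cast
      norm_num
      ring) (Continuous.intervalIntegrable (by fun_prop) _ _)
  rw [h]
  simp

theorem step2 (a : ℝ) : ∫ b in a..1, (b - a) ^ 2 / 4 * ((1 - b) ^ 5 / 5 + (b - a) * (1 - b) ^ 4 / 2 +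
    (b - a) ^ 2 * (1 - b) ^ 3 / 3) = (1 - a) ^ 8 / 960 := by
  have h := intervalIntegral.integral_eq_sub_of_hasDerivAt (a := a) (b := 1)
    (f := fun b : ℝ => 1 / 4 * ((1 - a) ^ 5 * (b - a) ^ 3 / 15 - (1 - a) ^ 4 * (b - a) ^ 4 / 8 +
      (1 - a) ^ 3 * (b - a) ^ 5 / 15 - (b - a) ^ 8 / 240))
    (f' := fun b : ℝ => (b - a) ^ 2 / 4 * ((1 - b) ^ 5 / 5 + (b - a) * (1 - b) ^ 4 / 2 +
      (b - a) ^ 2 * (1 - b) ^ 3 / 3)) (fun b _ => by
      have h1 := (((((pw 3 a b).const_mul ((1 - a) ^ 5)).div_const 15).sub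
        (((pw 4 a b).const_mul ((1 - a) ^ 4)).div_const 8)).add
        (((pw 5 a b).const_mul ((1 - a) ^ 3)).div_const 15)).sub ((pw 8 a b).div_const 240)
      have h2 := h1.const_mul (1 / 4)
      refine h2.congr_deriv ?_
      push_cast
      norm_num
      ring) (Continuous.intervalIntegrable (by fun_prop) _ _)
  rw [h]
  ring

theorem Del_V : ∫ u in Del, Vv u ^ 2 = 42 / Nat.factorial 9 := by
  have hc : Continuous fun u : ℝ × ℝ × ℝ => Vv u ^ 2 := by unfold Vv; fun_prop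
  rw [Del_fubini hc]
  unfold Vv
  simp only [step1, step2]
  have h := intervalIntegral.integral_eq_sub_of_hasDerivAt (a := 0) (b := 1)
    (f := fun a : ℝ => (a - 1) ^ 9 / 8640)
    (f' := fun a : ℝ => (1 - a) ^ 8 / 960) (fun a _ => by
      refine ((pw 9 1 a).div_const 8640).congr_deriv ?_
      push_cast
      norm_num
      ring) (Continuous.intervalIntegrable (by fun_prop) _ _)
  rw [h]
  norm_num [Nat.factorial]

end OSX
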