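import Pool.Agent.Lib.MP_39df77_nt.OS.OSW_B

set_option autoImplicit false

namespace Pool.Agent.Lib.MP_4ae430_nt
open Finset

/-- derivatives of `c log x` -/
noncomputable def LGf (c : ℝ) : ℕ → ℝ → ℝ
  | 0 => fun x => c * Real.log x
  | 1 => fun x => c / x
  | 2 => fun x => -c / x ^ 2
  | 3 => fun x => 2 * c / x ^ 3
  | _ => fun _ => 0

theorem LGf_deriv (c : ℝ) (i : ℕ) (hi : i < 3) (x : ℝ) (hx : 0 < x) :
    HasDerivAt (LGf c i) (LGf c (i + 1) x) x := by
  have hx' : x ≠ 0 := hx.ne'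
  interval_cases i
  · show HasDerivAt (fun x => c * Real.log x) (c / x) x
    have := (Real.hasDerivAt_log hx').const_mul c
    rwa [← div_eq_mul_inv] at this
  · show HasDerivAt (fun x => c / x) (-c / x ^ 2) x
    have h := (hasDerivAt_inv hx').const_mul c
    have e : c * -(x ^ 2)⁻¹ = -c / x ^ 2 := by ring
    rw [e] at h
    exact h
  · show HasDerivAt (fun x => -c / x ^ 2) (2 * c / x ^ 3) x
    have h := ((hasDerivAt_pow 2 x).inv (by positivity : x ^ 2 ≠ 0)).const_mul (-c)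
    have e : -c * (-(↑2 * x ^ (2 - 1)) / (x ^ 2) ^ 2) = 2 * c / x ^ 3 := by
      have : x ^ (2 - 1) = x := by norm_num
      rw [this]
      field_simp
    rw [← e]
    exact h

theorem dl_log (j : ℕ) (hj : j ≤ 3) (c : ℝ) (M N : ℕ) (hM : 1 ≤ M) (hN : N ≤ M) (lo hi : ℝ)
    (hb : ∀ x : ℝ, (M : ℝ) ≤ x → x ≤ 3 * M → lo ≤ LGf c j x ∧ LGf c j x ≤ hi) (n : ℕ) (hn : n + j < N) :
    lo ≤ (dl^[j] (fun k : ℕ => c * Real.log ((M : ℝ) + 1 + k))) n ∧
      (dl^[j] (fun k : ℕ => c * Real.log ((M : ℝ) + 1 + k))) n ≤ hi := by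
  have hMr : (1 : ℝ) ≤ M := by exact_mod_cast hM
  have := fd j (LGf c) (M + 1) (2 * M + 1) (fun i hi x hx => LGf_deriv c i (by omega) x (by linarith [hx.1]))
    lo hi (fun x hx => hb x (by linarith [hx.1]) (by linarith [hx.2])) ((M : ℝ) + 1) n (by
      have : (0:ℝ) ≤ n := Nat.cast_nonneg n
      linarith) (by
      have : (n : ℝ) + j ≤ M := by exact_mod_cast (by omega : n + j ≤ M)
      linarith)
  exact this

theorem block_of (hS : SDT) : ∃ C : ℝ, 0 < C ∧ ∀ (t : ℝ) (M N : ℕ), 2 ≤ t → 1 ≤ M → (M : ℝ) ≤ 4 * t ^ 2 → N ≤ M →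
    ‖∑ n ∈ range N, ee (-(t / (2 * Real.pi) * Real.log ((M : ℝ) + 1 + n)))‖ ≤
      C * √M * t ^ (1 / 6 : ℝ) := by
  obtain ⟨C2, hC2, h2⟩ := hS 9 (by norm_num)
  obtain ⟨C3, hC3, h3⟩ := td_of hS 27 (by norm_num)
  refine ⟨100 + 10 * C2 + 4 * C3, by positivity, fun t M N ht hM hMt hN => ?_⟩
  have hpi := Real.pi_pos
  have hpi3 := Real.pi_gt_three
  have hpi4 := Real.pi_lt_four
  set τ : ℝ := t ^ (1 / 6 : ℝ) with hτ
  have ht0 : 0 < t := by linarith
  have hτ6 : τ ^ 6 = t := by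
    rw [hτ, ← Real.rpow_natCast, ← Real.rpow_mul ht0.le]
    norm_num
  have hτ0 : 0 < τ := Real.rpow_pos_of_pos ht0 _
  have hτ1 : 1 ≤ τ := Real.one_le_rpow (by linarith) (by norm_num)
  have hMr : (1 : ℝ) ≤ M := by exact_mod_cast hM
  have hM0 : (0 : ℝ) < M := by linarith
  have hNM : (N : ℝ) ≤ M := by exact_mod_cast hN
  have hsM : √(M : ℝ) ^ 2 = M := Real.sq_sqrt hM0.le
  have hsM0 : 0 < √(M : ℝ) := Real.sqrt_pos.2 hM0
  have hsN : √(N : ℝ) ≤ √(M : ℝ) := Real.sqrt_le_sqrt hNM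
  have hsN0 : 0 ≤ √(N : ℝ) := Real.sqrt_nonneg _
  set c : ℝ := t / (2 * Real.pi) with hc
  have hc0 : 0 < c := by positivity
  have hfin : ∀ B : ℝ, B ≤ 100 + 10 * C2 + 4 * C3 → B * (√M * τ) ≤ (100 + 10 * C2 + 4 * C3) * √M * τ := by
    intro B hB
    have : 0 ≤ √(M : ℝ) * τ := by positivity
    nlinarith
  have hneg := norm_sum_neg N (fun n : ℕ => c * Real.log ((M : ℝ) + 1 + n))
  rcases le_or_gt (√(M : ℝ)) τ with c1 | c1
  · -- trivial
    have := tri_sum N (fun n : ℕ => -(c * Real.log ((M : ℝ) + 1 + n)))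
    refine this.trans (le_trans ?_ (hfin 1 (by linarith)))
    calc (N : ℝ) ≤ M := hNM
      _ = √M * √M := by rw [← sq, hsM]
      _ ≤ 1 * (√M * τ) := by rw [one_mul]; gcongr
  rcases le_or_gt (√(M : ℝ)) (τ ^ 2) with c2 | c2
  · -- third derivative
    rw [hneg]
    set lam : ℝ := 2 * c / (27 * (M : ℝ) ^ 3) with hlam
    have hlam0 : 0 < lam := by positivity
    set y : ℝ := lam ^ (1 / 6 : ℝ) with hy
    have hy6 : y ^ 6 = lam := by
      rw [hy, ← Real.rpow_natCast, ← Real.rpow_mul hlam0.le]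
      norm_num
    have hy0 : 0 < y := Real.rpow_pos_of_pos hlam0 _
    have key := h3 N (fun n : ℕ => c * Real.log ((M : ℝ) + 1 + n)) y hy0 (fun n hn =>
      dl_log 3 le_rfl c M N hM hN (y ^ 6) (27 * y ^ 6) (fun x hx1 hx2 => by
        have hx0 : 0 < x := by linarith
        show y ^ 6 ≤ 2 * c / x ^ 3 ∧ 2 * c / x ^ 3 ≤ 27 * y ^ 6
        rw [hy6, hlam]
        constructor
        · apply div_le_div_of_nonneg_left (by positivity) (by positivity)
          calc x ^ 3 ≤ (3 * M) ^ 3 := by gcongr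
            _ = 27 * (M : ℝ) ^ 3 := by ring
        · have e : 27 * (2 * c / (27 * (M : ℝ) ^ 3)) = 2 * c / (M : ℝ) ^ 3 := by field_simp
          rw [e]
          apply div_le_div_of_nonneg_left (by positivity) (by positivity)
          gcongr) n hn)
    have hM3 : (M : ℝ) ^ 3 = √(M : ℝ) ^ 6 := by
      rw [show √(M : ℝ) ^ 6 = (√(M : ℝ) ^ 2) ^ 3 by ring, hsM]
    have hle : lam ≤ (τ / √M) ^ 6 := by
      rw [div_pow, hτ6, ← hM3, hlam, hc]
      rw [div_le_div_iff₀ (by positivity) (by positivity)]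
      have : 2 * (t / (2 * Real.pi)) ≤ t := by
        rw [show 2 * (t / (2 * Real.pi)) = t / Real.pi by field_simp]
        rw [div_le_iff₀ hpi]; nlinarith
      have h4 : (0:ℝ) < (M : ℝ) ^ 3 := by positivity
      nlinarith
    have hge : (τ / (3 * √M)) ^ 6 ≤ lam := by
      rw [div_pow, hτ6, mul_pow, ← hM3, hlam, hc]
      rw [div_le_div_iff₀ (by positivity) (by positivity)]
      have : t / 4 ≤ 2 * (t / (2 * Real.pi)) := by
        rw [show 2 * (t / (2 * Real.pi)) = t / Real.pi by field_simp]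
        apply div_le_div_of_nonneg_left ht0.le hpi hpi4.le
      have h4 : (0:ℝ) < (M : ℝ) ^ 3 := by positivity
      have h5 : t * 27 ≤ 2 * (t / (2 * Real.pi)) * 3 ^ 6 := by nlinarith
      nlinarith
    have hy1 : y ≤ τ / √M := by
      refine le_of_pow_le_pow_left₀ (n := 6) (by norm_num) (by positivity) ?_
      rw [hy6]; exact hle
    have hy2 : τ / (3 * √M) ≤ y := by
      refine le_of_pow_le_pow_left₀ (n := 6) (by norm_num) hy0.le ?_
      rw [hy6]; exact hge
    refine key.trans (le_trans ?_ (hfin (4 * C3) (by linarith)))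
    have e1 : (N : ℝ) * y ≤ √M * τ := by
      calc (N : ℝ) * y ≤ M * (τ / √M) := by gcongr
        _ = √M * τ := by
            have : (M : ℝ) = √M * √M := by rw [← sq, hsM]
            field_simp
            rw [hsM]
    have e2 : √(N : ℝ) / y ≤ 3 * (√M * τ) := by
      have h6 : 1 / y ≤ 3 * √M / τ := by
        rw [div_le_div_iff₀ hy0 hτ0]
        rw [div_le_iff₀ (by positivity)] at hy2
        linarith
      calc √(N : ℝ) / y = √N * (1 / y) := by ring
        _ ≤ √M * (3 * √M / τ) := by gcongr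
        _ ≤ √M * (3 * τ ^ 2 / τ) := by gcongr
        _ = 3 * (√M * τ) := by field_simp
    calc C3 * (N * y + √N / y) ≤ C3 * (√M * τ + 3 * (√M * τ)) := by gcongr
      _ = 4 * C3 * (√M * τ) := by ring
  rcases le_or_gt (√(M : ℝ)) (τ ^ 3) with c3 | c3
  · -- second derivative
    set lam : ℝ := c / (9 * (M : ℝ) ^ 2) with hlam
    have hlam0 : 0 < lam := by positivity
    have e0 : (fun n : ℕ => -(c * Real.log ((M : ℝ) + 1 + n))) =
        fun n : ℕ => (-c) * Real.log ((M : ℝ) + 1 + n) := by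
      funext n; ring
    have key := h2 N (fun n : ℕ => -c * Real.log ((M : ℝ) + 1 + n)) lam hlam0 (fun n hn =>
      dl_log 2 (by norm_num) (-c) M N hM hN lam (9 * lam) (fun x hx1 hx2 => by
        have hx0 : 0 < x := by linarith
        show lam ≤ -(-c) / x ^ 2 ∧ -(-c) / x ^ 2 ≤ 9 * lam
        rw [neg_neg, hlam]
        constructor
        · apply div_le_div_of_nonneg_left (by positivity) (by positivity)
          calc x ^ 2 ≤ (3 * M) ^ 2 := by gcongr
            _ = 9 * (M : ℝ) ^ 2 := by ring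
        · have e : 9 * (c / (9 * (M : ℝ) ^ 2)) = c / (M : ℝ) ^ 2 := by field_simp
          rw [e]
          apply div_le_div_of_nonneg_left (by positivity) (by positivity)
          gcongr) n hn)
    have e00 : ∑ n ∈ range N, ee (-(c * Real.log ((M : ℝ) + 1 + n))) =
        ∑ n ∈ range N, ee (-c * Real.log ((M : ℝ) + 1 + n)) := by
      refine sum_congr rfl fun n _ => ?_
      congr 1; ring
    rw [e00]
    have hu : lam ≤ (τ ^ 3 / M) ^ 2 := by
      rw [div_pow, ← pow_mul, show 3 * 2 = 6 by norm_num, hτ6, hlam, hc]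
      rw [div_le_div_iff₀ (by positivity) (by positivity)]
      have : t / (2 * Real.pi) ≤ t := by
        rw [div_le_iff₀ (by positivity)]; nlinarith
      have h4 : (0:ℝ) < (M : ℝ) ^ 2 := by positivity
      nlinarith
    have hl : (τ ^ 3 / (9 * M)) ^ 2 ≤ lam := by
      rw [div_pow, ← pow_mul, show 3 * 2 = 6 by norm_num, hτ6, hlam, hc, mul_pow]
      rw [div_le_div_iff₀ (by positivity) (by positivity)]
      have : t / 8 ≤ t / (2 * Real.pi) := by
        apply div_le_div_of_nonneg_left ht0.le (by positivity) (by linarith)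
      have h4 : (0:ℝ) < (M : ℝ) ^ 2 := by positivity
      have h5 : t * 9 ≤ t / (2 * Real.pi) * 9 ^ 2 := by nlinarith
      nlinarith
    have hs1 : √lam ≤ τ ^ 3 / M := by
      rw [show τ ^ 3 / (M : ℝ) = √((τ ^ 3 / M) ^ 2) by rw [Real.sqrt_sq (by positivity)]]
      exact Real.sqrt_le_sqrt hu
    have hs2 : τ ^ 3 / (9 * M) ≤ √lam := by
      rw [show τ ^ 3 / (9 * (M : ℝ)) = √((τ ^ 3 / (9 * M)) ^ 2) by rw [Real.sqrt_sq (by positivity)]]
      exact Real.sqrt_le_sqrt hl
    have hsl : 0 < √lam := Real.sqrt_pos.2 hlam0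
    refine key.trans (le_trans ?_ (hfin (10 * C2) (by linarith)))
    have e1 : (N : ℝ) * √lam ≤ √M * τ := by
      calc (N : ℝ) * √lam ≤ M * (τ ^ 3 / M) := by gcongr
        _ = τ ^ 2 * τ := by field_simp
        _ ≤ √M * τ := by gcongr
    have e2 : 1 / √lam ≤ 9 * (√M * τ) := by
      have h7 : 1 / √lam ≤ 9 * M / τ ^ 3 := by
        rw [div_le_div_iff₀ hsl (by positivity)]
        rw [div_le_iff₀ (by positivity)] at hs2
        linarith
      refine h7.trans ?_
      rw [div_le_iff₀ (by positivity)]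
      have h8 : (M : ℝ) ≤ √M * τ ^ 3 := by
        calc (M : ℝ) = √M * √M := by rw [← sq, hsM]
          _ ≤ √M * τ ^ 3 := by gcongr
      have h9 : √(M : ℝ) * τ ^ 3 ≤ √M * τ * τ ^ 3 := by
        have : √(M : ℝ) * τ ^ 3 * 1 ≤ √M * τ ^ 3 * τ := by gcongr
        linarith
      calc 9 * (M : ℝ) ≤ 9 * (√M * τ * τ ^ 3) := by linarith
        _ = 9 * (√M * τ) * τ ^ 3 := by ring
    calc C2 * (N * √lam + 1 / √lam) ≤ C2 * (√M * τ + 9 * (√M * τ)) := by gcongr
      _ = 10 * C2 * (√M * τ) := by ring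
  · -- Kusmin-Landau
    rw [hneg]
    have hMt' : t < M := by
      rw [← hsM, ← hτ6]
      calc τ ^ 6 = (τ ^ 3) ^ 2 := by ring
        _ < √(M : ℝ) ^ 2 := by gcongr
    have hcM : c ≤ M / 6 := by
      rw [hc, div_le_div_iff₀ (by positivity) (by norm_num)]
      nlinarith
    have hlo0 : 0 < c / (3 * M) := by positivity
    have hd1 : ∀ n, n + 1 < N → c / (3 * M) ≤ dl (fun n : ℕ => c * Real.log ((M : ℝ) + 1 + n)) n ∧
        dl (fun n : ℕ => c * Real.log ((M : ℝ) + 1 + n)) n ≤ 1 / 2 := by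
      intro n hn
      have := dl_log 1 (by norm_num) c M N hM hN (c / (3 * M)) (1 / 2) (fun x hx1 hx2 => by
        have hx0 : 0 < x := by linarith
        show c / (3 * M) ≤ c / x ∧ c / x ≤ 1 / 2
        constructor
        · exact div_le_div_of_nonneg_left hc0.le hx0 hx2
        · rw [div_le_div_iff₀ hx0 (by norm_num)]
          linarith) n hn
      exact this
    have hd2 : ∀ n, n + 2 < N → dl (fun n : ℕ => c * Real.log ((M : ℝ) + 1 + n)) (n + 1) ≤
        dl (fun n : ℕ => c * Real.log ((M : ℝ) + 1 + n)) n := by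
      intro n hn
      have := (dl_log 2 (by norm_num) c M N hM hN (-c) 0 (fun x hx1 hx2 => by
        have hx1' : 1 ≤ x := by linarith
        show -c ≤ -c / x ^ 2 ∧ -c / x ^ 2 ≤ 0
        constructor
        · rw [neg_div, neg_le_neg_iff, div_le_iff₀ (by positivity)]
          have : 1 ≤ x ^ 2 := one_le_pow₀ hx1'
          nlinarith
        · rw [neg_div, neg_nonpos]
          positivity) n hn).2
      have e : (dl^[2] (fun k : ℕ => c * Real.log ((M : ℝ) + 1 + k))) n =
        dl (fun n : ℕ => c * Real.log ((M : ℝ) + 1 + n)) (n + 1) -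
          dl (fun n : ℕ => c * Real.log ((M : ℝ) + 1 + n)) n := rfl
      rw [e] at this
      linarith
    have hlo2 : c / (3 * (M : ℝ)) ≤ 1 / 2 := by
      rw [div_le_div_iff₀ (by positivity) (by norm_num)]
      nlinarith
    have key := kusmin_landau N (fun n : ℕ => c * Real.log ((M : ℝ) + 1 + n)) (c / (3 * M)) hlo0 hlo2
      hd1 (Or.inr hd2)
    refine key.trans (le_trans ?_ (hfin 100 (by linarith)))
    have hs2t : √(M : ℝ) ≤ 2 * t := by
      rw [show 2 * t = √((2 * t) ^ 2) by rw [Real.sqrt_sq (by positivity)]]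
      apply Real.sqrt_le_sqrt
      nlinarith
    have e1 : 2 / (c / (3 * (M : ℝ))) = 12 * Real.pi * M / t := by
      rw [hc]; field_simp; ring
    rw [e1, div_le_iff₀ ht0]
    have e2 : (M : ℝ) ≤ √M * (2 * t) := by
      calc (M : ℝ) = √M * √M := by rw [← sq, hsM]
        _ ≤ √M * (2 * t) := by gcongr
    have e3 : √(M : ℝ) * (2 * t) ≤ √M * τ * (2 * t) := by
      have : √(M : ℝ) * 1 * (2 * t) ≤ √M * τ * (2 * t) := by gcongr
      linarith
    calc 12 * Real.pi * M ≤ 12 * 4 * (√M * τ * (2 * t)) := by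
          gcongr
          linarith
      _ ≤ 100 * (√M * τ) * t := by
          have : 0 ≤ √(M : ℝ) * τ * t := by positivity
          linarith

end Pool.Agent.Lib.MP_4ae430_nt
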