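import Pool.Agent.Lib.MP_39df77_nt.OS.OSW_S1
import Pool.Agent.Lib.MP_39df77_nt.OS.OSW_C
import Pool.Agent.Lib.MP_069854_nt.Part02

set_option autoImplicit false

namespace Pool.Agent.Lib.MP_4ae430_nt
open Finset

theorem block : ∃ C : ℝ, 0 < C ∧ ∀ (t : ℝ) (M N : ℕ), 2 ≤ t → 1 ≤ M → (M : ℝ) ≤ 4 * t ^ 2 → N ≤ M →
    ‖∑ n ∈ range N, ee (-(t / (2 * Real.pi) * Real.log ((M : ℝ) + 1 + n)))‖ ≤
      C * √M * t ^ (1 / 6 : ℝ) := block_of sd_test

/-- Abel's inequality. -/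
theorem s2_abel (z : ℕ → ℂ) (w : ℕ → ℝ) (B : ℝ) (hw : ∀ n, w (n + 1) ≤ w n) (h0 : ∀ n, 0 ≤ w n) (N : ℕ)
    (hB : ∀ k, k ≤ N → ‖∑ n ∈ range k, z n‖ ≤ B) :
    ‖∑ n ∈ range N, (w n : ℂ) * z n‖ ≤ w 0 * B := by
  have key : ∀ k, k ≤ N → ‖∑ n ∈ range k, (w n : ℂ) * z n - (w k : ℂ) * ∑ n ∈ range k, z n‖ ≤
      (w 0 - w k) * B := by
    intro k
    induction k with
    | zero => intro _; simp
    | succ k ih =>
      intro hk
      have h1 := ih (by omega)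
      have h2 := hB (k + 1) hk
      have e : ∑ n ∈ range (k + 1), (w n : ℂ) * z n - (w (k + 1) : ℂ) * ∑ n ∈ range (k + 1), z n =
          (∑ n ∈ range k, (w n : ℂ) * z n - (w k : ℂ) * ∑ n ∈ range k, z n) +
            ((w k - w (k + 1) : ℝ) : ℂ) * ∑ n ∈ range (k + 1), z n := by
        rw [sum_range_succ (fun n => (w n : ℂ) * z n), sum_range_succ z]
        push_cast
        ring
      rw [e]
      refine (norm_add_le _ _).trans ?_
      have h3 : ‖((w k - w (k + 1) : ℝ) : ℂ) * ∑ n ∈ range (k + 1), z n‖ ≤ (w k - w (k + 1)) * B := by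
        rw [norm_mul, Complex.norm_real, Real.norm_eq_abs, abs_of_nonneg (by linarith [hw k])]
        exact mul_le_mul_of_nonneg_left h2 (by linarith [hw k])
      calc _ ≤ (w 0 - w k) * B + (w k - w (k + 1)) * B := add_le_add h1 h3
        _ = _ := by ring
  have h1 := key N le_rfl
  have h2 := hB N le_rfl
  have h3 : ‖(w N : ℂ) * ∑ n ∈ range N, z n‖ ≤ w N * B := by
    rw [norm_mul, Complex.norm_real, Real.norm_eq_abs, abs_of_nonneg (h0 N)]
    exact mul_le_mul_of_nonneg_left h2 (h0 N)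
  calc ‖∑ n ∈ range N, (w n : ℂ) * z n‖
      = ‖(∑ n ∈ range N, (w n : ℂ) * z n - (w N : ℂ) * ∑ n ∈ range N, z n) +
          (w N : ℂ) * ∑ n ∈ range N, z n‖ := by rw [sub_add_cancel]
    _ ≤ (w 0 - w N) * B + w N * B := (norm_add_le _ _).trans (add_le_add h1 h3)
    _ = w 0 * B := by ring

/-- one term of the zeta sum. -/
theorem s2_term (x t : ℝ) (hx : 0 < x) :
    (x : ℂ) ^ (-(1 / 2 + t * Complex.I : ℂ)) =
      ((x ^ (-(1 / 2 : ℝ)) : ℝ) : ℂ) * ee (-(t / (2 * Real.pi) * Real.log x)) := by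
  have hx' : (x : ℂ) ≠ 0 := by exact_mod_cast hx.ne'
  rw [neg_add, Complex.cpow_add _ _ hx']
  congr 1
  · rw [Complex.ofReal_cpow hx.le]
    push_cast
    rfl
  · rw [Complex.cpow_def_of_ne_zero hx', ee, ← Complex.ofReal_log hx.le]
    congr 1
    have hp : (Real.pi : ℝ) ≠ 0 := Real.pi_ne_zero
    have : 2 * Real.pi * -(t / (2 * Real.pi) * Real.log x) = -(t * Real.log x) := by
      field_simp
    rw [this]
    push_cast
    ring

/-- dyadic block of the zeta sum. -/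
theorem s2_block : ∃ C : ℝ, 0 < C ∧ ∀ (t : ℝ) (M : ℕ), 2 ≤ t → 1 ≤ M → (M : ℝ) ≤ 4 * t ^ 2 →
    ‖∑ n ∈ range M, (((M : ℝ) + 1 + n : ℝ) : ℂ) ^ (-(1 / 2 + t * Complex.I : ℂ))‖ ≤
      C * t ^ (1 / 6 : ℝ) := by
  obtain ⟨C, hC, h⟩ := block
  refine ⟨C, hC, ?_⟩
  intro t M ht hM hMt
  have hM1 : (1 : ℝ) ≤ M := by exact_mod_cast hM
  have e : ∑ n ∈ range M, (((M : ℝ) + 1 + n : ℝ) : ℂ) ^ (-(1 / 2 + t * Complex.I : ℂ)) =
      ∑ n ∈ range M, ((((M : ℝ) + 1 + n) ^ (-(1 / 2 : ℝ)) : ℝ) : ℂ) *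
        ee (-(t / (2 * Real.pi) * Real.log ((M : ℝ) + 1 + n))) := by
    refine sum_congr rfl fun n _ => ?_
    exact s2_term _ t (by positivity)
  rw [e]
  have hab := s2_abel (fun n => ee (-(t / (2 * Real.pi) * Real.log ((M : ℝ) + 1 + n))))
    (fun n => ((M : ℝ) + 1 + n) ^ (-(1 / 2 : ℝ))) (C * √M * t ^ (1 / 6 : ℝ))
    (fun n => by
      refine Real.rpow_le_rpow_of_nonpos (by positivity) ?_ (by norm_num)
      push_cast; linarith)
    (fun n => by positivity) M (fun k hk => h t M k ht hM hMt hk)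
  refine hab.trans ?_
  have h1 : ((M : ℝ) + 1 + (0 : ℕ)) ^ (-(1 / 2 : ℝ)) * √M ≤ 1 := by
    rw [Real.rpow_neg (by positivity), ← Real.sqrt_eq_rpow, inv_mul_le_iff₀ (by positivity), mul_one]
    apply Real.sqrt_le_sqrt
    push_cast; linarith
  have ht6 : 0 ≤ t ^ (1 / 6 : ℝ) := by positivity
  calc ((M : ℝ) + 1 + (0 : ℕ)) ^ (-(1 / 2 : ℝ)) * (C * √M * t ^ (1 / 6 : ℝ))
      = (((M : ℝ) + 1 + (0 : ℕ)) ^ (-(1 / 2 : ℝ)) * √M) * (C * t ^ (1 / 6 : ℝ)) := by ring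
    _ ≤ 1 * (C * t ^ (1 / 6 : ℝ)) := mul_le_mul_of_nonneg_right h1 (by positivity)
    _ = _ := one_mul _

theorem s2_dyadic (f : ℕ → ℂ) (K : ℕ) :
    ∑ n ∈ range (2 ^ K), f (n + 1) = f 1 + ∑ k ∈ range K, ∑ n ∈ range (2 ^ k), f (2 ^ k + 1 + n) := by
  induction K with
  | zero => simp
  | succ K ih =>
    rw [sum_range_succ (fun k => ∑ n ∈ range (2 ^ k), f (2 ^ k + 1 + n)), ← add_assoc, ← ih,
      show 2 ^ (K + 1) = 2 ^ K + 2 ^ K by ring, sum_range_add]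
    congr 1
    refine sum_congr rfl fun n _ => ?_
    congr 1
    ring

/-- tail of `∑ n^(-3/2)`. -/
theorem s2_tail (N : ℕ) (hN : 1 ≤ N) :
    Summable (fun n : ℕ => (((n + N : ℕ) : ℝ) + 1) ^ (-(3 / 2) : ℝ)) ∧
      ∑' n : ℕ, (((n + N : ℕ) : ℝ) + 1) ^ (-(3 / 2) : ℝ) ≤ 2 / √N := by
  have hN1 : (1 : ℝ) ≤ N := by exact_mod_cast hN
  have step : ∀ x : ℝ, 1 ≤ x → (x + 1) ^ (-(3 / 2) : ℝ) ≤ 2 * (1 / √x - 1 / √(x + 1)) := by
    intro x hx
    have hx0 : 0 < x := by linarith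
    have h1 : (x + 1) ^ (-(3 / 2) : ℝ) = 1 / ((x + 1) * √(x + 1)) := by
      rw [show (-(3 / 2) : ℝ) = -(1 + 1 / 2) by norm_num, Real.rpow_neg (by positivity),
        Real.rpow_add (by positivity), Real.rpow_one, ← Real.sqrt_eq_rpow, one_div]
    set a := √x with ha
    set b := √(x + 1) with hb
    have ha0 : 0 < a := Real.sqrt_pos.2 hx0
    have hb0 : 0 < b := Real.sqrt_pos.2 (by linarith)
    have hab : a ≤ b := Real.sqrt_le_sqrt (by linarith)
    have ha2 : a ^ 2 = x := Real.sq_sqrt hx0.le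
    have hb2 : b ^ 2 = x + 1 := Real.sq_sqrt (by linarith)
    rw [h1, ← hb2]
    have h2 : 1 / a - 1 / b = 1 / (a * b * (a + b)) := by
      have : b ^ 2 - a ^ 2 = 1 := by rw [hb2, ha2]; ring
      field_simp
      nlinarith
    rw [h2, mul_one_div, div_le_div_iff₀ (by positivity) (by positivity)]
    have : a * b * (a + b) ≤ 2 * (b ^ 2 * b) := by nlinarith [mul_pos ha0 hb0, mul_nonneg hb0.le (sub_nonneg.2 hab), mul_nonneg ha0.le (sub_nonneg.2 hab), mul_nonneg (mul_nonneg hb0.le ha0.le) (sub_nonneg.2 hab), mul_nonneg (mul_nonneg hb0.le hb0.le) (sub_nonneg.2 hab)]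
    linarith
  have hsum : Summable (fun n : ℕ => (((n + N : ℕ) : ℝ) + 1) ^ (-(3 / 2) : ℝ)) := by
    have h1 := MP069854.rpow_summable (σ := 1 / 2) (by norm_num)
    have h2 := (summable_nat_add_iff (f := fun n : ℕ => ((n : ℝ) + 1) ^ (-(1 / 2) - 1 : ℝ)) N).2 h1
    refine h2.congr fun n => ?_
    norm_num
  refine ⟨hsum, ?_⟩
  refine Real.tsum_le_of_sum_range_le (fun n => by positivity) ?_
  intro k
  have h1 : ∑ n ∈ range k, (((n + N : ℕ) : ℝ) + 1) ^ (-(3 / 2) : ℝ) ≤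
      2 * (1 / √(N : ℝ) - 1 / √((k + N : ℕ) : ℝ)) := by
    induction k with
    | zero => simp
    | succ k ih =>
      rw [sum_range_succ]
      have h2 := step (((k + N : ℕ) : ℝ)) (by push_cast; linarith [(Nat.cast_nonneg k : (0 : ℝ) ≤ k)])
      have h3 : ((k + 1 + N : ℕ) : ℝ) = ((k + N : ℕ) : ℝ) + 1 := by push_cast; ring
      rw [h3]
      linarith
  have h2 : 0 ≤ 1 / √((k + N : ℕ) : ℝ) := by positivity
  calc _ ≤ 2 * (1 / √(N : ℝ) - 1 / √((k + N : ℕ) : ℝ)) := h1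
    _ ≤ 2 * (1 / √(N : ℝ)) := by linarith
    _ = _ := by ring

theorem s2_partial (s : ℂ) (N : ℕ) :
    ∑ n ∈ range N, MP069854.vt n s =
      (s - 1) * ∑ n ∈ range N, ((n : ℂ) + 1) ^ (-s) + ((N : ℂ) + 1) ^ (1 - s) - 1 := by
  induction N with
  | zero => simp
  | succ N ih =>
    rw [sum_range_succ, ih, sum_range_succ, MP069854.vt]
    push_cast
    rw [show (N : ℂ) + 1 + 1 = (N : ℂ) + 2 by ring]
    ring

theorem s2_big : ∃ C : ℝ, 0 < C ∧ ∀ t : ℝ, 2 ≤ t → ‖riemannZeta (1 / 2 + t * Complex.I)‖ ≤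
    C * (t ^ (1 / 6 : ℝ) * Real.log t) := by
  obtain ⟨C1, hC1, hb⟩ := s2_block
  refine ⟨14 + 6 * C1, by positivity, ?_⟩
  intro t ht
  set s : ℂ := 1 / 2 + t * Complex.I with hs
  have hre : s.re = 1 / 2 := by simp [hs]
  have him : s.im = t := by simp [hs]
  have hs1 : s ≠ 1 := by
    intro h
    have := congrArg Complex.im h
    rw [him] at this
    simp at this
    linarith
  obtain ⟨n, hn1, hn2⟩ := exists_nat_pow_near (x := t ^ 2) (y := (2 : ℝ)) (by nlinarith) (by norm_num)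
  set K := n + 1 with hK
  set N : ℕ := 2 ^ K with hN
  have hNr : (N : ℝ) = 2 ^ K := by rw [hN]; push_cast; rfl
  have hN1 : t ^ 2 ≤ N := by rw [hNr]; exact hn2.le
  have hN2 : (N : ℝ) ≤ 2 * t ^ 2 := by rw [hNr, hK, pow_succ]; linarith
  have hNpos : 1 ≤ N := Nat.one_le_two_pow
  -- the formula
  have hsum := MP069854.vt_summable (s := s) (by rw [hre]; norm_num)
  have hf := MP069854.zeta_formula (s := s) (by rw [hre]; norm_num) hs1
  rw [← hsum.sum_add_tsum_nat_add N, s2_partial] at hf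
  have hne : s - 1 ≠ 0 := sub_ne_zero.2 hs1
  have hnorm1 : t ≤ ‖s - 1‖ := by
    have := Complex.abs_im_le_norm (s - 1)
    rw [Complex.sub_im, him, Complex.one_im, sub_zero, abs_of_nonneg (by linarith)] at this
    exact this
  have hnorm2 : ‖s‖ ≤ 2 * t := by
    refine (Complex.norm_le_abs_re_add_abs_im s).trans ?_
    rw [hre, him, abs_of_nonneg (by norm_num), abs_of_nonneg (by linarith)]
    linarith
  have hpos1 : 0 < ‖s - 1‖ := norm_pos_iff.2 hne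
  have hT : ‖∑' n : ℕ, MP069854.vt (n + N) s‖ ≤ ‖s - 1‖ * ‖s‖ * (2 / √N) := by
    obtain ⟨hs3, ht3⟩ := s2_tail N hNpos
    have h1 : ‖∑' n : ℕ, MP069854.vt (n + N) s‖ ≤
        ∑' n : ℕ, ‖s - 1‖ * ‖s‖ * (((n + N : ℕ) : ℝ) + 1) ^ (-(3 / 2) : ℝ) := by
      refine tsum_of_norm_bounded (hs3.mul_left _).hasSum ?_
      intro n
      refine (MP069854.vt_bound (n + N) s (by rw [hre]; norm_num)).trans (le_of_eq ?_)
      rw [hre]
      norm_num
    refine h1.trans ?_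
    rw [tsum_mul_left]
    exact mul_le_mul_of_nonneg_left ht3 (by positivity)
  have hP : ‖((N : ℂ) + 1) ^ (1 - s)‖ = √((N : ℝ) + 1) := by
    have h1 : ((N : ℂ) + 1) = (((N : ℝ) + 1 : ℝ) : ℂ) := by push_cast; ring
    rw [h1, Complex.norm_cpow_eq_rpow_re_of_pos (by positivity), Complex.sub_re, hre, Real.sqrt_eq_rpow]
    norm_num
  have hD : ‖∑ n ∈ range N, ((n : ℂ) + 1) ^ (-s)‖ ≤ 1 + K * (C1 * t ^ (1 / 6 : ℝ)) := by
    have h1 := s2_dyadic (fun m => (m : ℂ) ^ (-s)) K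
    have h2 : ∑ n ∈ range N, ((n : ℂ) + 1) ^ (-s) = ∑ n ∈ range (2 ^ K), ((n + 1 : ℕ) : ℂ) ^ (-s) := by
      rw [hN]
      refine sum_congr rfl fun n _ => ?_
      push_cast; rfl
    rw [h2, h1]
    refine (norm_add_le _ _).trans ?_
    refine add_le_add (by simp) ?_
    refine (norm_sum_le _ _).trans ?_
    have h3 : ∀ k ∈ range K, ‖∑ n ∈ range (2 ^ k), ((2 ^ k + 1 + n : ℕ) : ℂ) ^ (-s)‖ ≤
        C1 * t ^ (1 / 6 : ℝ) := by
      intro k hk
      have hk' : k ≤ n := by have := mem_range.1 hk; omega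
      have h4 : ((2 ^ k : ℕ) : ℝ) ≤ 4 * t ^ 2 := by
        have : (2 : ℝ) ^ k ≤ 2 ^ n := pow_le_pow_right₀ (by norm_num) hk'
        push_cast
        nlinarith
      have h5 := hb t (2 ^ k) ht Nat.one_le_two_pow h4
      have h6 : ∑ n ∈ range (2 ^ k), ((2 ^ k + 1 + n : ℕ) : ℂ) ^ (-s) =
          ∑ n ∈ range (2 ^ k), (((((2 ^ k : ℕ) : ℝ)) + 1 + n : ℝ) : ℂ) ^ (-(1 / 2 + t * Complex.I : ℂ)) := by
        refine sum_congr rfl fun n _ => ?_
        rw [← hs]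
        push_cast
        rfl
      rw [h6]
      exact h5
    refine (sum_le_sum h3).trans ?_
    rw [sum_const, card_range, nsmul_eq_mul]
  have hlog2 : (1 / 2 : ℝ) ≤ Real.log 2 := by
    have := Real.log_two_gt_d9
    linarith
  have hlogt : Real.log 2 ≤ Real.log t := Real.log_le_log (by norm_num) ht
  have hKb : (K : ℝ) ≤ 6 * Real.log t := by
    have h1 : Real.log ((2 : ℝ) ^ n) ≤ Real.log (t ^ 2) := Real.log_le_log (by positivity) hn1
    rw [Real.log_pow, Real.log_pow] at h1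
    have h2 : (n : ℝ) * (1 / 2) ≤ n * Real.log 2 := mul_le_mul_of_nonneg_left hlog2 (by positivity)
    have h3 : (K : ℝ) = n + 1 := by rw [hK]; push_cast; ring
    push_cast at h1
    rw [h3]
    linarith
  have hsqN : t ≤ √(N : ℝ) := by
    rw [← Real.sqrt_sq (by linarith : 0 ≤ t)]
    exact Real.sqrt_le_sqrt hN1
  have hsqN1 : √((N : ℝ) + 1) ≤ 2 * t := by
    rw [← Real.sqrt_sq (by linarith : 0 ≤ 2 * t)]
    apply Real.sqrt_le_sqrt
    nlinarith
  have hz : riemannZeta s = ∑ n ∈ range N, ((n : ℂ) + 1) ^ (-s) +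
      (((N : ℂ) + 1) ^ (1 - s) + ∑' n : ℕ, MP069854.vt (n + N) s) / (s - 1) := by
    rw [eq_comm, ← mul_right_inj' hne, hf, mul_add, mul_div_cancel₀ _ hne]
    ring
  have ht6 : (1 : ℝ) ≤ t ^ (1 / 6 : ℝ) := Real.one_le_rpow (by linarith) (by norm_num)
  have hfin : ‖riemannZeta s‖ ≤ (1 + K * (C1 * t ^ (1 / 6 : ℝ))) + (2 + 4) := by
    rw [hz]
    refine (norm_add_le _ _).trans (add_le_add hD ?_)
    rw [norm_div, div_le_iff₀ hpos1]
    refine (norm_add_le _ _).trans ?_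
    rw [hP]
    have h1 : √((N : ℝ) + 1) ≤ 2 * ‖s - 1‖ := hsqN1.trans (by linarith)
    have h2 : ‖s - 1‖ * ‖s‖ * (2 / √N) ≤ 4 * ‖s - 1‖ := by
      have h3 : ‖s‖ * (2 / √N) ≤ 4 := by
        have hsp : 0 < √(N : ℝ) := by linarith
        rw [← mul_div_assoc, div_le_iff₀ hsp]
        nlinarith
      calc ‖s - 1‖ * ‖s‖ * (2 / √N) = ‖s - 1‖ * (‖s‖ * (2 / √N)) := by ring
        _ ≤ ‖s - 1‖ * 4 := mul_le_mul_of_nonneg_left h3 hpos1.le
        _ = _ := by ring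
    linarith
  refine hfin.trans ?_
  have hlt : (1 / 2 : ℝ) ≤ Real.log t := hlog2.trans hlogt
  have h1 : (K : ℝ) * (C1 * t ^ (1 / 6 : ℝ)) ≤ 6 * Real.log t * (C1 * t ^ (1 / 6 : ℝ)) :=
    mul_le_mul_of_nonneg_right hKb (by positivity)
  have h2 : (1 / 2 : ℝ) ≤ t ^ (1 / 6 : ℝ) * Real.log t := by nlinarith
  nlinarith

/-- ROW S2 (helper95): the Weyl bound for zeta. -/
theorem zeta_weyl : ∃ C : ℝ, 0 < C ∧ ∀ t : ℝ, ‖riemannZeta (1 / 2 + t * Complex.I)‖ ≤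
    C * (2 + |t|) ^ (1 / 6 : ℝ) * Real.log (2 + |t|) := by
  obtain ⟨C, hC, h⟩ := s2_big
  have hcont : ContinuousOn (fun t : ℝ => riemannZeta (1 / 2 + t * Complex.I)) (Set.Icc (-2) 2) := by
    intro t _
    refine ContinuousAt.continuousWithinAt ?_
    have h1 : (1 / 2 + t * Complex.I : ℂ) ≠ 1 := by
      intro h
      have := congrArg Complex.re h
      simp at this
    have h2 : ContinuousAt riemannZeta (1 / 2 + t * Complex.I : ℂ) :=
      (differentiableAt_riemannZeta h1).continuousAt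
    have h3 : ContinuousAt (fun t : ℝ => (1 / 2 + t * Complex.I : ℂ)) t := by fun_prop
    exact ContinuousAt.comp (f := fun t : ℝ => (1 / 2 + t * Complex.I : ℂ)) h2 h3
  obtain ⟨C2, hC2⟩ := isCompact_Icc.exists_bound_of_continuousOn hcont
  refine ⟨C + 2 * |C2| + 1, by positivity, ?_⟩
  have hlog2 : (1 / 2 : ℝ) ≤ Real.log 2 := by
    have := Real.log_two_gt_d9
    linarith
  have big : ∀ t : ℝ, 2 ≤ t → ‖riemannZeta (1 / 2 + t * Complex.I)‖ ≤
      (C + 2 * |C2| + 1) * (2 + |t|) ^ (1 / 6 : ℝ) * Real.log (2 + |t|) := by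
    intro t ht
    refine (h t ht).trans ?_
    have h0 : |t| = t := abs_of_nonneg (by linarith)
    rw [h0, mul_assoc]
    have h1 : t ^ (1 / 6 : ℝ) ≤ (2 + t) ^ (1 / 6 : ℝ) :=
      Real.rpow_le_rpow (by linarith) (by linarith) (by norm_num)
    have h2 : Real.log t ≤ Real.log (2 + t) := Real.log_le_log (by linarith) (by linarith)
    have h3 : 0 ≤ Real.log t := Real.log_nonneg (by linarith)
    have h4 : 0 ≤ |C2| := abs_nonneg _
    have h5 : t ^ (1 / 6 : ℝ) * Real.log t ≤ (2 + t) ^ (1 / 6 : ℝ) * Real.log (2 + t) :=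
      mul_le_mul h1 h2 h3 (by positivity)
    have h6 : 0 ≤ t ^ (1 / 6 : ℝ) * Real.log t := mul_nonneg (by positivity) h3
    calc C * (t ^ (1 / 6 : ℝ) * Real.log t) ≤ (C + 2 * |C2| + 1) * (t ^ (1 / 6 : ℝ) * Real.log t) :=
          mul_le_mul_of_nonneg_right (by linarith) h6
      _ ≤ _ := mul_le_mul_of_nonneg_left h5 (by positivity)
  intro t
  rcases le_total |t| 2 with ht | ht
  · have h1 := hC2 t (abs_le.1 ht)
    have h2 : (1 : ℝ) ≤ (2 + |t|) ^ (1 / 6 : ℝ) :=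
      Real.one_le_rpow (by linarith [abs_nonneg t]) (by norm_num)
    have h3 : (1 / 2 : ℝ) ≤ Real.log (2 + |t|) :=
      hlog2.trans (Real.log_le_log (by norm_num) (by linarith [abs_nonneg t]))
    have h4 : (1 / 2 : ℝ) ≤ (2 + |t|) ^ (1 / 6 : ℝ) * Real.log (2 + |t|) := by nlinarith
    rw [mul_assoc]
    have h5 : C2 ≤ |C2| := le_abs_self _
    have h6 : 0 ≤ |C2| := abs_nonneg _
    calc ‖riemannZeta (1 / 2 + t * Complex.I)‖ ≤ C2 := h1
      _ ≤ (C + 2 * |C2| + 1) * (1 / 2) := by linarith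
      _ ≤ _ := mul_le_mul_of_nonneg_left h4 (by positivity)
  · rcases le_total 0 t with h0 | h0
    · rw [abs_of_nonneg h0] at ht
      exact big t ht
    · rw [abs_of_nonpos h0] at ht
      have h1 := big (-t) ht
      rw [abs_neg] at h1
      have h2 : (1 / 2 + t * Complex.I : ℂ) = (starRingEnd ℂ) (1 / 2 + ((-t : ℝ) : ℂ) * Complex.I) := by
        have e2 : (starRingEnd ℂ) (2 : ℂ) = 2 := Complex.conj_ofNat 2
        rw [map_add, map_mul, Complex.conj_ofReal, Complex.conj_I, map_div₀, map_one, e2]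
        push_cast
        ring
      rw [h2, riemannZeta_conj, Complex.norm_conj]
      exact h1

end Pool.Agent.Lib.MP_4ae430_nt
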