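import Pool.Agent.Lib.MP_39df77_nt.OS.OSE
import Pool.Agent.Lib.MP_39df77_nt.OS.OSS
import Pool.Agent.Lib.MP_39df77_nt.OS.OSW_S2

set_option autoImplicit false

namespace OSX
open Filter Topology Complex Set MeasureTheory OSV
open scoped ComplexConjugate ContDiff

/-- the Weyl bound -/
theorem weyl : WeylB := Pool.Agent.Lib.MP_4ae430_nt.zeta_weyl

/-- the predicted limit -/
noncomputable def Wf (x : ℝ) : ℂ := (MP069854.arith 3 : ℂ) *
  ∫ u in Del, exp (-(2 * I * x * (u.1 + u.2.1 + u.2.2))) * ((Vv u ^ 2 : ℝ) : ℂ)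

theorem Wf_zero : Wf 0 = ((42 * MP069854.arith 3 / Nat.factorial 9 : ℝ) : ℂ) := by
  unfold Wf
  simp only [ofReal_zero, mul_zero, zero_mul, neg_zero, Complex.exp_zero, one_mul]
  rw [integral_complex_ofReal, Del_V, ← ofReal_mul]
  congr 1
  ring

theorem Wf_approx {m : ℕ} (x : Fin m → ℝ) (c : Fin m → ℂ) (y ε : ℝ)
    (hP : ∀ u : ℝ, 0 ≤ u → u ≤ 6 → ‖exp (-(I * y * u)) - ∑ j, c j * exp (-(I * x j * u))‖ ≤ ε) :
    ‖Wf y - ∑ j, c j * Wf (x j)‖ ≤ (MP069854.arith 3 * ∫ u in Del, Vv u ^ 2) * ε := by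
  have hA := MP069854.arith_pos 3
  have hV : Continuous fun u : ℝ × ℝ × ℝ => Vv u ^ 2 := by unfold Vv; fun_prop
  have hE : ∀ x : ℝ, Continuous fun u : ℝ × ℝ × ℝ =>
      exp (-(2 * I * x * (u.1 + u.2.1 + u.2.2))) * ((Vv u ^ 2 : ℝ) : ℂ) := by
    intro x
    exact (by fun_prop : Continuous fun u : ℝ × ℝ × ℝ => exp (-(2 * I * x * (u.1 + u.2.1 + u.2.2)))).mul
      (Complex.continuous_ofReal.comp hV)
  have hI : ∀ x : ℝ, Integrable (fun u : ℝ × ℝ × ℝ =>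
      exp (-(2 * I * x * (u.1 + u.2.1 + u.2.2))) * ((Vv u ^ 2 : ℝ) : ℂ)) (volume.restrict Del) :=
    fun x => Del_int (hE x)
  have e1 : Wf y - ∑ j, c j * Wf (x j) = (MP069854.arith 3 : ℂ) * ∫ u in Del,
      (exp (-(I * y * ((2 * (u.1 + u.2.1 + u.2.2) : ℝ) : ℂ))) -
        ∑ j, c j * exp (-(I * x j * ((2 * (u.1 + u.2.1 + u.2.2) : ℝ) : ℂ)))) * ((Vv u ^ 2 : ℝ) : ℂ) := by
    have e2 : ∑ j, c j * Wf (x j) = (MP069854.arith 3 : ℂ) * ∫ u in Del, ∑ j, c j *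
        (exp (-(2 * I * x j * (u.1 + u.2.1 + u.2.2))) * ((Vv u ^ 2 : ℝ) : ℂ)) := by
      rw [integral_finsetSum _ (fun j _ => (hI (x j)).const_mul (c j)), Finset.mul_sum]
      refine Finset.sum_congr rfl fun j _ => ?_
      rw [integral_const_mul]
      unfold Wf
      ring
    rw [e2]
    unfold Wf
    rw [← mul_sub, ← integral_sub (hI y) (integrable_finsetSum _ fun j _ => (hI (x j)).const_mul (c j))]
    congr 1
    refine integral_congr_ae (Eventually.of_forall fun u => ?_)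
    simp only
    rw [sub_mul, Finset.sum_mul]
    congr 1
    · congr 2
      push_cast; ring
    · refine Finset.sum_congr rfl fun j _ => ?_
      have e3 : exp (-(I * x j * ((2 * (u.1 + u.2.1 + u.2.2) : ℝ) : ℂ))) =
          exp (-(2 * I * x j * (u.1 + u.2.1 + u.2.2))) := by
        congr 1
        push_cast; ring
      rw [e3]; ring
  rw [e1, norm_mul, Complex.norm_real, Real.norm_eq_abs, abs_of_pos hA, mul_assoc]
  refine mul_le_mul_of_nonneg_left ?_ hA.le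
  have h2 : ‖∫ u in Del, (exp (-(I * y * ((2 * (u.1 + u.2.1 + u.2.2) : ℝ) : ℂ))) -
        ∑ j, c j * exp (-(I * x j * ((2 * (u.1 + u.2.1 + u.2.2) : ℝ) : ℂ)))) * ((Vv u ^ 2 : ℝ) : ℂ)‖ ≤
      ∫ u in Del, Vv u ^ 2 * ε := by
    refine norm_integral_le_of_norm_le (Del_int (hV.mul continuous_const)) ?_
    filter_upwards [ae_restrict_mem Del_meas] with u hu
    obtain ⟨a1, a2, a3, a4⟩ := hu
    rw [norm_mul, Complex.norm_real, Real.norm_eq_abs, abs_of_nonneg (by positivity : 0 ≤ Vv u ^ 2), mul_comm]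
    exact mul_le_mul_of_nonneg_left (hP _ (by linarith) (by linarith)) (by positivity)
  rw [integral_mul_const] at h2
  exact h2

theorem pred_everywhere {J : Set ℝ} {p : ℝ} (hp : AccPt p (𝓟 J))
    (hJ : ∀ x ∈ J, Tendsto (fun T => MP069854.Qk 3 x T) atTop (𝓝 (Wf x))) (y : ℝ) :
    Tendsto (fun T => MP069854.Qk 3 y T) atTop (𝓝 (Wf y)) := by
  have hA := MP069854.arith_pos 3
  have h0 : 0 ≤ ∫ u in Del, Vv u ^ 2 := by rw [Del_V]; positivity
  exact conv_pred weyl hp (B' := MP069854.arith 3 * ∫ u in Del, Vv u ^ 2) (by positivity)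
    (fun m x c y ε h => Wf_approx x c y ε h) hJ y

theorem one_upper {x : ℝ} (hx : |x| ≤ Real.pi) {ε : ℝ} (hε : 0 < ε) : ∀ᶠ T : ℝ in atTop,
    Xf T - (exp (3 * x * I) * MP069854.Qk 3 x T).re ≤ MP069854.arith 3 * AA x +
      (1 - Real.cos x) * (Xf T - MP069854.arith 3 * KE (fun _ => 1)) + ε * (1 + Xf T) := by
  have hDD : ∀ u : ℝ, DD ![x, 0] ![exp (3 * x * I), -(Real.cos x : ℂ)] u =
      Real.cos (x * (u - 3)) - Real.cos x := by
    intro u
    unfold DD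
    rw [Fin.sum_univ_two]
    simp only [Matrix.cons_val_zero, Matrix.cons_val_one, ofReal_zero, mul_zero, zero_mul, neg_zero,
      Complex.exp_zero, mul_one, add_re, neg_re, ofReal_re]
    rw [← Complex.exp_add]
    have e : 3 * (x : ℂ) * I + -(I * x * u) = ((-(x * (u - 3)) : ℝ) : ℂ) * I := by push_cast; ring
    rw [e, Complex.exp_ofReal_mul_I_re, Real.cos_neg]
    ring
  have hpos : ∀ u : ℝ, 2 ≤ u → u ≤ 4 → 0 ≤ DD ![x, 0] ![exp (3 * x * I), -(Real.cos x : ℂ)] u := by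
    intro u hu1 hu2
    rw [hDD, ← Real.cos_abs (x * (u - 3)), ← Real.cos_abs x, abs_mul]
    have h1 : |u - 3| ≤ 1 := abs_le.2 ⟨by linarith, by linarith⟩
    have h2 : |x| * |u - 3| ≤ |x| := by nlinarith [abs_nonneg x]
    have := Real.cos_le_cos_of_nonneg_of_le_pi (by positivity) hx h2
    linarith
  have hc := cone weyl ![x, 0] ![exp (3 * x * I), -(Real.cos x : ℂ)] hpos hε
  have hKE : KE (DD ![x, 0] ![exp (3 * x * I), -(Real.cos x : ℂ)]) =
      (1 - Real.cos x) * KE (fun _ => 1) - AA x := by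
    have e1 : KE (DD ![x, 0] ![exp (3 * x * I), -(Real.cos x : ℂ)]) + AA x =
        (1 - Real.cos x) * KE (fun _ => 1) := by
      unfold AA
      rw [← KE_add (DD_smooth _ _).continuous (by fun_prop), ← KE_smul]
      congr 1
      funext u
      rw [hDD]
      ring
    linarith
  refine hc.mono fun T hT => ?_
  rw [hKE, Fin.sum_univ_two] at hT
  simp only [Matrix.cons_val_zero, Matrix.cons_val_one, add_re] at hT
  have e2 : (-(Real.cos x : ℂ) * MP069854.Qk 3 0 T).re = -(Real.cos x * Xf T) := by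
    rw [neg_mul, neg_re, re_ofReal_mul]; rfl
  rw [e2] at hT
  have e3 : (MP069854.Qk 3 0 T).re = Xf T := rfl
  rw [e3] at hT
  nlinarith

theorem one_lower (x : ℝ) {ε : ℝ} (hε : 0 < ε) : ∀ᶠ T : ℝ in atTop,
    MP069854.arith 3 * AA x - ε ≤ Xf T - (exp (3 * x * I) * MP069854.Qk 3 x T).re := by
  set h : ℤ → ℂ := fun n => if n = 1 then exp (3 * x * I / 2) / (√2 : ℝ) else
    -(exp (-(3 * x * I / 2)) / (√2 : ℝ)) with hh
  have hs2 : ((√2 : ℝ) : ℂ) * ((√2 : ℝ) : ℂ) = 2 := by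
    rw [← ofReal_mul, Real.mul_self_sqrt (by norm_num)]; norm_num
  have hs0 : ((√2 : ℝ) : ℂ) ≠ 0 := by
    have : (0:ℝ) < √2 := by positivity
    exact_mod_cast this.ne'
  have hc : ∀ z : ℂ, conj (exp z) = exp (conj z) := fun z => (exp_conj z).symm
  have h1 : h 1 = exp (3 * x * I / 2) / (√2 : ℝ) := by rw [hh]; simp
  have h2 : h (-1) = -(exp (-(3 * x * I / 2)) / (√2 : ℝ)) := by rw [hh]; simp
  have hcj : conj (3 * (x : ℂ) * I / 2) = -(3 * x * I / 2) := by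
    have h3 : (conj (3 : ℂ)) = 3 := by
      rw [show (3 : ℂ) = ((3 : ℝ) : ℂ) by norm_num, conj_ofReal]
    have h2' : (conj (2 : ℂ)) = 2 := by
      rw [show (2 : ℂ) = ((2 : ℝ) : ℂ) by norm_num, conj_ofReal]
    rw [map_div₀, map_mul, map_mul, conj_ofReal, conj_I, h3, h2']
    ring
  have c1 : conj (h 1) = exp (-(3 * x * I / 2)) / (√2 : ℝ) := by
    rw [h1, map_div₀, conj_ofReal, hc, hcj]
  have c2 : conj (h (-1)) = -(exp (3 * x * I / 2) / (√2 : ℝ)) := by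
    rw [h2, map_neg, map_div₀, conj_ofReal, hc, map_neg, hcj, neg_neg]
  have hne : (1 : ℤ) ∉ ({-1} : Finset ℤ) := by decide
  have hp := posFin weyl (x / 2) {1, -1} h hε
  have hFF : ∀ u : ℝ, ‖FF (x / 2) {1, -1} h u‖ ^ 2 = 1 - Real.cos (x * (u - 3)) := by
    intro u
    unfold FF
    rw [Finset.sum_insert hne, Finset.sum_singleton, h1, h2]
    set v : ℝ := x * (u - 3) / 2 with hv
    have b1 : exp (3 * x * I / 2) / ((√2 : ℝ) : ℂ) * exp (-(((x / 2 * ((1:ℤ):ℝ) : ℝ) : ℂ) * u) * I) =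
        exp (-(v : ℂ) * I) / ((√2 : ℝ) : ℂ) := by
      rw [div_mul_eq_mul_div, ← Complex.exp_add]
      congr 2
      rw [hv]; push_cast; ring
    have b2 : exp (-(3 * x * I / 2)) / ((√2 : ℝ) : ℂ) * exp (-(((x / 2 * ((-1:ℤ):ℝ) : ℝ) : ℂ) * u) * I) =
        exp ((v : ℂ) * I) / ((√2 : ℝ) : ℂ) := by
      rw [div_mul_eq_mul_div, ← Complex.exp_add]
      congr 2
      rw [hv]; push_cast; ring
    have e1 : exp (3 * x * I / 2) / ((√2 : ℝ) : ℂ) * exp (-(((x / 2 * ((1:ℤ):ℝ) : ℝ) : ℂ) * u) * I) +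
        -(exp (-(3 * x * I / 2)) / ((√2 : ℝ) : ℂ)) * exp (-(((x / 2 * ((-1:ℤ):ℝ) : ℝ) : ℂ) * u) * I) =
        -(2 * I * Complex.sin (v : ℂ)) / ((√2 : ℝ) : ℂ) := by
      rw [b1, neg_mul (exp (-(3 * x * I / 2)) / ((√2 : ℝ) : ℂ)), b2]
      unfold Complex.sin
      have hI := I_mul_I
      linear_combination (-(exp (-(v : ℂ) * I)) + exp ((v : ℂ) * I)) / ((√2 : ℝ) : ℂ) * (-hI)
    rw [e1, norm_div, norm_neg, norm_mul, norm_mul, norm_I, ← ofReal_sin, Complex.norm_real,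
      Complex.norm_real, Complex.norm_two, div_pow, mul_one, mul_pow, Real.norm_eq_abs, Real.norm_eq_abs,
      sq_abs, sq_abs, Real.sq_sqrt (by norm_num)]
    have e2 := Real.cos_sq_add_sin_sq v
    have e3 : Real.cos (x * (u - 3)) = 2 * Real.cos v ^ 2 - 1 := by
      rw [← Real.cos_two_mul]; congr 1; rw [hv]; ring
    rw [e3]
    nlinarith
  have hAA : KE (fun u => ‖FF (x / 2) {1, -1} h u‖ ^ 2) = AA x := by
    unfold AA
    congr 1
    funext u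
    exact hFF u
  refine hp.mono fun T hT => ?_
  rw [hAA] at hT
  refine hT.trans (le_of_eq ?_)
  rw [Finset.sum_insert hne, Finset.sum_singleton, Finset.sum_insert hne, Finset.sum_singleton,
    Finset.sum_insert hne, Finset.sum_singleton, c1, c2, h1, h2]
  have q1 : (x / 2 * (((1:ℤ) - 1 : ℤ) : ℝ)) = 0 := by simp
  have q2 : (x / 2 * (((1:ℤ) - -1 : ℤ) : ℝ)) = x := by push_cast; ring
  have q3 : (x / 2 * (((-1:ℤ) - 1 : ℤ) : ℝ)) = -x := by push_cast; ring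
  have q4 : (x / 2 * (((-1:ℤ) - -1 : ℤ) : ℝ)) = 0 := by simp
  rw [q1, q2, q3, q4, Qk_neg]
  set E := exp (3 * (x : ℂ) * I / 2) with hE
  have hE1 : exp (-(3 * (x : ℂ) * I / 2)) = E⁻¹ := by rw [hE, Complex.exp_neg]
  have hE2 : exp (3 * (x : ℂ) * I) = E * E := by rw [hE, ← Complex.exp_add]; congr 1; ring
  have hE0 : E ≠ 0 := Complex.exp_ne_zero _
  have hEc : conj E = E⁻¹ := by rw [hE, hc, hcj, Complex.exp_neg]
  rw [hE1, hE2]
  have e5 : E / ((√2 : ℝ) : ℂ) * (E⁻¹ / ((√2 : ℝ) : ℂ)) * MP069854.Qk 3 0 T +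
      E / ((√2 : ℝ) : ℂ) * -(E / ((√2 : ℝ) : ℂ)) * MP069854.Qk 3 x T +
      (-(E⁻¹ / ((√2 : ℝ) : ℂ)) * (E⁻¹ / ((√2 : ℝ) : ℂ)) * conj (MP069854.Qk 3 x T) +
        -(E⁻¹ / ((√2 : ℝ) : ℂ)) * -(E / ((√2 : ℝ) : ℂ)) * MP069854.Qk 3 0 T) =
      MP069854.Qk 3 0 T - (E * E * MP069854.Qk 3 x T + conj (E * E * MP069854.Qk 3 x T)) / 2 := by
    rw [map_mul, map_mul, hEc]
    field_simp
    rw [show ((√2 : ℝ) : ℂ) ^ 2 = 2 by rw [sq]; exact hs2]
    ring
  rw [e5, sub_re, add_conj]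
  unfold Xf
  simp

end OSX
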