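import Pool.Agent.Lib.MP_39df77_nt.OS.OST

set_option autoImplicit false

namespace OSX
open Filter Topology Complex Set MeasureTheory OSV
open scoped ComplexConjugate ContDiff

theorem Q_bdd_of_X {C : ℝ} (h : ∀ᶠ T : ℝ in atTop, Xf T ≤ C) (x : ℝ) :
    ∃ C' : ℝ, ∀ᶠ T : ℝ in atTop, ‖MP069854.Qk 3 x T‖ ≤ C' := by
  obtain ⟨C0, hC0, hQ⟩ := Qk_bound weyl
  have hlim : Tendsto (fun T : ℝ => C0 * (Real.log T)⁻¹ ^ 3) atTop (𝓝 0) := by
    simpa using invlog_pow_tendsto.const_mul C0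
  refine ⟨(1 + |x|) ^ 8 * (C + 1), ?_⟩
  filter_upwards [h, hlim.eventually (gt_mem_nhds zero_lt_one), eventually_ge_atTop (3 : ℝ)] with T h1 h2 hT
  refine (hQ T x hT).trans ?_
  have : (MP069854.Qk 3 0 T).re = Xf T := rfl
  rw [this]
  gcongr

theorem bdd_iff_one {x : ℝ} (hx : |x| < Real.pi / 2) : (∃ C : ℝ, ∀ᶠ T : ℝ in atTop, Xf T ≤ C) ↔
    ∃ C : ℝ, ∀ᶠ T : ℝ in atTop, ‖MP069854.Qk 3 x T‖ ≤ C := by
  constructor
  · rintro ⟨C, h⟩
    exact Q_bdd_of_X h x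
  · rintro ⟨C, h⟩
    have hcos : 0 < Real.cos x := Real.cos_pos_of_mem_Ioo ⟨by linarith [(abs_lt.1 hx).1], (abs_lt.1 hx).2⟩
    have hup := one_upper (x := x) (by linarith [Real.pi_pos]) (half_pos hcos)
    refine ⟨(C + MP069854.arith 3 * AA x + Real.cos x / 2) / (Real.cos x / 2), ?_⟩
    filter_upwards [h, hup] with T h1 h2
    rw [le_div_iff₀ (by positivity)]
    have h3 : (exp (3 * x * I) * MP069854.Qk 3 x T).re ≤ ‖MP069854.Qk 3 x T‖ := by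
      refine (re_le_norm _).trans ?_
      rw [norm_mul, show (3 * (x : ℂ) * I) = ((3 * x : ℝ) : ℂ) * I by push_cast; ring,
        norm_exp_ofReal_mul_I, one_mul]
    have h4 : 0 ≤ (1 - Real.cos x) * (MP069854.arith 3 * KE (fun _ => 1)) :=
      mul_nonneg (by linarith [Real.cos_le_one x]) (mul_nonneg (MP069854.arith_pos 3).le KE_one_nonneg)
    nlinarith

theorem bdd_iff_J {J : Set ℝ} {p : ℝ} (hp : AccPt p (𝓟 J)) : (∃ C : ℝ, ∀ᶠ T : ℝ in atTop, Xf T ≤ C) ↔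
    ∀ x ∈ J, ∃ C : ℝ, ∀ᶠ T : ℝ in atTop, ‖MP069854.Qk 3 x T‖ ≤ C := by
  constructor
  · rintro ⟨C, h⟩ x _
    exact Q_bdd_of_X h x
  · intro h
    obtain ⟨m, x, C, hx, hC, hT⟩ := X_le weyl hp
    choose D hD using fun j => h (x j) (hx j)
    refine ⟨C * (1 + ∑ j, D j), ?_⟩
    filter_upwards [hT, eventually_all.2 hD] with T h1 h2
    refine h1.trans ?_
    have : ∑ j, ‖MP069854.Qk 3 (x j) T‖ ≤ ∑ j, D j := Finset.sum_le_sum fun j _ => h2 j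
    gcongr

end OSX
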