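import Pool.Agent.Lib.MP_4ae430_nt.VDC

set_option autoImplicit false

namespace Pool.Agent.Lib.MP_4ae430_nt
open Finset

/-- second derivative test (interface) -/
def SDT : Prop := ∀ A : ℝ, 1 ≤ A → ∃ C : ℝ, 0 < C ∧ ∀ (N : ℕ) (a : ℕ → ℝ) (lam : ℝ), 0 < lam →
    (∀ n, n + 2 < N → lam ≤ (dl^[2] a) n ∧ (dl^[2] a) n ≤ A * lam) →
    ‖∑ n ∈ range N, ee (a n)‖ ≤ C * (N * √lam + 1 / √lam)

theorem tri_sum (N : ℕ) (a : ℕ → ℝ) : ‖∑ n ∈ range N, ee (a n)‖ ≤ N := by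
  refine (norm_sum_le _ _).trans ?_
  simp [norm_ee]

theorem norm_sum_neg (N : ℕ) (a : ℕ → ℝ) :
    ‖∑ n ∈ range N, ee (-(a n))‖ = ‖∑ n ∈ range N, ee (a n)‖ := by
  have h1 : ∑ n ∈ range N, ee (-(a n)) = (starRingEnd ℂ) (∑ n ∈ range N, ee (a n)) := by
    rw [map_sum]
    exact sum_congr rfl fun n _ => ee_neg _
  rw [h1, Complex.norm_conj]

theorem sum_sqrt_le (H : ℕ) : ∑ h ∈ Ico 1 H, √(h : ℝ) ≤ H * √(H : ℝ) := by
  calc ∑ h ∈ Ico 1 H, √(h : ℝ) ≤ ∑ h ∈ Ico 1 H, √(H : ℝ) := by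
        refine sum_le_sum fun h hh => Real.sqrt_le_sqrt ?_
        rw [mem_Ico] at hh
        exact_mod_cast hh.2.le
    _ = (H - 1 : ℕ) * √(H : ℝ) := by rw [sum_const, Nat.card_Ico, nsmul_eq_mul]
    _ ≤ H * √(H : ℝ) := by
        gcongr
        exact Nat.sub_le _ _

theorem sum_invsqrt_le' (m : ℕ) : ∑ h ∈ Ico 1 (m + 1), 1 / √(h : ℝ) ≤ 2 * √(m : ℝ) := by
  induction m with
  | zero => simp
  | succ m ih =>
    rw [Finset.sum_Ico_succ_top (by omega)]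
    have h1 : 0 < √((m + 1 : ℕ) : ℝ) := Real.sqrt_pos.2 (by positivity)
    have h3 : √((m + 1 : ℕ) : ℝ) ^ 2 = m + 1 := by
      rw [Real.sq_sqrt (by positivity)]; push_cast; ring
    have h4 : √(m : ℝ) ^ 2 = m := Real.sq_sqrt (Nat.cast_nonneg m)
    have h5 : 0 ≤ √(m : ℝ) := Real.sqrt_nonneg _
    have h6 : 1 / √((m + 1 : ℕ) : ℝ) ≤ 2 * √((m + 1 : ℕ) : ℝ) - 2 * √(m : ℝ) := by
      rw [div_le_iff₀ h1]
      nlinarith [sq_nonneg (√((m + 1 : ℕ) : ℝ) - √(m : ℝ))]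
    linarith

theorem sum_invsqrt_le (H : ℕ) : ∑ h ∈ Ico 1 H, 1 / √(h : ℝ) ≤ 2 * √(H : ℝ) := by
  rcases H with _ | m
  · simp
  · refine (sum_invsqrt_le' m).trans ?_
    gcongr
    simp

/-- third derivative test, `lam = y^6` -/
theorem td_of (hS : SDT) (A : ℝ) (hA : 1 ≤ A) : ∃ C : ℝ, 0 < C ∧ ∀ (N : ℕ) (a : ℕ → ℝ) (y : ℝ), 0 < y →
    (∀ n, n + 3 < N → y ^ 6 ≤ (dl^[3] a) n ∧ (dl^[3] a) n ≤ A * y ^ 6) →
    ‖∑ n ∈ range N, ee (a n)‖ ≤ C * (N * y + √N / y) := by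
  obtain ⟨C, hC, hS⟩ := hS A hA
  refine ⟨2 + 8 * C, by positivity, fun N a y hy hD => ?_⟩
  have hC1 : (1 : ℝ) ≤ 2 + 8 * C := by linarith
  have hN0 : (0 : ℝ) ≤ N := Nat.cast_nonneg N
  have hsN : √(N : ℝ) ^ 2 = N := Real.sq_sqrt hN0
  have hsN0 : 0 ≤ √(N : ℝ) := Real.sqrt_nonneg _
  have hB0 : 0 ≤ N * y + √N / y := by positivity
  have triv : (N : ℝ) ≤ N * y + √N / y → ‖∑ n ∈ range N, ee (a n)‖ ≤ (2 + 8 * C) * (N * y + √N / y) := by
    intro h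
    refine (tri_sum N a).trans (h.trans ?_)
    nlinarith
  rcases le_or_gt 1 y with h1 | h1
  · apply triv
    have : 0 ≤ √(N : ℝ) / y := by positivity
    nlinarith
  rcases le_or_gt (N : ℝ) (1 / y ^ 2) with h2 | h2
  · apply triv
    have h3 : √(N : ℝ) ≤ 1 / y := by
      rw [show 1 / y = √((1 / y) ^ 2) by rw [Real.sqrt_sq (by positivity)]]
      apply Real.sqrt_le_sqrt
      rw [div_pow, one_pow]; exact h2
    have h4 : (N : ℝ) ≤ √N / y := by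
      calc (N : ℝ) = √N * √N := by rw [← sq, hsN]
        _ ≤ √N * (1 / y) := by gcongr
        _ = √N / y := by ring
    have : 0 ≤ (N : ℝ) * y := by positivity
    linarith
  -- main case
  set x : ℝ := 1 / y ^ 2 with hx
  have hx1 : 1 < x := by
    rw [hx, lt_div_iff₀ (by positivity)]
    nlinarith
  set H : ℕ := ⌈x⌉₊ with hH
  have hHx : x ≤ H := Nat.le_ceil x
  have hHx2 : (H : ℝ) ≤ 2 * x := by
    have := (Nat.ceil_lt_add_one (by linarith : (0:ℝ) ≤ x)).le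
    linarith
  have hHN : H ≤ N := Nat.ceil_le.2 h2.le
  have hHpos : 0 < H := Nat.ceil_pos.2 (by linarith)
  have hHr : (0 : ℝ) < H := by exact_mod_cast hHpos
  have key := vdc N H hHpos hHN (fun n => ee (a n)) (fun n => (norm_ee _).le)
  set S := ‖∑ n ∈ range N, ee (a n)‖ with hSdef
  have hsqrty : √(y ^ 6) = y ^ 3 := by
    rw [show y ^ 6 = (y ^ 3) ^ 2 by ring, Real.sqrt_sq (by positivity)]
  have hin : ∀ h ∈ Ico 1 H, ‖∑ n ∈ range (N - h), ee (a (n + h)) * (starRingEnd ℂ) (ee (a n))‖ ≤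
      C * (N * y ^ 3) * √(h : ℝ) + C / y ^ 3 * (1 / √(h : ℝ)) := by
    intro h hh
    rw [mem_Ico] at hh
    have hhr : (0 : ℝ) < h := by exact_mod_cast hh.1
    have e1 : ∀ n, ee (a (n + h)) * (starRingEnd ℂ) (ee (a n)) = ee (a (n + h) - a n) := by
      intro n
      rw [← ee_neg, ← ee_add, sub_eq_add_neg]
    simp only [e1]
    have e2 := hS (N - h) (fun n => a (n + h) - a n) (h * y ^ 6) (by positivity) (by
      intro n hn
      rw [dl_shift]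
      have hb : ∀ i ∈ range h, y ^ 6 ≤ (dl^[2 + 1] a) (n + i) ∧ (dl^[2 + 1] a) (n + i) ≤ A * y ^ 6 := by
        intro i hi'
        rw [Finset.mem_range] at hi'
        exact hD (n + i) (by omega)
      constructor
      · have := Finset.card_nsmul_le_sum (range h) (fun i => (dl^[2 + 1] a) (n + i)) (y ^ 6)
          (fun i hi' => (hb i hi').1)
        rwa [Finset.card_range, nsmul_eq_mul] at this
      · have := Finset.sum_le_card_nsmul (range h) (fun i => (dl^[2 + 1] a) (n + i)) (A * y ^ 6)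
          (fun i hi' => (hb i hi').2)
        rw [Finset.card_range, nsmul_eq_mul] at this
        linarith)
    have e3 : √((h : ℝ) * y ^ 6) = √(h : ℝ) * y ^ 3 := by
      rw [Real.sqrt_mul hhr.le, hsqrty]
    rw [e3] at e2
    have e4 : ((N - h : ℕ) : ℝ) ≤ N := by exact_mod_cast Nat.sub_le _ _
    have hs : 0 < √(h : ℝ) := Real.sqrt_pos.2 hhr
    refine e2.trans ?_
    have e5 : ((N - h : ℕ) : ℝ) * (√(h : ℝ) * y ^ 3) ≤ N * (√(h : ℝ) * y ^ 3) := by gcongr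
    calc C * (((N - h : ℕ) : ℝ) * (√(h : ℝ) * y ^ 3) + 1 / (√(h : ℝ) * y ^ 3))
        ≤ C * (N * (√(h : ℝ) * y ^ 3) + 1 / (√(h : ℝ) * y ^ 3)) := by gcongr
      _ = _ := by field_simp
  have hsum : ∑ h ∈ Ico 1 H, ‖∑ n ∈ range (N - h), ee (a (n + h)) * (starRingEnd ℂ) (ee (a n))‖ ≤
      C * (N * y ^ 3) * (H * √(H : ℝ)) + C / y ^ 3 * (2 * √(H : ℝ)) := by
    refine (sum_le_sum hin).trans ?_
    rw [sum_add_distrib, ← mul_sum, ← mul_sum]
    gcongr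
    · exact sum_sqrt_le H
    · exact sum_invsqrt_le H
  have hsH : √(H : ℝ) ^ 2 = H := Real.sq_sqrt hHr.le
  have hsH0 : 0 < √(H : ℝ) := Real.sqrt_pos.2 hHr
  have hsH2 : √(H : ℝ) ≤ 2 / y := by
    rw [show 2 / y = √((2 / y) ^ 2) by rw [Real.sqrt_sq (by positivity)]]
    apply Real.sqrt_le_sqrt
    refine hHx2.trans ?_
    rw [hx, div_pow]
    have : 0 < 1 / y ^ 2 := by positivity
    have e : (2 : ℝ) ^ 2 / y ^ 2 = 4 * (1 / y ^ 2) := by ring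
    rw [e]; linarith
  have hsH1 : 1 / y ≤ √(H : ℝ) := by
    rw [show 1 / y = √((1 / y) ^ 2) by rw [Real.sqrt_sq (by positivity)]]
    apply Real.sqrt_le_sqrt
    rw [div_pow, one_pow]
    exact hHx
  have key2 : S ^ 2 ≤ 2 * N ^ 2 * y ^ 2 + 8 * C * N ^ 2 * y ^ 2 + 8 * C * N / y ^ 2 := by
    refine key.trans ?_
    have t1 : 2 * (N : ℝ) ^ 2 / H ≤ 2 * N ^ 2 * y ^ 2 := by
      rw [div_le_iff₀ hHr]
      have : 1 ≤ y ^ 2 * H := by
        have := mul_le_mul_of_nonneg_left hHx (by positivity : 0 ≤ y ^ 2)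
        rwa [hx, mul_one_div_cancel (by positivity)] at this
      nlinarith [mul_le_mul_of_nonneg_left this (by positivity : (0:ℝ) ≤ 2 * N ^ 2)]
    have t2 : 4 * (N : ℝ) / H * ∑ h ∈ Ico 1 H,
        ‖∑ n ∈ range (N - h), ee (a (n + h)) * (starRingEnd ℂ) (ee (a n))‖ ≤
        4 * N * (C * (N * y ^ 3) * √(H : ℝ)) + 4 * N * (2 * C / y ^ 3 * (1 / √(H : ℝ))) := by
      refine (mul_le_mul_of_nonneg_left hsum (by positivity)).trans (le_of_eq ?_)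
      have : (H : ℝ) = √(H : ℝ) * √(H : ℝ) := by rw [← sq, hsH]
      field_simp
      rw [hsH]
      ring
    have t3 : 4 * (N : ℝ) * (C * (N * y ^ 3) * √(H : ℝ)) ≤ 8 * C * N ^ 2 * y ^ 2 := by
      calc 4 * (N : ℝ) * (C * (N * y ^ 3) * √(H : ℝ)) ≤ 4 * (N : ℝ) * (C * (N * y ^ 3) * (2 / y)) := by
            gcongr
        _ = 8 * C * N ^ 2 * y ^ 2 := by field_simp; ring
    have t4 : 4 * (N : ℝ) * (2 * C / y ^ 3 * (1 / √(H : ℝ))) ≤ 8 * C * N / y ^ 2 := by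
      have : 1 / √(H : ℝ) ≤ y := by
        rw [div_le_iff₀ hsH0]
        have := mul_le_mul_of_nonneg_left hsH1 hy.le
        rwa [mul_one_div_cancel hy.ne'] at this
      calc 4 * (N : ℝ) * (2 * C / y ^ 3 * (1 / √(H : ℝ))) ≤ 4 * (N : ℝ) * (2 * C / y ^ 3 * y) := by
            gcongr
        _ = 8 * C * N / y ^ 2 := by field_simp; ring
    linarith
  -- conclude
  have hS0 : 0 ≤ S := norm_nonneg _
  refine abs_le_of_sq_le_sq' ?_ (by positivity) |>.2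
  refine key2.trans ?_
  have e1 : (N * y + √N / y) ^ 2 = N ^ 2 * y ^ 2 + 2 * N * √N + N / y ^ 2 := by
    have : (N * y + √N / y) ^ 2 = N ^ 2 * y ^ 2 + 2 * N * √N * (y / y) + √N ^ 2 / y ^ 2 := by ring
    rw [this, hsN, div_self hy.ne', mul_one]
  rw [mul_pow, e1]
  have e2 : (2 + 8 * C) ≤ (2 + 8 * C) ^ 2 := by nlinarith
  have e3 : 0 ≤ (N : ℝ) ^ 2 * y ^ 2 := by positivity
  have e4 : 0 ≤ (N : ℝ) / y ^ 2 := by positivity
  have e5 : 0 ≤ 2 * (N : ℝ) * √N := by positivity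
  calc 2 * (N : ℝ) ^ 2 * y ^ 2 + 8 * C * N ^ 2 * y ^ 2 + 8 * C * N / y ^ 2
      ≤ (2 + 8 * C) * (N ^ 2 * y ^ 2 + 2 * N * √N + N / y ^ 2) := by
        have : 8 * C * (N : ℝ) / y ^ 2 = 8 * C * (N / y ^ 2) := by ring
        rw [this]
        nlinarith
    _ ≤ _ := by
        gcongr

end Pool.Agent.Lib.MP_4ae430_nt
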