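import Pool.Agent.Lib.MP_4ae430_nt.VDC

set_option autoImplicit false

namespace Pool.Agent.Lib.MP_4ae430_nt
open Finset

/-- Differences have steps at least `lam`. -/
def SD2 (lam : ℝ) (N : ℕ) (a : ℕ → ℝ) : Prop :=
  ∀ n, n + 2 < N → dl a n + lam ≤ dl a (n + 1)

/-- `b` is a bound for all sums of length `N` with differences in `[lo, hi)`. -/
def SBd (lam lo hi b : ℝ) : Prop :=
  ∀ (N : ℕ) (a : ℕ → ℝ), SD2 lam N a → (∀ n, n + 1 < N → lo ≤ dl a n ∧ dl a n < hi) →
    ‖∑ n ∈ range N, ee (a n)‖ ≤ b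

theorem sd_triv (N : ℕ) (a : ℕ → ℝ) : ‖∑ n ∈ range N, ee (a n)‖ ≤ N := by
  refine (norm_sum_le _ _).trans ?_
  simp [norm_ee]

theorem dl_add (a : ℕ → ℝ) (m n : ℕ) : dl (fun i => a (m + i)) n = dl a (m + n) := by
  simp only [dl]
  rfl

theorem sd_mono {lam : ℝ} {N : ℕ} {a : ℕ → ℝ} (hD : SD2 lam N a) (i j : ℕ) (h : i + j + 1 < N) :
    dl a i + j * lam ≤ dl a (i + j) := by
  induction j with
  | zero => simp
  | succ j ih =>
    have h1 := ih (by omega)
    have h2 := hD (i + j) (by omega)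
    push_cast
    have : i + (j + 1) = i + j + 1 := by ring
    rw [this]
    linarith

theorem sbd_split {lam lo hi τ b1 b2 : ℝ} (hl : 0 ≤ lam) (h1 : SBd lam lo τ b1)
    (h2 : SBd lam τ hi b2) : SBd lam lo hi (b1 + b2) := by
  intro N a hD hd
  obtain ⟨n0, hn0, hlt, hge⟩ : ∃ n0 ≤ N, (∀ n < n0, n + 1 < N → dl a n < τ) ∧
      ∀ n, n0 ≤ n → n + 1 < N → τ ≤ dl a n := by
    classical
    by_cases hex : ∃ n, n + 1 < N ∧ τ ≤ dl a n
    · refine ⟨Nat.find hex, by have := (Nat.find_spec hex).1; omega, ?_, ?_⟩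
      · intro n hn hnN
        by_contra hcon
        exact Nat.find_min hex hn ⟨hnN, not_lt.1 hcon⟩
      · intro n hn hnN
        have h3 := Nat.find_spec hex
        obtain ⟨j, rfl⟩ := Nat.exists_eq_add_of_le hn
        have h4 := sd_mono hD (Nat.find hex) j (by omega)
        have h5 : (0 : ℝ) ≤ j * lam := by positivity
        linarith [h3.2]
    · push Not at hex
      exact ⟨N, le_rfl, fun n _ hnN => hex n hnN, fun n hn hnN => by omega⟩
  have hsplit : ∑ n ∈ range N, ee (a n) = ∑ n ∈ range n0, ee (a n) +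
      ∑ i ∈ range (N - n0), ee (a (n0 + i)) := by
    rw [← Finset.sum_range_add]
    congr 2
    omega
  rw [hsplit]
  refine (norm_add_le _ _).trans (add_le_add ?_ ?_)
  · apply h1 n0 a
    · intro n hn
      exact hD n (by omega)
    · intro n hn
      exact ⟨(hd n (by omega)).1, hlt n (by omega) (by omega)⟩
  · apply h2 (N - n0) (fun i => a (n0 + i))
    · intro n hn
      rw [dl_add, dl_add]
      exact hD (n0 + n) (by omega)
    · intro n hn
      rw [dl_add]
      exact ⟨hge _ (by omega) (by omega), (hd _ (by omega)).2⟩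

theorem sbd_triv {lam lo hi : ℝ} (hl : 0 < lam) (h : lo ≤ hi) :
    SBd lam lo hi ((hi - lo) / lam + 2) := by
  intro N a hD hd
  refine (sd_triv N a).trans ?_
  have h0 : 0 ≤ (hi - lo) / lam := div_nonneg (by linarith) hl.le
  rcases N with _ | _ | m
  · simp; linarith
  · simp; linarith
  · have h1 := sd_mono hD 0 m (by omega)
    have h2 := (hd 0 (by omega)).1
    have h3 := (hd m (by omega)).2
    rw [zero_add] at h1
    have h4 : (m : ℝ) ≤ (hi - lo) / lam := by
      rw [le_div_iff₀ hl]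
      linarith
    push_cast
    linarith

theorem sbd_KL {lam lo hi : ℝ} (hl : 0 ≤ lam) (hlo : 0 < lo) (hlo2 : lo ≤ 1 / 2)
    (hhi : hi ≤ 1 / 2) : SBd lam lo hi (2 / lo) := by
  intro N a hD hd
  apply kusmin_landau N a lo hlo hlo2
  · intro n hn
    have := hd n hn
    exact ⟨this.1, by linarith⟩
  · left
    intro n hn
    have := hD n hn
    linarith

theorem ee_int_mul (k : ℤ) (n : ℕ) : ee ((k : ℝ) * n) = 1 := by
  unfold ee
  rw [Complex.exp_eq_one_iff]
  refine ⟨k * n, ?_⟩
  push_cast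
  ring

theorem sbd_conj {lam lo hi b : ℝ}
    (h : ∀ (N : ℕ) (a : ℕ → ℝ), (∀ n, n + 2 < N → dl a (n + 1) + lam ≤ dl a n) →
      (∀ n, n + 1 < N → lo < dl a n ∧ dl a n ≤ hi) → ‖∑ n ∈ range N, ee (a n)‖ ≤ b) :
    SBd lam (1 - hi) (1 - lo) b := by
  intro N a hD hd
  have h1 : ‖∑ n ∈ range N, ee (a n)‖ = ‖∑ n ∈ range N, ee ((n : ℝ) - a n)‖ := by
    have h2 : ∑ n ∈ range N, ee ((n : ℝ) - a n) =
        (starRingEnd ℂ) (∑ n ∈ range N, ee (a n)) := by
      rw [map_sum]
      apply Finset.sum_congr rfl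
      intro n _
      rw [sub_eq_add_neg, ee_add, ee_neg]
      have := ee_int_mul 1 n
      rw [Int.cast_one, one_mul] at this
      rw [this, one_mul]
    rw [h2, RCLike.norm_conj]
  rw [h1]
  have hdl : ∀ n, dl (fun n : ℕ => (n : ℝ) - a n) n = 1 - dl a n := by
    intro n
    simp only [dl]
    push_cast
    ring
  apply h N (fun n : ℕ => (n : ℝ) - a n)
  · intro n hn
    rw [hdl, hdl]
    have := hD n hn
    linarith
  · intro n hn
    rw [hdl]
    have := hd n hn
    constructor <;> linarith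

theorem sbd_KL' {lam lo : ℝ} (hl : 0 ≤ lam) (hlo : 0 < lo) (hlo2 : lo ≤ 1 / 2) :
    SBd lam (1 / 2) (1 - lo) (2 / lo) := by
  have := sbd_conj (lam := lam) (lo := lo) (hi := 1 / 2) (b := 2 / lo) (by
    intro N a hD hd
    apply kusmin_landau N a lo hlo hlo2
    · intro n hn
      exact ⟨(hd n hn).1.le, (hd n hn).2⟩
    · right
      intro n hn
      have := hD n hn
      linarith)
  norm_num at this
  exact this

theorem sbd_shift {lam lo hi b : ℝ} (k : ℤ) (h : SBd lam lo hi b) :
    SBd lam (lo + k) (hi + k) b := by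
  intro N a hD hd
  have h2 : ∑ n ∈ range N, ee (a n) = ∑ n ∈ range N, ee (a n + ((-k : ℤ) : ℝ) * n) := by
    apply Finset.sum_congr rfl
    intro n _
    rw [ee_add, ee_int_mul, mul_one]
  rw [h2]
  have hdl : ∀ n, dl (fun n : ℕ => a n + ((-k : ℤ) : ℝ) * n) n = dl a n - k := by
    intro n
    simp only [dl]
    push_cast
    ring
  apply h N (fun n : ℕ => a n + ((-k : ℤ) : ℝ) * n)
  · intro n hn
    rw [hdl, hdl]
    have := hD n hn
    linarith
  · intro n hn
    rw [hdl]
    have := hd n hn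
    constructor <;> linarith

theorem sbd_unit {lam : ℝ} (hl : 0 < lam) (hl1 : lam ≤ 1) : SBd lam 0 1 (13 / √lam) := by
  have hs : 0 < √lam := Real.sqrt_pos.2 hl
  have hs1 : √lam ≤ 1 := by
    have := Real.sqrt_le_sqrt hl1
    rwa [Real.sqrt_one] at this
  have hsq : √lam * √lam = lam := Real.mul_self_sqrt hl.le
  set θ := √lam / 2 with hθ
  have hθ0 : 0 < θ := by positivity
  have hθ1 : θ ≤ 1 / 2 := by rw [hθ]; linarith
  have h1 : SBd lam 0 θ ((θ - 0) / lam + 2) := sbd_triv hl hθ0.le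
  have h2 : SBd lam θ (1 / 2) (2 / θ) := sbd_KL hl.le hθ0 hθ1 le_rfl
  have h3 : SBd lam (1 / 2) (1 - θ) (2 / θ) := sbd_KL' hl.le hθ0 hθ1
  have h4 : SBd lam (1 - θ) 1 ((1 - (1 - θ)) / lam + 2) := sbd_triv hl (by linarith)
  have h5 := sbd_split hl.le (sbd_split hl.le h1 h2) (sbd_split hl.le h3 h4)
  intro N a hD hd
  refine (h5 N a hD hd).trans ?_
  have e1 : θ / lam = 1 / (2 * √lam) := by
    rw [hθ, div_eq_div_iff (by positivity) (by positivity)]
    nlinarith
  have e2 : 2 / θ = 4 / √lam := by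
    rw [hθ, div_eq_div_iff (by positivity) (by positivity)]
    ring
  rw [sub_zero, show 1 - (1 - θ) = θ by ring, e1, e2]
  have e3 : 1 ≤ 1 / √lam := by
    rw [le_div_iff₀ hs]
    linarith
  have e4 : 1 / (2 * √lam) = (1 / 2) * (1 / √lam) := by
    field_simp
  have e5 : 4 / √lam = 4 * (1 / √lam) := by ring
  have e6 : 13 / √lam = 13 * (1 / √lam) := by ring
  rw [e4, e5, e6]
  linarith

theorem sbd_many {lam : ℝ} (hl : 0 < lam) (hl1 : lam ≤ 1) (M : ℕ) (k : ℤ) :
    SBd lam k (k + M) (M * (13 / √lam) + 1) := by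
  induction M generalizing k with
  | zero =>
    intro N a hD hd
    have hN : N ≤ 1 := by
      by_contra hcon
      have := hd 0 (by omega)
      simp at this
      linarith
    refine (sd_triv N a).trans ?_
    have : (N : ℝ) ≤ 1 := by exact_mod_cast hN
    simpa using this
  | succ M ih =>
    have h1 := sbd_shift k (sbd_unit hl hl1)
    have h2 := ih (k + 1)
    have h1' : SBd lam k (k + 1) (13 / √lam) := by
      rw [zero_add, add_comm (1 : ℝ) k] at h1
      exact h1
    have h2' : SBd lam (k + 1) (k + ((M + 1 : ℕ) : ℝ)) (M * (13 / √lam) + 1) := by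
      push_cast at h2 ⊢
      rw [show (k : ℝ) + (M + 1) = k + 1 + M by ring]
      exact h2
    have h3 := sbd_split hl.le h1' h2'
    intro N a hD hd
    refine (h3 N a hD hd).trans ?_
    push_cast
    linarith

/-- ROW S1 (helper61): second derivative test (van der Corput), from `kusmin_landau`. -/
theorem sd_test (A : ℝ) (hA : 1 ≤ A) : ∃ C : ℝ, 0 < C ∧ ∀ (N : ℕ) (a : ℕ → ℝ) (lam : ℝ), 0 < lam →
    (∀ n, n + 2 < N → lam ≤ (dl^[2] a) n ∧ (dl^[2] a) n ≤ A * lam) →
    ‖∑ n ∈ range N, ee (a n)‖ ≤ C * (N * √lam + 1 / √lam) := by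
  refine ⟨27 * A, by linarith, ?_⟩
  intro N a lam hl hd
  have hs : 0 < √lam := Real.sqrt_pos.2 hl
  have hsq : √lam * √lam = lam := Real.mul_self_sqrt hl.le
  have hpos : 0 < 1 / √lam := by positivity
  have hN0 : (0 : ℝ) ≤ N := Nat.cast_nonneg _
  by_cases hl1 : 1 < lam
  · have hs1 : 1 ≤ √lam := by
      rw [Real.one_le_sqrt]
      exact hl1.le
    refine (sd_triv N a).trans ?_
    have h1 : (N : ℝ) ≤ N * √lam := le_mul_of_one_le_right hN0 hs1
    have h2 : N * √lam + 1 / √lam ≤ 27 * A * (N * √lam + 1 / √lam) :=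
      le_mul_of_one_le_left (by positivity) (by linarith)
    linarith
  push Not at hl1
  have hd2 : ∀ n, n + 2 < N → dl a n + lam ≤ dl a (n + 1) ∧ dl a (n + 1) ≤ dl a n + A * lam := by
    intro n hn
    have h1 := hd n hn
    have h2 : (dl^[2] a) n = dl a (n + 1) - dl a n := rfl
    rw [h2] at h1
    constructor <;> linarith [h1.1, h1.2]
  have hD : SD2 lam N a := fun n hn => (hd2 n hn).1
  have hup : ∀ n, n + 1 < N → dl a n ≤ dl a 0 + n * (A * lam) := by
    intro n
    induction n with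
    | zero => intro _; simp
    | succ n ih =>
      intro hn
      have h1 := ih (by omega)
      have h2 := (hd2 n (by omega)).2
      push_cast
      linarith
  set k : ℤ := ⌊dl a 0⌋ with hk
  set M : ℕ := ⌈A * lam * N⌉₊ + 1 with hM
  have hkey := sbd_many hl hl1 M k N a hD (by
    intro n hn
    constructor
    · have h1 := sd_mono hD 0 n (by omega)
      have h2 := Int.floor_le (dl a 0)
      have h3 : (0 : ℝ) ≤ n * lam := by positivity
      rw [zero_add] at h1
      linarith
    · have h1 := hup n hn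
      have h2 := Int.lt_floor_add_one (dl a 0)
      have h3 := Nat.le_ceil (A * lam * N)
      have h4 : (n : ℝ) * (A * lam) ≤ A * lam * N := by
        have : (n : ℝ) ≤ N := by exact_mod_cast (by omega : n ≤ N)
        have h5 : 0 ≤ A * lam := by positivity
        nlinarith
      rw [hM]
      push_cast
      linarith)
  refine hkey.trans ?_
  have hMle : (M : ℝ) ≤ A * lam * N + 2 := by
    have h3 := Nat.ceil_lt_add_one (show 0 ≤ A * lam * N by positivity)
    rw [hM]
    push_cast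
    linarith
  have e3 : 1 ≤ 1 / √lam := by
    rw [le_div_iff₀ hs]
    have : √lam ≤ 1 := by
      have := Real.sqrt_le_sqrt hl1
      rwa [Real.sqrt_one] at this
    linarith
  have h13 : 0 < 13 / √lam := by positivity
  have h1 : (M : ℝ) * (13 / √lam) ≤ (A * lam * N + 2) * (13 / √lam) :=
    mul_le_mul_of_nonneg_right hMle h13.le
  have h2 : (A * lam * N + 2) * (13 / √lam) = 13 * A * (N * √lam) + 26 * (1 / √lam) := by
    have : lam / √lam = √lam := by
      rw [div_eq_iff hs.ne']
      exact hsq.symm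
    have h5 : (A * lam * N + 2) * (13 / √lam) = 13 * A * N * (lam / √lam) + 26 * (1 / √lam) := by
      ring
    rw [h5, this]
    ring
  have h3 : 0 ≤ (N : ℝ) * √lam := by positivity
  have h4 : 13 * A * (N * √lam) ≤ 27 * A * (N * √lam) := by
    apply mul_le_mul_of_nonneg_right _ h3
    linarith
  have h5 : 27 * (1 / √lam) ≤ 27 * A * (1 / √lam) := by
    apply mul_le_mul_of_nonneg_right _ hpos.le
    linarith
  rw [mul_add]
  linarith

end Pool.Agent.Lib.MP_4ae430_nt
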