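import Pool.Agent.Lib.MP_39df77_nt.Part23

set_option autoImplicit false

namespace OSX
open Filter Topology Complex Set MeasureTheory
open scoped ComplexConjugate

noncomputable def F3 (t : ℝ) : ℂ := riemannZeta (1 / 2 + I * t) ^ 3

/-- the Weyl bound (proved elsewhere; here a hypothesis) -/
def WeylB : Prop := ∃ C : ℝ, 0 < C ∧ ∀ t : ℝ, ‖riemannZeta (1 / 2 + t * Complex.I)‖ ≤
  C * (2 + |t|) ^ (1 / 6 : ℝ) * Real.log (2 + |t|)

theorem F3_cont : Continuous F3 := by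
  rw [continuous_iff_continuousAt]
  intro t
  have h1 : (1 / 2 + I * (t : ℂ)) ≠ 1 := by
    intro h
    have := congrArg Complex.re h
    norm_num at this
  have h2 : ContinuousAt riemannZeta (1 / 2 + I * (t : ℂ)) := (differentiableAt_riemannZeta h1).continuousAt
  have h3 : ContinuousAt (fun t : ℝ => (1 / 2 + I * (t : ℂ))) t := by fun_prop
  exact (ContinuousAt.comp (f := fun t : ℝ => (1 / 2 + I * (t : ℂ))) (x := t) h2 h3).pow 3

theorem F3_sq_le (hW : WeylB) : ∃ C : ℝ, 0 < C ∧ ∀ T Y t : ℝ, 3 ≤ T → 0 ≤ Y → |t| ≤ T + Y →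
    ‖F3 t‖ ^ 2 ≤ C * T * (1 + Y) ^ 7 * Real.log T ^ 6 := by
  obtain ⟨C, hC, hW⟩ := hW
  refine ⟨128 * C ^ 6, by positivity, fun T Y t hT hY ht => ?_⟩
  have hL1 : 1 ≤ Real.log T := by
    rw [Real.le_log_iff_exp_le (by linarith)]
    linarith [Real.exp_one_lt_d9]
  have ht0 : 0 ≤ |t| := abs_nonneg t
  have hz := hW t
  have e0 : F3 t = riemannZeta (1 / 2 + t * I) ^ 3 := by unfold F3; rw [mul_comm]
  have hb : (0:ℝ) < 2 + |t| := by linarith
  have h1 : 2 + |t| ≤ 2 * T * (1 + Y) := by nlinarith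
  have h2 : Real.log (2 + |t|) ≤ 2 * Real.log T * (1 + Y) := by
    have h3 : Real.log (2 + |t|) ≤ Real.log (2 * T * (1 + Y)) := Real.log_le_log hb h1
    rw [Real.log_mul (by positivity) (by positivity), Real.log_mul (by norm_num) (by positivity)] at h3
    have h4 : Real.log 2 ≤ 1 := by linarith [Real.log_two_lt_d9]
    have h5 : Real.log (1 + Y) ≤ Y := by
      have := Real.log_le_sub_one_of_pos (by linarith : 0 < 1 + Y); linarith
    nlinarith
  have h0 : 0 ≤ Real.log (2 + |t|) := Real.log_nonneg (by linarith)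
  have h6 : ((2 + |t|) ^ (1 / 6 : ℝ)) ^ 6 = 2 + |t| := by
    rw [← Real.rpow_natCast, ← Real.rpow_mul hb.le]; norm_num
  rw [e0, norm_pow, ← pow_mul]
  calc ‖riemannZeta (1 / 2 + t * I)‖ ^ (3 * 2) ≤ (C * (2 + |t|) ^ (1 / 6 : ℝ) * Real.log (2 + |t|)) ^ 6 := by
        gcongr
    _ = C ^ 6 * (2 + |t|) * Real.log (2 + |t|) ^ 6 := by rw [mul_pow, mul_pow, h6]
    _ ≤ C ^ 6 * (2 * T * (1 + Y)) * (2 * Real.log T * (1 + Y)) ^ 6 := by gcongr
    _ = 128 * C ^ 6 * T * (1 + Y) ^ 7 * Real.log T ^ 6 := by ring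

theorem Qk_eq (α T : ℝ) : MP069854.Qk 3 α T = ((T * Real.log T ^ 9 : ℝ) : ℂ)⁻¹ *
    ∫ t in (0:ℝ)..T, F3 (t + α / Real.log T) * conj (F3 (t - α / Real.log T)) := by
  unfold MP069854.Qk
  congr 1
  refine intervalIntegral.integral_congr fun t _ => ?_
  unfold F3
  rw [map_pow, ← riemannZeta_conj]
  congr 3
  · push_cast; ring
  · have h2 : conj (1 / 2 : ℂ) = 1 / 2 := by
      rw [show (1 / 2 : ℂ) = ((1 / 2 : ℝ) : ℂ) by norm_num, conj_ofReal]
    rw [map_add, map_mul, conj_I, conj_ofReal, h2]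
    push_cast; ring

theorem conj_ii (g : ℝ → ℂ) (a b : ℝ) : conj (∫ t in a..b, g t) = ∫ t in a..b, conj (g t) := by
  unfold intervalIntegral
  rw [map_sub, integral_conj, integral_conj]

theorem Qk_neg (α T : ℝ) : MP069854.Qk 3 (-α) T = conj (MP069854.Qk 3 α T) := by
  rw [Qk_eq, Qk_eq, map_mul, ← ofReal_inv, conj_ofReal, conj_ii]
  congr 1
  refine intervalIntegral.integral_congr fun t _ => ?_
  simp only [map_mul, conj_conj]
  rw [neg_div, ← sub_eq_add_neg, sub_neg_eq_add, mul_comm]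

theorem Qk_zero (T : ℝ) : MP069854.Qk 3 0 T =
    (((T * Real.log T ^ 9)⁻¹ * ∫ t in (0:ℝ)..T, ‖F3 t‖ ^ 2 : ℝ) : ℂ) := by
  rw [Qk_eq, Complex.ofReal_mul (r := (T * Real.log T ^ 9)⁻¹), ← intervalIntegral.integral_ofReal,
    ofReal_inv]
  congr 1
  refine intervalIntegral.integral_congr fun t _ => ?_
  show F3 (t + 0 / Real.log T) * conj (F3 (t - 0 / Real.log T)) = ((‖F3 t‖ ^ 2 : ℝ) : ℂ)
  rw [zero_div, add_zero, sub_zero, mul_conj, normSq_eq_norm_sq]

end OSX
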